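import Pool.Agent.Lead.BR.Stubs

set_option autoImplicit false

namespace Pool.Agent.Lead.BR.T.CV1

open TopologicalSpace Metric Filter Topology

theorem inner_zero {H : Type} [NormedAddCommGroup H] [InnerProductSpace ℝ H] {x y : H}
    (hy : ‖y‖ = 1) (h : Bo x y) : inner ℝ x y = 0 := by
  have h1 := h (-(inner ℝ x y))
  have h2 : ‖x + (-(inner ℝ x y)) • y‖ ^ 2 = ‖x‖ ^ 2 - (inner ℝ x y) ^ 2 := by
    rw [norm_add_sq_real, norm_smul, inner_smul_right, hy, Real.norm_eq_abs, mul_one, sq_abs]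
    ring
  have h3 : ‖x‖ ^ 2 ≤ ‖x + (-(inner ℝ x y)) • y‖ ^ 2 := by gcongr
  have h4 : (inner ℝ x y) ^ 2 ≤ 0 := by linarith
  exact pow_eq_zero_iff (two_ne_zero) |>.1 (le_antisymm h4 (sq_nonneg _))

theorem bo_of_inner {H : Type} [NormedAddCommGroup H] [InnerProductSpace ℝ H] {x y : H}
    (h : inner ℝ x y = 0) : Bo x y := by
  intro t
  have h2 : ‖x + t • y‖ ^ 2 = ‖x‖ ^ 2 + ‖t • y‖ ^ 2 := by
    rw [norm_add_sq_real, inner_smul_right, h]; ring
  have h3 : ‖x‖ ^ 2 ≤ ‖x + t • y‖ ^ 2 := by rw [h2]; linarith [sq_nonneg ‖t • y‖]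
  exact (sq_le_sq₀ (norm_nonneg _) (norm_nonneg _)).1 h3

theorem main : S_CV1 := by
  intro H _ _ _ x y x' y' hx hy hxy hx' hy' hxy'
  have i1 := inner_zero hy hxy
  have i2 := inner_zero hy' hxy'
  set R1 : H ≃ₗᵢ[ℝ] H := (Submodule.span ℝ {x - x'})ᗮ.reflection with hR1
  have e1 : R1 x = x' := Submodule.reflection_sub (by rw [hx, hx'])
  have n1 : ‖R1 y‖ = ‖y'‖ := by rw [R1.norm_map, hy, hy']
  have i3 : inner ℝ x' (R1 y) = 0 := by rw [← e1, R1.inner_map_map, i1]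
  set R2 : H ≃ₗᵢ[ℝ] H := (Submodule.span ℝ {R1 y - y'})ᗮ.reflection with hR2
  have e2 : R2 (R1 y) = y' := Submodule.reflection_sub n1
  have e3 : R2 x' = x' := by
    refine Submodule.reflection_mem_subspace_eq_self ?_
    rw [Submodule.mem_orthogonal_singleton_iff_inner_left]
    rw [inner_sub_right, i3, i2, sub_zero]
  exact ⟨R1.trans R2, by simp [e1, e3], by simp [e2]⟩

end Pool.Agent.Lead.BR.T.CV1
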