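import Pool.Agent.Lead.BR.Stubs
import Pool.Agent.Lead.BR.T.CV1

set_option autoImplicit false

namespace Pool.Agent.Lead.BR.T.CV2

open TopologicalSpace Metric Filter Topology
open Pool.Agent.Lead.BR.T.CV1 (bo_of_inner)

theorem bo_map {E F : Type} [NormedAddCommGroup E] [NormedSpace ℝ E] [NormedAddCommGroup F]
    [NormedSpace ℝ F] (Φ : E ≃ₗᵢ[ℝ] F) {x y : E} (h : Bo x y) : Bo (Φ x) (Φ y) := by
  intro t
  have := h t
  rw [← map_smul, ← map_add, Φ.norm_map, Φ.norm_map]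
  exact this

theorem exists_pair {H : Type} [NormedAddCommGroup H] [InnerProductSpace ℝ H]
    (h : 1 < Module.rank ℝ H) : ∃ x y : H, ‖x‖ = 1 ∧ ‖y‖ = 1 ∧ Bo x y := by
  have hnt : Nontrivial H := by
    rw [← rank_pos_iff_nontrivial (R := ℝ)]
    exact zero_lt_one.trans h
  obtain ⟨x, hx⟩ := exists_norm_eq H (zero_le_one' ℝ)
  have hx0 : x ≠ 0 := by intro h0; rw [h0, norm_zero] at hx; exact zero_ne_one hx
  obtain ⟨y, hy⟩ := exists_linearIndependent_pair_of_one_lt_rank h hx0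
  set w : H := y - (inner ℝ x y) • x with hw
  have hw0 : w ≠ 0 := by
    intro h0
    rw [LinearIndependent.pair_iff] at hy
    have := hy (-(inner ℝ x y)) 1 (by rw [hw] at h0; rw [one_smul, neg_smul, ← h0]; abel)
    exact one_ne_zero this.2
  have hxw : inner ℝ x w = 0 := by
    rw [hw, inner_sub_right, inner_smul_right, real_inner_self_eq_norm_sq, hx]; ring
  refine ⟨x, ‖w‖⁻¹ • w, hx, ?_, bo_of_inner ?_⟩
  · rw [norm_smul, norm_inv, norm_norm, inv_mul_cancel₀ (norm_ne_zero_iff.2 hw0)]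
  · rw [inner_smul_right, hxw, mul_zero]

theorem closed_orth {E : Type} [NormedAddCommGroup E] [NormedSpace ℝ E] (x : E) :
    IsClosed (Orth x) := by
  have : Orth x = {y : E | ‖y‖ = 1} ∩ ⋂ t : ℝ, {y : E | ‖x‖ ≤ ‖x + t • y‖} := by
    ext y; simp [Orth, Bo]
  rw [this]
  refine (isClosed_eq continuous_norm continuous_const).inter (isClosed_iInter fun t => ?_)
  exact isClosed_le continuous_const (continuous_const.add (continuous_id.const_smul t)).norm

theorem closed_pairs (E : Type) [NormedAddCommGroup E] [NormedSpace ℝ E] :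
    IsClosed (Pairs E) := by
  have : Pairs E = {p : E × E | ‖p.1‖ = 1} ∩ ({p : E × E | ‖p.2‖ = 1} ∩
      ⋂ t : ℝ, {p : E × E | ‖p.1‖ ≤ ‖p.1 + t • p.2‖}) := by
    ext y; simp [Pairs, Bo]
  rw [this]
  refine (isClosed_eq continuous_fst.norm continuous_const).inter
    ((isClosed_eq continuous_snd.norm continuous_const).inter (isClosed_iInter fun t => ?_))
  exact isClosed_le continuous_fst.norm (continuous_fst.add (continuous_snd.const_smul t)).norm

theorem main : S_CV2 := by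
  rintro E _ _ _ hrk ⟨H, _, _, _, ⟨Φ⟩⟩
  have hrk' : 1 < Module.rank ℝ H := by
    rw [← Φ.toLinearEquiv.rank_eq]; exact hrk
  obtain ⟨a, b, ha, hb, hab⟩ := exists_pair hrk'
  set x : E := Φ.symm a with hx
  set y : E := Φ.symm b with hy
  have hx1 : ‖x‖ = 1 := by rw [hx, Φ.symm.norm_map, ha]
  have hy1 : ‖y‖ = 1 := by rw [hy, Φ.symm.norm_map, hb]
  have hxy : Bo x y := bo_map Φ.symm hab
  have hΦx : Φ x = a := Φ.apply_symm_apply a
  have hΦy : Φ y = b := Φ.apply_symm_apply b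
  have key : ∀ u v : E, ‖u‖ = 1 → ‖v‖ = 1 → Bo u v → ∃ T : E ≃ₗᵢ[ℝ] E, T x = u ∧ T y = v := by
    intro u v hu hv huv
    obtain ⟨T, hT1, hT2⟩ := CV1.main H a b (Φ u) (Φ v) ha hb hab (by rw [Φ.norm_map, hu])
      (by rw [Φ.norm_map, hv]) (bo_map Φ huv)
    refine ⟨(Φ.trans T).trans Φ.symm, ?_, ?_⟩
    · simp [hΦx, hT1]
    · simp [hΦy, hT2]
  have hc1 : CompleteSpace (Orth x) := (closed_orth x).completeSpace_coe
  have hc2 : CompleteSpace (Pairs E) := (closed_pairs E).completeSpace_coe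
  refine ⟨⟨x, hx1, y, ⟨hy1, hxy⟩, ?_⟩, (x, y), ⟨hx1, hy1, hxy⟩, ?_⟩
  · have : {z : Orth x | ∃ T : E ≃ₗᵢ[ℝ] E, T x = x ∧ T y = z} = Set.univ := by
      rw [Set.eq_univ_iff_forall]
      intro z
      exact key x z hx1 z.2.1 z.2.2
    rw [this]
    have : Nonempty (Orth x) := ⟨⟨y, hy1, hxy⟩⟩
    exact not_isMeagre_of_isOpen isOpen_univ Set.univ_nonempty
  · have : {q : Pairs E | ∃ T : E ≃ₗᵢ[ℝ] E, T (x, y).1 = q.1.1 ∧ T (x, y).2 = q.1.2} =
        Set.univ := by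
      rw [Set.eq_univ_iff_forall]
      intro q
      exact key q.1.1 q.1.2 q.2.1 q.2.2.1 q.2.2.2
    rw [this]
    have : Nonempty (Pairs E) := ⟨⟨(x, y), hx1, hy1, hxy⟩⟩
    exact not_isMeagre_of_isOpen isOpen_univ Set.univ_nonempty

end Pool.Agent.Lead.BR.T.CV2
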