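import Pool.Agent.Lead.BR.Stubs

/-! # BR-CON (helper56) -/

set_option autoImplicit false

namespace Pool.Agent.Lead.BR.T.CON

open Filter Topology

theorem main : S_CON := by
  intro E _ _ D hS hD x y hx
  have key : Tendsto (fun x' => D x' y) (𝓝 x) (𝓝 (D x y)) := by
    rw [tendsto_iff_ultrafilter]
    intro g hg
    have hne : ∀ᶠ x' in (g : Filter E), x' ≠ 0 := hg (isOpen_ne.mem_nhds hx)
    have hid : Tendsto (fun x' : E => x') g (𝓝 x) := hg
    -- the limit functional
    obtain ⟨Φ, hΦ⟩ : ∃ Φ : E → WeakDual ℝ E, Φ = fun x' => StrongDual.toWeakDual (D x') := ⟨_, rfl⟩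
    have hc := WeakDual.isCompact_closedBall (𝕜 := ℝ) (E := E) 0 1
    obtain ⟨f, hf1, hf2⟩ := hc.ultrafilter_le_nhds (g.map Φ) (by
      rw [Filter.le_principal_iff]
      show ∀ᶠ x' in (g : Filter E), Φ x' ∈ _
      filter_upwards [hne] with x' hx'
      rw [Set.mem_preimage, mem_closedBall_zero_iff, hΦ]
      exact (hD x' hx').1)
    have hlim : ∀ v : E, Tendsto (fun x' => D x' v) g (𝓝 (f v)) := by
      intro v
      have h1 : Tendsto Φ g (𝓝 f) := hf2
      have h2 := (WeakDual.eval_continuous v).continuousAt.tendsto.comp h1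
      rw [hΦ] at h2
      exact h2
    have hfn : ‖WeakDual.toStrongDual f‖ ≤ 1 := by
      rw [Set.mem_preimage, mem_closedBall_zero_iff] at hf1
      exact hf1
    have hfx : f x = ‖x‖ := by
      have h1 : Tendsto (fun x' => D x' x) g (𝓝 ‖x‖) := by
        have h2 : Tendsto (fun x' : E => ‖x'‖) g (𝓝 ‖x‖) := hid.norm
        have h3 : Tendsto (fun x' : E => ‖x - x'‖) g (𝓝 0) := by
          have := (tendsto_const_nhds (x := x)).sub hid
          simpa using this.norm
        have h4 : Tendsto (fun x' : E => ‖x'‖ - ‖x - x'‖) g (𝓝 ‖x‖) := by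
          simpa using h2.sub h3
        have h5 : Tendsto (fun x' : E => ‖x'‖ + ‖x - x'‖) g (𝓝 ‖x‖) := by
          simpa using h2.add h3
        refine tendsto_of_tendsto_of_tendsto_of_le_of_le' h4 h5 ?_ ?_
        · filter_upwards [hne] with x' hx'
          have h6 := (D x').le_opNorm (x - x')
          have h7 := mul_le_mul_of_nonneg_right (hD x' hx').1 (norm_nonneg (x - x'))
          rw [map_sub, (hD x' hx').2, Real.norm_eq_abs] at h6
          have h8 := (abs_le.mp (h6.trans h7)).1
          linarith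
        · filter_upwards [hne] with x' hx'
          have h6 := (D x').le_opNorm (x - x')
          have h7 := mul_le_mul_of_nonneg_right (hD x' hx').1 (norm_nonneg (x - x'))
          rw [map_sub, (hD x' hx').2, Real.norm_eq_abs] at h6
          have h8 := (abs_le.mp (h6.trans h7)).2
          linarith
      exact tendsto_nhds_unique (hlim x) h1
    have hfD : WeakDual.toStrongDual f = D x :=
      hS x _ _ hx hfn (hD x hx).1 hfx (hD x hx).2
    rw [← hfD]
    exact hlim y
  intro ε hε
  rw [Metric.tendsto_nhds_nhds] at key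
  obtain ⟨δ, hδ, h⟩ := key ε hε
  refine ⟨δ, hδ, fun x' hx' => ?_⟩
  have h1 := h (x := x') (by rw [dist_eq_norm]; exact hx')
  rwa [Real.dist_eq] at h1

end Pool.Agent.Lead.BR.T.CON
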