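import Pool.Agent.Lead.BR.T.GLO

/-! # BR-PAR (helper56) -/

set_option autoImplicit false

namespace Pool.Agent.Lead.BR.T.PAR

theorem main : S_PAR := by
  intro E _ _ H x y
  by_cases h0 : ∃ s : ℝ, x + s • y = 0
  · obtain ⟨s, hs⟩ := h0
    have hx : x = (-s) • y := by
      rw [neg_smul]
      exact eq_neg_of_add_eq_zero_left hs
    have e1 : x + y = (1 - s) • y := by
      rw [hx, sub_smul, one_smul, neg_smul]
      abel
    have e2 : x - y = (-(1 + s)) • y := by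
      rw [hx, neg_smul, neg_smul, add_smul, one_smul]
      abel
    rw [e1, e2, hx, norm_smul, norm_smul, norm_smul, Real.norm_eq_abs, Real.norm_eq_abs,
      Real.norm_eq_abs, abs_neg, abs_neg]
    have a1 := abs_mul_abs_self (1 - s)
    have a2 := abs_mul_abs_self (1 + s)
    have a3 := abs_mul_abs_self s
    linear_combination (‖y‖ * ‖y‖) * (a1 + a2 - 2 * a3)
  · push Not at h0
    obtain ⟨A, B, C, hq⟩ := GLO.main (fun t => ‖x + t • y‖ ^ 2) (by
      intro s
      obtain ⟨ρ, b, c, hρ, h⟩ := H (x + s • y) y (h0 s)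
      refine ⟨ρ, b, c, hρ, fun t ht => ?_⟩
      have h1 := h t ht
      have e : x + (s + t) • y = x + s • y + t • y := by
        rw [add_smul]
        abel
      simp only [e]
      exact h1)
    have hA : A = ‖x‖ ^ 2 := by
      have := hq 0
      simp at this
      exact this.symm
    have hbd : ∀ t : ℝ, 0 ≤ t → |C - ‖y‖ ^ 2| * t ^ 2 ≤ 2 * t * (‖x‖ * ‖y‖) := by
      intro t ht
      have h1 := hq t
      have h2 := hq (-t)
      have n1 : ‖t • y‖ = t * ‖y‖ := by rw [norm_smul, Real.norm_of_nonneg ht]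
      have n2 : ‖(-t) • y‖ = t * ‖y‖ := by rw [norm_smul, Real.norm_eq_abs, abs_neg, abs_of_nonneg ht]
      have l1 : |‖x + t • y‖ - t * ‖y‖| ≤ ‖x‖ := by
        rw [← n1]
        have := abs_norm_sub_norm_le (x + t • y) (t • y)
        rwa [add_sub_cancel_right] at this
      have l2 : |‖x + (-t) • y‖ - t * ‖y‖| ≤ ‖x‖ := by
        rw [← n2]
        have := abs_norm_sub_norm_le (x + (-t) • y) ((-t) • y)
        rwa [add_sub_cancel_right] at this
      rw [abs_le] at l1 l2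
      have hx0 := norm_nonneg x
      have hy0 : 0 ≤ t * ‖y‖ := mul_nonneg ht (norm_nonneg y)
      have b1 : ‖x + t • y‖ ^ 2 ≤ (t * ‖y‖ + ‖x‖) ^ 2 :=
        pow_le_pow_left₀ (norm_nonneg _) (by linarith) 2
      have b2 : ‖x + (-t) • y‖ ^ 2 ≤ (t * ‖y‖ + ‖x‖) ^ 2 :=
        pow_le_pow_left₀ (norm_nonneg _) (by linarith) 2
      have c1 : (t * ‖y‖) ^ 2 - 2 * (t * ‖y‖) * ‖x‖ + ‖x‖ ^ 2 ≤ ‖x + t • y‖ ^ 2 := by
        have : (t * ‖y‖ - ‖x‖) ^ 2 ≤ ‖x + t • y‖ ^ 2 := by
          apply sq_le_sq'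
          · have := norm_sub_norm_le x (-(t • y))
            rw [norm_neg, sub_neg_eq_add, n1] at this
            linarith
          · linarith
        linarith
      have c2 : (t * ‖y‖) ^ 2 - 2 * (t * ‖y‖) * ‖x‖ + ‖x‖ ^ 2 ≤ ‖x + (-t) • y‖ ^ 2 := by
        have : (t * ‖y‖ - ‖x‖) ^ 2 ≤ ‖x + (-t) • y‖ ^ 2 := by
          apply sq_le_sq'
          · have := norm_sub_norm_le x (-((-t) • y))
            rw [norm_neg, sub_neg_eq_add, n2] at this
            linarith
          · linarith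
        linarith
      have e1 : (C - ‖y‖ ^ 2) * t ^ 2 ≤ 2 * t * (‖x‖ * ‖y‖) := by
        rw [hA] at h1 h2
        nlinarith
      have e2 : -(2 * t * (‖x‖ * ‖y‖)) ≤ (C - ‖y‖ ^ 2) * t ^ 2 := by
        rw [hA] at h1 h2
        nlinarith
      have e3 : |(C - ‖y‖ ^ 2) * t ^ 2| ≤ 2 * t * (‖x‖ * ‖y‖) := abs_le.mpr ⟨e2, e1⟩
      rwa [abs_mul, abs_of_nonneg (sq_nonneg t)] at e3
    have hC : C = ‖y‖ ^ 2 := by
      by_contra hne
      have hk : 0 < |C - ‖y‖ ^ 2| := abs_pos.mpr (sub_ne_zero.mpr hne)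
      obtain ⟨k, hkd⟩ : ∃ k, k = |C - ‖y‖ ^ 2| := ⟨_, rfl⟩
      rw [← hkd] at hk hbd
      obtain ⟨M, hM⟩ : ∃ M, M = ‖x‖ * ‖y‖ := ⟨_, rfl⟩
      have hM0 : 0 ≤ M := by rw [hM]; positivity
      rw [← hM] at hbd
      have h1 := hbd ((2 * M + 1) / k) (by positivity)
      have h2 : k * ((2 * M + 1) / k) ^ 2 = (2 * M + 1) * ((2 * M + 1) / k) := by
        field_simp
      rw [h2] at h1
      have h3 : 0 < (2 * M + 1) / k := by positivity
      nlinarith
    have h1 := hq 1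
    have h2 := hq (-1)
    have e1 : x + (1 : ℝ) • y = x + y := by rw [one_smul]
    have e2 : x + (-1 : ℝ) • y = x - y := by rw [neg_smul, one_smul]; abel
    rw [e1] at h1
    rw [e2] at h2
    rw [hA, hC] at h1 h2
    linear_combination h1 + h2

end Pool.Agent.Lead.BR.T.PAR
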