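import Pool.Agent.Lead.BR.Stubs

/-! # BR-EQV (helper56) -/

set_option autoImplicit false

namespace Pool.Agent.Lead.BR.T.EQV

theorem main : S_EQV := by
  intro E _ _ D hS hD
  constructor
  · intro T x y hx
    have hTx : T x ≠ 0 := by
      intro h
      exact hx ((map_eq_zero_iff T T.injective).mp h)
    have h1 := hD (T x) hTx
    have h2 : (D (T x)).comp (T.toContinuousLinearEquiv : E →L[ℝ] E) = D x := by
      apply hS x _ _ hx
      · apply ContinuousLinearMap.opNorm_le_bound _ zero_le_one
        intro v
        have h3 := (D (T x)).le_opNorm (T v)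
        rw [T.norm_map] at h3
        exact h3.trans (mul_le_mul_of_nonneg_right h1.1 (norm_nonneg v))
      · exact (hD x hx).1
      · show D (T x) (T x) = ‖x‖
        rw [h1.2, T.norm_map]
      · exact (hD x hx).2
    rw [← h2]
    rfl
  · intro c x hc hx
    have hcx : c • x ≠ 0 := smul_ne_zero hc.ne' hx
    have h1 := hD (c • x) hcx
    apply hS x _ _ hx h1.1 (hD x hx).1 _ (hD x hx).2
    have h2 := h1.2
    rw [map_smul, smul_eq_mul, norm_smul, Real.norm_of_nonneg hc.le] at h2
    exact mul_left_cancel₀ hc.ne' h2

end Pool.Agent.Lead.BR.T.EQV
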