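import Pool.Agent.Lead.BR.Stubs

set_option autoImplicit false

namespace Pool.Agent.Lead.BR.T.MEA

open TopologicalSpace Metric Filter Topology

theorem int_nonempty {X : Type} [TopologicalSpace X] {s : Set X} (hs : IsClosed s)
    (h : ¬ IsMeagre s) : (interior s).Nonempty := by
  by_contra hcon
  rw [Set.not_nonempty_iff_eq_empty] at hcon
  exact h ((hs.isNowhereDense_iff.2 hcon).isMeagre)

theorem main : S_MEA := by
  intro E _ _ N
  constructor
  · intro x h
    have hc : IsClosed {y : Orth x | HasShape N x y} := by
      have : {y : Orth x | HasShape N x y} =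
          ⋂ (a : ℝ) (b : ℝ), {y : Orth x | ‖a • x + b • (y : E)‖ = N a b} := by
        ext y; simp [HasShape]
      rw [this]
      refine isClosed_iInter fun a => isClosed_iInter fun b => isClosed_eq ?_ continuous_const
      exact ((continuous_const).add ((continuous_subtype_val).const_smul b)).norm
    obtain ⟨y0, hy0⟩ := int_nonempty hc h
    rw [mem_interior_iff_mem_nhds, Metric.mem_nhds_iff] at hy0
    obtain ⟨r, hr, hr'⟩ := hy0
    refine ⟨y0, r, y0.2, hr, fun y hy hyr => ?_⟩
    have : (⟨y, hy⟩ : Orth x) ∈ ball y0 r := by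
      rw [mem_ball, Subtype.dist_eq, dist_eq_norm]
      exact hyr
    exact hr' this
  · intro h
    have hc : IsClosed {p : Pairs E | HasShape N p.1.1 p.1.2} := by
      have : {p : Pairs E | HasShape N p.1.1 p.1.2} =
          ⋂ (a : ℝ) (b : ℝ), {p : Pairs E | ‖a • p.1.1 + b • p.1.2‖ = N a b} := by
        ext y; simp [HasShape]
      rw [this]
      refine isClosed_iInter fun a => isClosed_iInter fun b => isClosed_eq ?_ continuous_const
      exact (((continuous_fst.comp continuous_subtype_val).const_smul a).add
        ((continuous_snd.comp continuous_subtype_val).const_smul b)).norm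
    obtain ⟨p0, hp0⟩ := int_nonempty hc h
    rw [mem_interior_iff_mem_nhds, Metric.mem_nhds_iff] at hp0
    obtain ⟨r, hr, hr'⟩ := hp0
    refine ⟨p0, r, p0.2, hr, fun p hp h1 h2 => ?_⟩
    have : (⟨p, hp⟩ : Pairs E) ∈ ball p0 r := by
      rw [mem_ball, Subtype.dist_eq, Prod.dist_eq, dist_eq_norm, dist_eq_norm]
      exact max_lt h1 h2
    exact hr' this

end Pool.Agent.Lead.BR.T.MEA
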