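import Pool.Agent.Lead.BR.Stubs

/-! # BR-ORT (helper56) -/

set_option autoImplicit false

namespace Pool.Agent.Lead.BR.T.ORT

theorem main : S_ORT := by
  intro E _ _ D hS hD x y hx
  have hDx := hD x hx
  constructor
  · intro hB
    obtain ⟨S, hSd⟩ : ∃ S : Submodule ℝ E, S = Submodule.span ℝ {y} := ⟨_, rfl⟩
    have hyS : y ∈ S := by
      rw [hSd]
      exact Submodule.mem_span_singleton_self y
    have hnx : ‖(Submodule.Quotient.mk x : E ⧸ S)‖ = ‖x‖ := by
      apply le_antisymm (Submodule.Quotient.norm_mk_le S x)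
      apply le_of_forall_pos_lt_add
      intro ε hε
      obtain ⟨m, hm1, hm2⟩ := Submodule.Quotient.norm_mk_lt (Submodule.Quotient.mk x : E ⧸ S) hε
      rw [Submodule.Quotient.eq, hSd, Submodule.mem_span_singleton] at hm1
      obtain ⟨t, ht⟩ := hm1
      have h1 : m = x + t • y := by rw [ht]; abel
      have h2 := hB t
      rw [← h1] at h2
      linarith
    obtain ⟨g, hg1, hg2⟩ := exists_dual_vector'' ℝ (Submodule.Quotient.mk x : E ⧸ S)
    obtain ⟨f, hf1, hf2⟩ : ∃ f : StrongDual ℝ E, (∀ v, f v = g (Submodule.Quotient.mk v : E ⧸ S)) ∧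
        ‖f‖ ≤ 1 := by
      refine ⟨LinearMap.mkContinuous (g.toLinearMap.comp S.mkQ) 1 ?_, ?_, ?_⟩
      · intro v
        have h1 := g.le_opNorm (Submodule.Quotient.mk v : E ⧸ S)
        have h2 := Submodule.Quotient.norm_mk_le S v
        have h3 := mul_le_mul hg1 h2 (norm_nonneg _) zero_le_one
        exact h1.trans h3
      · intro v
        rfl
      · exact LinearMap.mkContinuous_norm_le _ zero_le_one _
    have h1 : f = D x := by
      apply hS x f (D x) hx hf2 hDx.1 _ hDx.2
      rw [hf1, hg2, hnx]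
      rfl
    rw [← h1, hf1]
    have h2 : (Submodule.Quotient.mk y : E ⧸ S) = 0 := (Submodule.Quotient.mk_eq_zero S).mpr hyS
    rw [h2, map_zero]
  · intro h t
    have h1 : D x (x + t • y) = ‖x‖ := by
      rw [map_add, map_smul, h, hDx.2, smul_zero, add_zero]
    have h2 := (D x).le_opNorm (x + t • y)
    rw [h1, norm_norm] at h2
    have h3 := mul_le_mul_of_nonneg_right hDx.1 (norm_nonneg (x + t • y))
    linarith

end Pool.Agent.Lead.BR.T.ORT
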