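import Pool.Agent.Lead.BR.Stubs
import Pool.Agent.Lead.BR.Stubs2

set_option autoImplicit false

namespace Pool.Agent.Lead.BR.T.CNT

open TopologicalSpace Metric Filter Topology

theorem orth_closed {E : Type} [NormedAddCommGroup E] [NormedSpace ℝ E] (x : E) :
    IsClosed (Orth x) := by
  have h1 : IsClosed {y : E | ‖y‖ = 1} := isClosed_eq continuous_norm continuous_const
  have h2 : IsClosed {y : E | Bo x y} := by
    have : {y : E | Bo x y} = ⋂ t : ℝ, {y : E | ‖x‖ ≤ ‖x + t • y‖} := by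
      ext y
      simp [Bo]
    rw [this]
    exact isClosed_iInter fun t => isClosed_le continuous_const (by fun_prop)
  exact h1.inter h2

theorem orth_baire {E : Type} [NormedAddCommGroup E] [NormedSpace ℝ E] [CompleteSpace E] (x : E) :
    BaireSpace (Orth x) := by
  haveI : CompleteSpace (Orth x) := (orth_closed x).completeSpace_coe
  infer_instance

theorem orth_nonempty {E : Type} [NormedAddCommGroup E] [NormedSpace ℝ E]
    (hd : 1 < Module.rank ℝ E) (x : E) (hx : ‖x‖ = 1) : (Orth x).Nonempty := by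
  have hx0 : x ≠ 0 := by rintro rfl; simp at hx
  obtain ⟨f, hf1, hf2⟩ := exists_dual_vector ℝ x (by simpa using hx0)
  have hf2' : f x = 1 := by rw [hf2, hx]; simp
  obtain ⟨z, hz⟩ : ∃ z : E, ∀ c : ℝ, c • x ≠ z := by
    by_contra hcon
    push Not at hcon
    exact absurd hd (not_lt.2 (rank_le_one_iff.2 ⟨x, hcon⟩))
  set w := z - f z • x with hw
  have hw0 : w ≠ 0 := fun h => hz (f z) (sub_eq_zero.1 h).symm
  have hfw : f w = 0 := by rw [hw, map_sub, map_smul, hf2']; simp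
  have hwn : 0 < ‖w‖ := norm_pos_iff.2 hw0
  refine ⟨‖w‖⁻¹ • w, ?_, ?_⟩
  · rw [norm_smul, norm_inv, norm_norm, inv_mul_cancel₀ hwn.ne']
  · intro t
    rw [hx]
    calc (1 : ℝ) = f (x + t • ‖w‖⁻¹ • w) := by
          rw [map_add, map_smul, map_smul, hf2', hfw]; simp
      _ ≤ ‖f (x + t • ‖w‖⁻¹ • w)‖ := Real.le_norm_self _
      _ ≤ ‖f‖ * ‖x + t • ‖w‖⁻¹ • w‖ := f.le_opNorm _
      _ = ‖x + t • ‖w‖⁻¹ • w‖ := by rw [hf1, one_mul]

theorem main : S_CNT := by
  intro E _ _ _ hd x N hx h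
  by_contra hcon
  push Not at hcon
  haveI := orth_baire x
  obtain ⟨y0, hy0⟩ := orth_nonempty hd x hx
  refine not_isMeagre_of_isOpen (X := Orth x) isOpen_univ ⟨⟨y0, hy0⟩, trivial⟩ ?_
  refine (isMeagre_iUnion hcon).mono ?_
  intro y _
  obtain ⟨i, hi⟩ := h y y.2
  exact Set.mem_iUnion.2 ⟨i, hi⟩

end Pool.Agent.Lead.BR.T.CNT
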