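import Pool.Agent.Lead.BR.Stubs2

/-! CUB (helper31): the quadratic field. -/

set_option autoImplicit false

namespace Pool.Agent.Lead.BR.T.CUB

open TopologicalSpace Metric Filter Topology
open Pool.Agent.Lead.BR

lemma euler {N g1 g2 : ℝ → ℝ → ℝ} (hN : IsNorm2 N) (hG : Grad N g1 g2) {a b : ℝ}
    (h : a ≠ 0 ∨ b ≠ 0) : g1 a b * a + g2 a b * b = N a b := by
  obtain ⟨hd, -, -⟩ := hG a b h
  have hc : HasDerivAt (fun t : ℝ => ((t * a, t * b) : ℝ × ℝ)) (a, b) 1 := by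
    have h1 : HasDerivAt (fun t : ℝ => t * a) a 1 := by
      simpa using (hasDerivAt_id (1 : ℝ)).mul_const a
    have h2 : HasDerivAt (fun t : ℝ => t * b) b 1 := by
      simpa using (hasDerivAt_id (1 : ℝ)).mul_const b
    exact h1.prodMk h2
  have hd' : HasFDerivAt (fun p : ℝ × ℝ => N p.1 p.2)
      (g1 a b • ContinuousLinearMap.fst ℝ ℝ ℝ + g2 a b • ContinuousLinearMap.snd ℝ ℝ ℝ)
      (((1 : ℝ) * a, (1 : ℝ) * b) : ℝ × ℝ) := by simpa using hd
  have h1 := hd'.comp_hasDerivAt (1 : ℝ) hc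
  have h2 : HasDerivAt (fun t : ℝ => t * N a b) (N a b) 1 := by
    simpa using (hasDerivAt_id (1 : ℝ)).mul_const (N a b)
  have h3 : ((fun p : ℝ × ℝ => N p.1 p.2) ∘ fun t : ℝ => ((t * a, t * b) : ℝ × ℝ)) =ᶠ[𝓝 1]
      (fun t : ℝ => t * N a b) := by
    filter_upwards [lt_mem_nhds (zero_lt_one' ℝ)] with t ht
    change N (t * a) (t * b) = t * N a b
    rw [hN.2.2.1 t a b, abs_of_pos ht]
  have h4 := (h2.congr_of_eventuallyEq h3).unique h1
  rw [h4]
  simp

lemma pos_of_ne {N : ℝ → ℝ → ℝ} (hN : IsNorm2 N) {a b : ℝ} (h : a ≠ 0 ∨ b ≠ 0) : 0 < N a b := by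
  refine lt_of_le_of_ne (hN.1 a b) fun h0 => ?_
  obtain ⟨h1, h2⟩ := hN.2.1 a b h0.symm
  rcases h with h | h
  · exact h h1
  · exact h h2

theorem main (hrig : S_RIG) : S_CUB := by
  intro N g1 g2 k hN hG hQ a11 a12 a21 a22 b11 b12 b21 b22 hA hB
  -- the quadratic field
  obtain ⟨Q1, hQ1⟩ : ∃ Q1 : ℝ → ℝ → ℝ, Q1 = fun a b => b11 * a ^ 2 + (b12 - a11) * a * b - a12 * b ^ 2 :=
    ⟨_, rfl⟩
  obtain ⟨Q2, hQ2⟩ : ∃ Q2 : ℝ → ℝ → ℝ, Q2 = fun a b => b21 * a ^ 2 + (b22 - a21) * a * b - a22 * b ^ 2 :=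
    ⟨_, rfl⟩
  have hgQ : ∀ a b : ℝ, (a ≠ 0 ∨ b ≠ 0) → g1 a b * Q1 a b + g2 a b * Q2 a b = 0 := by
    intro a b h
    rw [hQ1, hQ2]
    linear_combination (-b) * hA a b h + a * hB a b h
  -- a zero of the cubic form
  obtain ⟨θ, hθ⟩ : (0 : ℝ) ∈ Set.range fun θ : ℝ =>
      Real.cos θ * Q2 (Real.cos θ) (Real.sin θ) - Real.sin θ * Q1 (Real.cos θ) (Real.sin θ) := by
    have hcont : Continuous fun θ : ℝ =>
        Real.cos θ * Q2 (Real.cos θ) (Real.sin θ) - Real.sin θ * Q1 (Real.cos θ) (Real.sin θ) := by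
      rw [hQ1, hQ2]
      fun_prop
    have e0 : Real.cos 0 * Q2 (Real.cos 0) (Real.sin 0) - Real.sin 0 * Q1 (Real.cos 0) (Real.sin 0) =
        b21 := by
      rw [hQ1, hQ2, Real.cos_zero, Real.sin_zero]
      ring
    have e1 : Real.cos Real.pi * Q2 (Real.cos Real.pi) (Real.sin Real.pi) -
        Real.sin Real.pi * Q1 (Real.cos Real.pi) (Real.sin Real.pi) = -b21 := by
      rw [hQ1, hQ2, Real.cos_pi, Real.sin_pi]
      ring
    rcases le_total b21 0 with h | h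
    · exact mem_range_of_exists_le_of_exists_ge hcont ⟨0, by rw [e0]; exact h⟩
        ⟨Real.pi, by rw [e1]; linarith⟩
    · exact mem_range_of_exists_le_of_exists_ge hcont ⟨Real.pi, by rw [e1]; linarith⟩
        ⟨0, by rw [e0]; exact h⟩
  obtain ⟨c, hc⟩ : ∃ c, c = Real.cos θ := ⟨_, rfl⟩
  obtain ⟨s, hs⟩ : ∃ s, s = Real.sin θ := ⟨_, rfl⟩
  have hcs : c ^ 2 + s ^ 2 = 1 := by rw [hc, hs]; exact Real.cos_sq_add_sin_sq θ
  have hdet : c * Q2 c s - s * Q1 c s = 0 := by rw [hc, hs]; exact hθ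
  have hne : c ≠ 0 ∨ s ≠ 0 := by
    by_contra h
    push Not at h
    rw [h.1, h.2] at hcs
    norm_num at hcs
  have hE := euler hN hG hne
  have hNp := pos_of_ne hN hne
  have hm : c * Q1 c s + s * Q2 c s = 0 := by
    have h1 := hgQ c s hne
    have h2 : (c * Q1 c s + s * Q2 c s) * N c s = 0 := by
      rw [← hE]
      linear_combination (c ^ 2 + s ^ 2) * h1 + (s * g1 c s - c * g2 c s) * hdet
    exact (mul_eq_zero.1 h2).resolve_right hNp.ne'
  have hq1 : Q1 c s = 0 := by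
    linear_combination c * hm - s * hdet - Q1 c s * hcs
  have hq2 : Q2 c s = 0 := by
    linear_combination s * hm + c * hdet - Q2 c s * hcs
  -- the factorization
  have hfac : ∀ α β γ : ℝ, α * c ^ 2 + β * c * s - γ * s ^ 2 = 0 → ∀ a b : ℝ,
      α * a ^ 2 + β * a * b - γ * b ^ 2 =
        (c * b - s * a) * ((β * c - γ * s - α * s) * a + (-γ * c - α * c - β * s) * b) := by
    intro α β γ h a b
    linear_combination (-(α * a ^ 2 + β * a * b - γ * b ^ 2)) * hcs + (a ^ 2 + b ^ 2) * h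
  have hz1 : b11 * c ^ 2 + (b12 - a11) * c * s - a12 * s ^ 2 = 0 := by
    have := hq1
    rw [hQ1] at this
    exact this
  have hz2 : b21 * c ^ 2 + (b22 - a21) * c * s - a22 * s ^ 2 = 0 := by
    have := hq2
    rw [hQ2] at this
    exact this
  have f1 := hfac _ _ _ hz1
  have f2 := hfac _ _ _ hz2
  obtain ⟨l11, hl11⟩ : ∃ l, l = (b12 - a11) * c - a12 * s - b11 * s := ⟨_, rfl⟩
  obtain ⟨l12, hl12⟩ : ∃ l, l = -a12 * c - b11 * c - (b12 - a11) * s := ⟨_, rfl⟩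
  obtain ⟨l21, hl21⟩ : ∃ l, l = (b22 - a21) * c - a22 * s - b21 * s := ⟨_, rfl⟩
  obtain ⟨l22, hl22⟩ : ∃ l, l = -a22 * c - b21 * c - (b22 - a21) * s := ⟨_, rfl⟩
  rw [← hl11, ← hl12] at f1
  rw [← hl21, ← hl22] at f2
  have hL0 : ∀ a b : ℝ, (a ≠ 0 ∨ b ≠ 0) → c * b - s * a ≠ 0 →
      g1 a b * (l11 * a + l12 * b) + g2 a b * (l21 * a + l22 * b) = 0 := by
    intro a b h hne
    have h1 := hgQ a b h
    rw [hQ1, hQ2] at h1
    simp only at h1
    rw [f1, f2] at h1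
    have h2 : (c * b - s * a) *
        (g1 a b * (l11 * a + l12 * b) + g2 a b * (l21 * a + l22 * b)) = 0 := by
      linear_combination h1
    exact (mul_eq_zero.1 h2).resolve_left hne
  have hL : ∀ a b : ℝ, (a ≠ 0 ∨ b ≠ 0) →
      g1 a b * (l11 * a + l12 * b) + g2 a b * (l21 * a + l22 * b) = 0 := by
    intro a b h
    by_cases h0 : c * b - s * a = 0
    · obtain ⟨-, k1, k2⟩ := hG a b h
      -- the curve
      have hcurve : Tendsto (fun t : ℝ => ((a - t * s, b + t * c) : ℝ × ℝ)) (𝓝[≠] 0) (𝓝 (a, b)) := by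
        have : ContinuousAt (fun t : ℝ => ((a - t * s, b + t * c) : ℝ × ℝ)) 0 := by fun_prop
        have h2 := this.tendsto
        simp only [zero_mul, sub_zero, add_zero] at h2
        exact h2.mono_left nhdsWithin_le_nhds
      have hφ : ContinuousAt (fun p : ℝ × ℝ => g1 p.1 p.2 * (l11 * p.1 + l12 * p.2) +
          g2 p.1 p.2 * (l21 * p.1 + l22 * p.2)) (a, b) := by
        have c1 : ContinuousAt (fun p : ℝ × ℝ => l11 * p.1 + l12 * p.2) (a, b) := by fun_prop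
        have c2 : ContinuousAt (fun p : ℝ × ℝ => l21 * p.1 + l22 * p.2) (a, b) := by fun_prop
        exact (k1.mul c1).add (k2.mul c2)
      have h3 := hφ.tendsto.comp hcurve
      have hopen : ∀ᶠ t : ℝ in 𝓝[≠] 0, a - t * s ≠ 0 ∨ b + t * c ≠ 0 := by
        have hO : IsOpen {p : ℝ × ℝ | p.1 ≠ 0 ∨ p.2 ≠ 0} := by
          have : {p : ℝ × ℝ | p.1 ≠ 0 ∨ p.2 ≠ 0} = {((0 : ℝ), (0 : ℝ))}ᶜ := by
            ext p
            simp only [Set.mem_setOf_eq, Set.mem_compl_iff, Set.mem_singleton_iff, Prod.ext_iff]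
            tauto
          rw [this]
          exact isOpen_compl_singleton
        exact hcurve.eventually (hO.mem_nhds h)
      have h4 : ((fun p : ℝ × ℝ => g1 p.1 p.2 * (l11 * p.1 + l12 * p.2) +
          g2 p.1 p.2 * (l21 * p.1 + l22 * p.2)) ∘ fun t : ℝ => ((a - t * s, b + t * c) : ℝ × ℝ))
          =ᶠ[𝓝[≠] 0] fun _ => (0 : ℝ) := by
        filter_upwards [hopen, self_mem_nhdsWithin] with t ht ht0
        refine hL0 _ _ ht ?_
        have : c * (b + t * c) - s * (a - t * s) = t := by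
          linear_combination h0 + t * hcs
        rw [this]
        exact ht0
      exact tendsto_nhds_unique (h3.congr' h4) tendsto_const_nhds
    · exact hL0 a b h h0
  rcases hrig N g1 g2 hN hG l11 l12 l21 l22 hL with ⟨r1, r2, r3, r4⟩ | h
  · constructor
    · have := f1 1 0
      rw [r1, r2] at this
      linear_combination this
    · have := f2 1 0
      rw [r3, r4] at this
      linear_combination this
  · exact absurd h hQ

end Pool.Agent.Lead.BR.T.CUB
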