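import Pool.Agent.Lead.BR.Stubs2

/-!
# S_DER
-/

set_option autoImplicit false

namespace Pool.Agent.Lead.BR.T.DER

open TopologicalSpace Metric Filter Topology Pool.Agent.Lead.BR

theorem isNorm2_nrm {E : Type} [NormedAddCommGroup E] [NormedSpace ℝ E] {u v : E} (h : Ind u v) :
    IsNorm2 (Nrm u v) := by
  refine ⟨fun a b => norm_nonneg _, fun a b hab => h a b (norm_eq_zero.1 hab), fun c a b => ?_,
    fun a b c d => ?_⟩
  · have h1 : (c * a) • u + (c * b) • v = c • (a • u + b • v) := by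
      rw [smul_add, smul_smul, smul_smul]
    simp only [Nrm]
    rw [h1, norm_smul, Real.norm_eq_abs]
  · have h1 : (a + c) • u + (b + d) • v = (a • u + b • v) + (c • u + d • v) := by
      rw [add_smul, add_smul]
      abel
    simp only [Nrm]
    rw [h1]
    exact norm_add_le _ _

theorem main (hN : S_NID) (hX : S_EXP) (hG : S_GRD) (hC : S_CUB) : S_DER := by
  intro E _ _ D hSm hNF u v r hI hQ hr hL e ε hε
  by_contra hcon
  push Not at hcon
  -- deltas from NID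
  have hd : ∀ k : ℕ, ∃ δ : ℝ, 0 < δ ∧ ∀ u' v' : E, ‖u' - u‖ < δ → ‖v' - v‖ < δ →
      ∃ p q r' s : ℝ, |p - 1| < 1 / ((k : ℝ) + 1) ∧ |q| < 1 / ((k : ℝ) + 1) ∧
        |r'| < 1 / ((k : ℝ) + 1) ∧ |s - 1| < 1 / ((k : ℝ) + 1) ∧
        Via (Nrm u v) (Nrm u' v') p q r' s := fun k =>
    hN E u v r hI hr hL (1 / ((k : ℝ) + 1)) (by positivity)
  choose δ hδ0 hδ using hd
  have he : 0 < ‖e‖ + 1 := by positivity
  -- general tool
  have key : ∀ (l1 l2 : ℝ), |l1| ≤ 1 → |l2| ≤ 1 → ∀ s : ℕ → ℝ, (∀ n, s n ≠ 0) →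
      (∀ n, |s n| < 1 / ((n : ℝ) + 1)) → (∀ n, |s n| < δ n / (‖e‖ + 1)) →
      ∃ (p q r' t : ℕ → ℝ) (φ : ℕ → ℕ) (a11 a12 a21 a22 : ℝ), StrictMono φ ∧
        (∀ n, Via (Nrm u v) (Nrm (u + (s n * l1) • e) (v + (s n * l2) • e)) (p n) (q n) (r' n)
          (t n)) ∧
        Tendsto (fun n => (p (φ n) - 1) / s (φ n)) atTop (𝓝 a11) ∧
        Tendsto (fun n => r' (φ n) / s (φ n)) atTop (𝓝 a21) ∧
        ∀ a b : ℝ, (a ≠ 0 ∨ b ≠ 0) →
          D (a • u + b • v) u * (a11 * a + a12 * b) + D (a • u + b • v) v * (a21 * a + a22 * b) =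
            (l1 * a + l2 * b) * D (a • u + b • v) e := by
    intro l1 l2 h1 h2 s hs0 hs1 hs2
    have hb : ∀ (l : ℝ), |l| ≤ 1 → ∀ (w : E) n, ‖w + (s n * l) • e - w‖ < δ n := by
      intro l hl w n
      rw [add_sub_cancel_left, norm_smul, Real.norm_eq_abs, abs_mul]
      calc |s n| * |l| * ‖e‖ ≤ |s n| * 1 * ‖e‖ := by gcongr
        _ ≤ |s n| * (‖e‖ + 1) := by
          have := abs_nonneg (s n)
          nlinarith
        _ < δ n := by
          have := hs2 n
          rwa [lt_div_iff₀ he] at this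
    have hM : ∀ n : ℕ, ∃ p q r' t : ℝ, |p - 1| < 1 / ((n : ℝ) + 1) ∧ |q| < 1 / ((n : ℝ) + 1) ∧
        |r'| < 1 / ((n : ℝ) + 1) ∧ |t - 1| < 1 / ((n : ℝ) + 1) ∧
        Via (Nrm u v) (Nrm (u + (s n * l1) • e) (v + (s n * l2) • e)) p q r' t := fun n =>
      hδ n _ _ (hb l1 h1 u n) (hb l2 h2 v n)
    choose p q r' t hp hq hr' ht hV using hM
    have hlim : Tendsto (fun n : ℕ => 1 / ((n : ℝ) + 1)) atTop (𝓝 0) :=
      tendsto_one_div_add_atTop_nhds_zero_nat
    have hs : Tendsto s atTop (𝓝 0) :=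
      squeeze_zero_norm (fun n => (hs1 n).le) hlim
    have hp1 : Tendsto p atTop (𝓝 1) := by
      rw [tendsto_iff_norm_sub_tendsto_zero]
      exact squeeze_zero (fun n => norm_nonneg _) (fun n => (hp n).le) hlim
    have ht1 : Tendsto t atTop (𝓝 1) := by
      rw [tendsto_iff_norm_sub_tendsto_zero]
      exact squeeze_zero (fun n => norm_nonneg _) (fun n => (ht n).le) hlim
    have hq1 : Tendsto q atTop (𝓝 0) := squeeze_zero_norm (fun n => (hq n).le) hlim
    have hr1 : Tendsto r' atTop (𝓝 0) := squeeze_zero_norm (fun n => (hr' n).le) hlim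
    obtain ⟨φ, a11, a12, a21, a22, h3, h4, h5, h6, h7, h8⟩ :=
      hX E D hSm hNF u v e l1 l2 hI hQ s p q r' t hs0 hs hp1 hq1 hr1 ht1 hV
    exact ⟨p, q, r', t, φ, a11, a12, a21, a22, h3, hV, h4, h6, h8⟩
  -- the sequence for A
  obtain ⟨_, _, _, _, _, a11, a12, a21, a22, _, _, _, _, hA⟩ := key 1 0 (by simp) (by simp)
    (fun n => min (1 / ((n : ℝ) + 1)) (δ n / (‖e‖ + 1)) / 2)
    (fun n => by
      have : 0 < min (1 / ((n : ℝ) + 1)) (δ n / (‖e‖ + 1)) :=
        lt_min (by positivity) (div_pos (hδ0 n) he)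
      positivity)
    (fun n => by
      have h0 : 0 < min (1 / ((n : ℝ) + 1)) (δ n / (‖e‖ + 1)) :=
        lt_min (by positivity) (div_pos (hδ0 n) he)
      rw [abs_of_pos (by positivity)]
      exact lt_of_lt_of_le (half_lt_self h0) (min_le_left _ _))
    (fun n => by
      have h0 : 0 < min (1 / ((n : ℝ) + 1)) (δ n / (‖e‖ + 1)) :=
        lt_min (by positivity) (div_pos (hδ0 n) he)
      rw [abs_of_pos (by positivity)]
      exact lt_of_lt_of_le (half_lt_self h0) (min_le_right _ _))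
  -- the failing sequence
  have hf : ∀ n : ℕ, ∃ s : ℝ, |s| < min (1 / ((n : ℝ) + 1)) (δ n / (‖e‖ + 1)) ∧
      ∀ p q r' t : ℝ, Via (Nrm u v) (Nrm u (v + s • e)) p q r' t →
        |p - 1| ≤ ε * |s| → ε * |s| < |r'| := fun n =>
    hcon _ (lt_min (by positivity) (div_pos (hδ0 n) he))
  choose s hs hbad using hf
  have hs0 : ∀ n, s n ≠ 0 := by
    intro n hn
    have h1 := hbad n 1 0 0 1 (by
      intro a b
      simp [Nrm, hn]) (by simp [hn])
    simp [hn] at h1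
  obtain ⟨p, q, r', t, φ, b11, b12, b21, b22, hφ, hV, hb11, hb21, hB⟩ := key 0 1 (by simp) (by simp)
    s hs0 (fun n => (hs n).trans_le (min_le_left _ _)) (fun n => (hs n).trans_le (min_le_right _ _))
  obtain ⟨e1, e2⟩ := hC (Nrm u v) (fun a b => D (a • u + b • v) u) (fun a b => D (a • u + b • v) v)
    (fun a b => D (a • u + b • v) e) (isNorm2_nrm hI) (hG E D hSm hNF u v hI) hQ
    a11 a12 a21 a22 b11 b12 b21 b22
    (fun a b hab => by have := hA a b hab; simpa using this)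
    (fun a b hab => by have := hB a b hab; simpa using this)
  rw [e1] at hb11
  rw [e2] at hb21
  have ev : ∀ f : ℕ → ℝ, Tendsto f atTop (𝓝 0) → ∀ᶠ n in atTop, |f n| < ε := by
    intro f hf
    have := (tendsto_iff_norm_sub_tendsto_zero.1 hf).eventually_lt_const hε
    simpa using this
  obtain ⟨n, hn1, hn2⟩ := ((ev _ hb11).and (ev _ hb21)).exists
  have hV' : Via (Nrm u v) (Nrm u (v + s (φ n) • e)) (p (φ n)) (q (φ n)) (r' (φ n)) (t (φ n)) := by
    have := hV (φ n)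
    simpa using this
  have hsp : 0 < |s (φ n)| := abs_pos.2 (hs0 _)
  rw [abs_div, div_lt_iff₀ hsp] at hn1 hn2
  exact absurd (hbad (φ n) _ _ _ _ hV' hn1.le) (not_lt.2 hn2.le)

end Pool.Agent.Lead.BR.T.DER
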