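import Pool.Agent.Lead.BR.Stubs3

set_option autoImplicit false

namespace Pool.Agent.Lead.BR.T.ECN

open TopologicalSpace Metric Filter Topology

/-- a vector outside the line of `x` -/
theorem exists_out {E : Type} [NormedAddCommGroup E] [NormedSpace ℝ E]
    (hd : 1 < Module.rank ℝ E) (x : E) : ∃ z : E, z ∉ Submodule.span ℝ {x} := by
  by_contra hcon
  push Not at hcon
  refine absurd hd (not_lt.2 (rank_le_one_iff.2 ⟨x, fun z => ?_⟩))
  exact Submodule.mem_span_singleton.1 (hcon z)

theorem ind_iff {E : Type} [NormedAddCommGroup E] [NormedSpace ℝ E] {x y : E} (hx : x ≠ 0) :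
    Ind x y ↔ y ∉ Submodule.span ℝ {x} := by
  constructor
  · intro h hy
    obtain ⟨c, rfl⟩ := Submodule.mem_span_singleton.1 hy
    have := (h c (-1) (by rw [neg_smul, one_smul, add_neg_cancel])).2
    norm_num at this
  · intro h a b hab
    by_cases hb : b = 0
    · subst hb
      rw [zero_smul, add_zero] at hab
      exact ⟨(smul_eq_zero.1 hab).resolve_right hx, rfl⟩
    · exfalso
      apply h
      refine Submodule.mem_span_singleton.2 ⟨-(b⁻¹ * a), ?_⟩
      have h1 : b • y = -(a • x) := eq_neg_of_add_eq_zero_right hab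
      have h2 : y = b⁻¹ • (b • y) := by rw [smul_smul, inv_mul_cancel₀ hb, one_smul]
      rw [h2, h1, smul_neg, smul_smul, neg_smul]

/-- a proper closed subspace is nowhere dense -/
theorem nowhere {E : Type} [NormedAddCommGroup E] [NormedSpace ℝ E] (S : Submodule ℝ E)
    (hS : IsClosed (S : Set E)) (z : E) (hz : z ∉ S) : IsNowhereDense (S : Set E) := by
  rw [hS.isNowhereDense_iff]
  by_contra hne
  rw [← Ne, ← Set.nonempty_iff_ne_empty] at hne
  have := Submodule.eq_top_of_nonempty_interior' S hne
  exact hz (this ▸ Submodule.mem_top)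

theorem span_closed {E : Type} [NormedAddCommGroup E] [NormedSpace ℝ E] (x : E) :
    IsClosed ((Submodule.span ℝ {x} : Submodule ℝ E) : Set E) :=
  Submodule.closed_of_finiteDimensional _

/-- the vectors independent of `x` are not meagre -/
theorem ind_nonmeagre {E : Type} [NormedAddCommGroup E] [NormedSpace ℝ E] [CompleteSpace E]
    (hd : 1 < Module.rank ℝ E) (x : E) (hx : x ≠ 0) : ¬ IsMeagre {y : E | Ind x y} := by
  obtain ⟨z, hz⟩ := exists_out hd x
  have h1 : {y : E | Ind x y} = ((Submodule.span ℝ {x} : Submodule ℝ E) : Set E)ᶜ := by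
    ext y
    exact ind_iff hx
  rw [h1]
  exact not_isMeagre_of_isOpen (span_closed x).isOpen_compl ⟨z, hz⟩

theorem main : S_ECN := by
  intro E _ _ _ hd x N hx h
  by_contra hcon
  push Not at hcon
  refine ind_nonmeagre hd x hx ?_
  refine (isMeagre_iUnion hcon).mono ?_
  intro y hy
  obtain ⟨i, hi⟩ := h y hy
  exact Set.mem_iUnion.2 ⟨i, hy, hi⟩

end Pool.Agent.Lead.BR.T.ECN
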