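import Pool.Agent.Lead.BR.Stubs3
import Pool.Agent.Lead.BR.T.ECN
import Pool.Agent.Lead.BR.T.CNT

set_option autoImplicit false

namespace Pool.Agent.Lead.BR.T.EHI

open TopologicalSpace Metric Filter Topology

/-- the Euclidean norm of the plane -/
noncomputable def eN : ℝ → ℝ → ℝ := fun a b => ‖(⟨a, b⟩ : ℂ)‖

theorem eN_sq (a b : ℝ) : eN a b ^ 2 = a ^ 2 + b ^ 2 := by
  unfold eN
  rw [Complex.sq_norm, Complex.normSq_mk]
  ring

theorem eN_norm : IsNorm2 eN := by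
  refine ⟨fun a b => norm_nonneg _, fun a b h => ?_, fun c a b => ?_, fun a b c d => ?_⟩
  · have h1 := eN_sq a b
    rw [h] at h1
    constructor <;> nlinarith [sq_nonneg a, sq_nonneg b]
  · unfold eN
    have h1 : (⟨c * a, c * b⟩ : ℂ) = (c : ℝ) • (⟨a, b⟩ : ℂ) := by
      apply Complex.ext <;> simp
    rw [h1, norm_smul, Real.norm_eq_abs]
  · unfold eN
    have h1 : (⟨a + c, b + d⟩ : ℂ) = (⟨a, b⟩ : ℂ) + ⟨c, d⟩ := by
      apply Complex.ext <;> simp
    rw [h1]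
    exact norm_add_le _ _

theorem type_inner {H : Type} [NormedAddCommGroup H] [InnerProductSpace ℝ H] (x y : H)
    (hx : x ≠ 0) : HasType eN x y := by
  have hxn : 0 < ‖x‖ := norm_pos_iff.2 hx
  obtain ⟨i, hi⟩ : ∃ i : ℝ, i = inner ℝ x y := ⟨_, rfl⟩
  have hcs : i ^ 2 ≤ ‖x‖ ^ 2 * ‖y‖ ^ 2 := by
    have h1 := abs_real_inner_le_norm x y
    rw [← hi] at h1
    have h2 : |i| ^ 2 ≤ (‖x‖ * ‖y‖) ^ 2 := pow_le_pow_left₀ (abs_nonneg _) h1 2
    rw [sq_abs, mul_pow] at h2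
    exact h2
  have hs : 0 ≤ ‖y‖ ^ 2 - (i / ‖x‖) ^ 2 := by
    rw [div_pow, sub_nonneg, div_le_iff₀ (by positivity)]
    linarith
  refine ⟨‖x‖, i / ‖x‖, 0, Real.sqrt (‖y‖ ^ 2 - (i / ‖x‖) ^ 2), fun a b => ?_⟩
  have h1 : Nrm x y a b ^ 2 = a ^ 2 * ‖x‖ ^ 2 + 2 * a * b * i + b ^ 2 * ‖y‖ ^ 2 := by
    show ‖a • x + b • y‖ ^ 2 = _
    rw [norm_add_sq_real, norm_smul, norm_smul, inner_smul_left, inner_smul_right, ← hi, mul_pow,
      mul_pow, Real.norm_eq_abs, Real.norm_eq_abs, sq_abs, sq_abs]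
    simp
    ring
  have h2 : eN (‖x‖ * a + i / ‖x‖ * b) (0 * a + Real.sqrt (‖y‖ ^ 2 - (i / ‖x‖) ^ 2) * b) ^ 2 =
      a ^ 2 * ‖x‖ ^ 2 + 2 * a * b * i + b ^ 2 * ‖y‖ ^ 2 := by
    rw [eN_sq]
    have h3 : (0 * a + Real.sqrt (‖y‖ ^ 2 - (i / ‖x‖) ^ 2) * b) ^ 2 =
        (‖y‖ ^ 2 - (i / ‖x‖) ^ 2) * b ^ 2 := by
      rw [zero_mul, zero_add, mul_pow, Real.sq_sqrt hs]
    rw [h3]
    field_simp
    ring
  have h3 : 0 ≤ Nrm x y a b := norm_nonneg _
  have h4 : 0 ≤ eN (‖x‖ * a + i / ‖x‖ * b)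
      (0 * a + Real.sqrt (‖y‖ ^ 2 - (i / ‖x‖) ^ 2) * b) := norm_nonneg _
  exact (pow_left_inj₀ h3 h4 (by norm_num : (2 : ℕ) ≠ 0)).1 (h1.trans h2.symm)

theorem ind_of_det {E : Type} [NormedAddCommGroup E] [NormedSpace ℝ E] (f g : StrongDual ℝ E)
    {u v : E} (h : f u * g v - f v * g u ≠ 0) : Ind u v := by
  intro a b hab
  have h1 : a * f u + b * f v = 0 := by
    have := congrArg f hab
    simpa using this
  have h2 : a * g u + b * g v = 0 := by
    have := congrArg g hab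
    simpa using this
  constructor
  · have h3 : a * (f u * g v - f v * g u) = 0 := by linear_combination g v * h1 - f v * h2
    exact (mul_eq_zero.1 h3).resolve_right h
  · have h3 : b * (f u * g v - f v * g u) = 0 := by linear_combination f u * h2 - g u * h1
    exact (mul_eq_zero.1 h3).resolve_right h

/-- the independent pairs are not meagre -/
theorem pairs_nonmeagre {E : Type} [NormedAddCommGroup E] [NormedSpace ℝ E] [CompleteSpace E]
    (hd : 1 < Module.rank ℝ E) : ¬ IsMeagre {p : E × E | Ind p.1 p.2} := by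
  obtain ⟨z, hz⟩ := T.ECN.exists_out hd 0
  have hz0 : z ≠ 0 := by
    rintro rfl
    exact hz (Submodule.zero_mem _)
  obtain ⟨w, hw⟩ := T.ECN.exists_out hd z
  obtain ⟨f, -, hf⟩ := exists_dual_vector ℝ z (norm_ne_zero_iff.2 hz0)
  have hfz : f z ≠ 0 := by
    rw [hf]
    simpa using hz0
  -- the component of `w` in the kernel of `f`
  set y : E := w - (f w / f z) • z with hy
  have hfy : f y = 0 := by
    rw [hy, map_sub, map_smul, smul_eq_mul, div_mul_cancel₀ _ hfz, sub_self]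
  have hy0 : y ≠ 0 := by
    intro h
    apply hw
    rw [hy, sub_eq_zero] at h
    rw [h]
    exact Submodule.smul_mem _ _ (Submodule.mem_span_singleton_self z)
  obtain ⟨g, -, hg⟩ := exists_dual_vector ℝ y (norm_ne_zero_iff.2 hy0)
  have hgy : g y ≠ 0 := by
    rw [hg]
    simpa using hy0
  have hop : IsOpen {p : E × E | f p.1 * g p.2 - f p.2 * g p.1 ≠ 0} :=
    isOpen_ne_fun (by fun_prop) continuous_const
  intro h
  refine not_isMeagre_of_isOpen hop ⟨(z, y), ?_⟩ (h.mono fun p hp => ind_of_det f g hp)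
  show f z * g y - f y * g z ≠ 0
  rw [hfy, zero_mul, sub_zero]
  exact mul_ne_zero hfz hgy

theorem main : S_EHI := by
  intro E _ _ _ hd hH
  refine ⟨?_, ?_, fun x hx => T.ECN.ind_nonmeagre hd x hx, pairs_nonmeagre hd⟩
  · obtain ⟨H, _, _, _, ⟨Φ⟩⟩ := hH
    refine ⟨eN, eN_norm, fun x y hxy => ?_⟩
    have hx : x ≠ 0 := by
      rintro rfl
      have := (hxy 1 0 (by simp)).1
      norm_num at this
    have hx' : Φ x ≠ 0 := by
      intro h
      exact hx (by rw [← Φ.symm_apply_apply x, h, map_zero])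
    obtain ⟨p, q, r, s, h⟩ := type_inner (Φ x) (Φ y) hx'
    refine ⟨p, q, r, s, fun a b => ?_⟩
    rw [← h a b]
    show ‖a • x + b • y‖ = ‖a • Φ x + b • Φ y‖
    rw [← map_smul, ← map_smul, ← map_add, Φ.norm_map]
  · obtain ⟨z, hz⟩ := T.ECN.exists_out hd 0
    exact ⟨z, by rintro rfl; exact hz (Submodule.zero_mem _)⟩

end Pool.Agent.Lead.BR.T.EHI
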