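import Pool.Agent.Lead.BR.T.Mat

/-! BR2-TLIM: the type is closed. -/

set_option autoImplicit false

namespace Pool.Agent.Lead.BR.T.TLIM

open TopologicalSpace Metric Filter Topology Pool.Agent.Lead.BR

theorem main : S_TLIM := by
  intro E _ _ N hN u v h
  choose! u' v' h1 h2 h3 using h
  have hε : ∀ n : ℕ, (0 : ℝ) < 1 / ((n : ℝ) + 1) := fun n => by positivity
  have lu : Tendsto (fun n : ℕ => u' (1 / ((n : ℝ) + 1))) atTop (𝓝 u) := by
    rw [tendsto_iff_norm_sub_tendsto_zero]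
    exact squeeze_zero (fun n => norm_nonneg _) (fun n => (h1 _ (hε n)).le) tendsto_one_div_add_atTop_nhds_zero_nat
  have lv : Tendsto (fun n : ℕ => v' (1 / ((n : ℝ) + 1))) atTop (𝓝 v) := by
    rw [tendsto_iff_norm_sub_tendsto_zero]
    exact squeeze_zero (fun n => norm_nonneg _) (fun n => (h2 _ (hε n)).le) tendsto_one_div_add_atTop_nhds_zero_nat
  have h4 : ∀ n : ℕ, HasType N (u' (1 / ((n : ℝ) + 1))) (v' (1 / ((n : ℝ) + 1))) := fun n => h3 _ (hε n)
  choose p q r s h5 using h4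
  obtain ⟨φ, P, Q, R, S, -, -, -, -, -, h6⟩ := Mat.subseq hN lu lv h5
  exact ⟨P, Q, R, S, h6⟩

end Pool.Agent.Lead.BR.T.TLIM
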