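import Pool.Agent.Lead.BR.Stubs2

set_option autoImplicit false

namespace Pool.Agent.Lead.BR.T.TMEA

open TopologicalSpace Metric Filter Topology

theorem int_nonempty {X : Type} [TopologicalSpace X] {s : Set X} (hs : IsClosed s)
    (h : ¬ IsMeagre s) : (interior s).Nonempty := by
  by_contra hcon
  rw [Set.not_nonempty_iff_eq_empty] at hcon
  exact h ((hs.isNowhereDense_iff.2 hcon).isMeagre)

theorem main : S_TLIM → S_TMEA := by
  intro hT E _ _ N hN
  constructor
  · intro x h
    have hc : IsClosed {y : Orth x | HasType N x (y : E)} := by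
      refine isClosed_of_closure_subset fun y hy => ?_
      refine hT E N hN x (y : E) fun ε hε => ?_
      obtain ⟨y', hy', hd⟩ := Metric.mem_closure_iff.1 hy ε hε
      refine ⟨x, (y' : E), by simpa using hε, ?_, hy'⟩
      rw [norm_sub_rev, ← dist_eq_norm, ← Subtype.dist_eq]
      exact hd
    obtain ⟨y0, hy0⟩ := int_nonempty hc h
    rw [mem_interior_iff_mem_nhds, Metric.mem_nhds_iff] at hy0
    obtain ⟨r, hr, hr'⟩ := hy0
    refine ⟨y0, r, y0.2, hr, fun y hy hyr => ?_⟩
    have : (⟨y, hy⟩ : Orth x) ∈ ball y0 r := by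
      rw [mem_ball, Subtype.dist_eq, dist_eq_norm]
      exact hyr
    exact hr' this
  · intro h
    have hc : IsClosed {p : Pairs E | HasType N p.1.1 p.1.2} := by
      refine isClosed_of_closure_subset fun p hp => ?_
      refine hT E N hN p.1.1 p.1.2 fun ε hε => ?_
      obtain ⟨p', hp', hd⟩ := Metric.mem_closure_iff.1 hp ε hε
      rw [Subtype.dist_eq, Prod.dist_eq, max_lt_iff, dist_eq_norm, dist_eq_norm] at hd
      refine ⟨p'.1.1, p'.1.2, ?_, ?_, hp'⟩
      · rw [norm_sub_rev]; exact hd.1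
      · rw [norm_sub_rev]; exact hd.2
    obtain ⟨p0, hp0⟩ := int_nonempty hc h
    rw [mem_interior_iff_mem_nhds, Metric.mem_nhds_iff] at hp0
    obtain ⟨r, hr, hr'⟩ := hp0
    refine ⟨p0, r, p0.2, hr, fun p hp h1 h2 => ?_⟩
    have : (⟨p, hp⟩ : Pairs E) ∈ ball p0 r := by
      rw [mem_ball, Subtype.dist_eq, Prod.dist_eq, dist_eq_norm, dist_eq_norm]
      exact max_lt h1 h2
    exact hr' this

end Pool.Agent.Lead.BR.T.TMEA
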