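import Pool.Agent.Lead.BR.Stubs3
import Pool.Agent.Lead.BR.T.TLIM
import Pool.Agent.Lead.BR.T.TMEA

set_option autoImplicit false

namespace Pool.Agent.Lead.BR.T.EME

open TopologicalSpace Metric Filter Topology

theorem main : S_EME := by
  intro E _ _ N hN
  constructor
  · intro h
    have hc : IsClosed {p : E × E | HasType N p.1 p.2} := by
      refine isClosed_of_closure_subset fun p hp => ?_
      refine T.TLIM.main E N hN p.1 p.2 fun ε hε => ?_
      obtain ⟨p', hp', hd⟩ := Metric.mem_closure_iff.1 hp ε hε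
      rw [Prod.dist_eq, max_lt_iff, dist_eq_norm, dist_eq_norm] at hd
      refine ⟨p'.1, p'.2, ?_, ?_, hp'⟩
      · rw [norm_sub_rev]; exact hd.1
      · rw [norm_sub_rev]; exact hd.2
    have h' : ¬ IsMeagre {p : E × E | HasType N p.1 p.2} := fun h1 =>
      h (h1.mono fun p hp => hp.2)
    obtain ⟨p0, hp0⟩ := T.TMEA.int_nonempty hc h'
    rw [mem_interior_iff_mem_nhds, Metric.mem_nhds_iff] at hp0
    obtain ⟨r, hr, hr'⟩ := hp0
    refine ⟨p0.1, p0.2, r, hr, fun u v hu hv => ?_⟩
    have : ((u, v) : E × E) ∈ ball p0 r := by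
      rw [mem_ball, Prod.dist_eq, dist_eq_norm, dist_eq_norm]
      exact max_lt hu hv
    exact hr' this
  · intro x h
    have hc : IsClosed {y : E | HasType N x y} := by
      refine isClosed_of_closure_subset fun y hy => ?_
      refine T.TLIM.main E N hN x y fun ε hε => ?_
      obtain ⟨y', hy', hd⟩ := Metric.mem_closure_iff.1 hy ε hε
      rw [dist_eq_norm, norm_sub_rev] at hd
      exact ⟨x, y', by simpa using hε, hd, hy'⟩
    have h' : ¬ IsMeagre {y : E | HasType N x y} := fun h1 => h (h1.mono fun p hp => hp.2)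
    obtain ⟨y1, hy1⟩ := T.TMEA.int_nonempty hc h'
    rw [mem_interior_iff_mem_nhds, Metric.mem_nhds_iff] at hy1
    obtain ⟨r, hr, hr'⟩ := hy1
    refine ⟨y1, r, hr, fun y hy => ?_⟩
    exact hr' (by rw [mem_ball, dist_eq_norm]; exact hy)

end Pool.Agent.Lead.BR.T.EME
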