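import Pool.Agent.Lead.BR.Stubs3
import Pool.Agent.Lead.BR.T.ECN

set_option autoImplicit false

namespace Pool.Agent.Lead.BR.T.OPE

open TopologicalSpace Metric Filter Topology

theorem change {E : Type} [NormedAddCommGroup E] [NormedSpace ℝ E] {N : ℝ → ℝ → ℝ} {u v : E}
    {c d e : ℝ} (hc : c ≠ 0) (he : e ≠ 0) (h : HasType N (c • u) (d • u + e • v)) :
    HasType N u v := by
  obtain ⟨p, q, r, s, h⟩ := h
  refine ⟨p / c, q / e - p * d / (c * e), r / c, s / e - r * d / (c * e), fun a b => ?_⟩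
  have h1 := h ((a - d * b / e) / c) (b / e)
  have h2 : Nrm (c • u) (d • u + e • v) ((a - d * b / e) / c) (b / e) = Nrm u v a b := by
    show ‖((a - d * b / e) / c) • c • u + (b / e) • (d • u + e • v)‖ = ‖a • u + b • v‖
    congr 1
    rw [smul_add, smul_smul, smul_smul, smul_smul, ← add_assoc, ← add_smul]
    congr 2
    · field_simp
      ring
    · field_simp
  rw [h2] at h1
  rw [h1]
  congr 1 <;> field_simp <;> ring

/-- near any vector there is one outside the line of `x` -/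
theorem near_out {E : Type} [NormedAddCommGroup E] [NormedSpace ℝ E]
    (hd : 1 < Module.rank ℝ E) (x y : E) {r : ℝ} (hr : 0 < r) :
    ∃ z : E, ‖z - y‖ < r ∧ z ∉ Submodule.span ℝ {x} := by
  by_cases hy : y ∈ Submodule.span ℝ {x}
  · obtain ⟨z, hz⟩ := T.ECN.exists_out hd x
    have hzn : 0 < ‖z‖ + 1 := by positivity
    refine ⟨y + (r / 2 / (‖z‖ + 1)) • z, ?_, fun h => hz ?_⟩
    · rw [add_sub_cancel_left, norm_smul, Real.norm_of_nonneg (by positivity)]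
      have : r / 2 / (‖z‖ + 1) * ‖z‖ ≤ r / 2 := by
        rw [div_mul_eq_mul_div, div_le_iff₀ hzn]
        nlinarith [norm_nonneg z]
      linarith
    · have h1 := Submodule.sub_mem _ h hy
      rw [add_sub_cancel_left] at h1
      exact (Submodule.smul_mem_iff _ (by positivity)).1 h1
  · exact ⟨y, by simpa using hr, hy⟩

theorem main : S_OPE := by
  intro E _ _ D _ hD hd N x1 y1 r hr hloc
  obtain ⟨x2, hx2, hx20⟩ := near_out hd (0 : E) x1 (half_pos hr)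
  have hx20' : x2 ≠ 0 := by rintro rfl; exact hx20 (Submodule.zero_mem _)
  obtain ⟨y2, hy2, hy2s⟩ := near_out hd x2 y1 (half_pos hr)
  have hn2 : 0 < ‖x2‖ := norm_pos_iff.2 hx20'
  obtain ⟨x, hx⟩ : ∃ x : E, x = ‖x2‖⁻¹ • x2 := ⟨_, rfl⟩
  have hxn : ‖x‖ = 1 := by rw [hx, norm_smul, norm_inv, norm_norm, inv_mul_cancel₀ hn2.ne']
  have hx2x : x2 = ‖x2‖ • x := by rw [hx, smul_smul, mul_inv_cancel₀ hn2.ne', one_smul]
  have hx0 : x ≠ 0 := by intro h; rw [h, norm_zero] at hxn; exact zero_ne_one hxn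
  have hDx : D x x = 1 := by rw [(hD x hx0).2, hxn]
  obtain ⟨d, hdd⟩ : ∃ d : ℝ, d = D x y2 := ⟨_, rfl⟩
  obtain ⟨w, hw⟩ : ∃ w : E, w = y2 - d • x := ⟨_, rfl⟩
  have hw0 : w ≠ 0 := by
    intro h
    rw [hw, sub_eq_zero] at h
    apply hy2s
    rw [h, hx]
    exact Submodule.smul_mem _ _ (Submodule.smul_mem _ _ (Submodule.mem_span_singleton_self x2))
  have hwn : 0 < ‖w‖ := norm_pos_iff.2 hw0
  obtain ⟨y, hy⟩ : ∃ y : E, y = ‖w‖⁻¹ • w := ⟨_, rfl⟩
  have hyn : ‖y‖ = 1 := by rw [hy, norm_smul, norm_inv, norm_norm, inv_mul_cancel₀ hwn.ne']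
  have hwy : w = ‖w‖ • y := by rw [hy, smul_smul, mul_inv_cancel₀ hwn.ne', one_smul]
  have hDy : D x y = 0 := by
    rw [hy, map_smul, hw, map_sub, map_smul, hDx, ← hdd]
    simp
  have hy2e : y2 = d • x + ‖w‖ • y := by rw [← hwy, hw]; abel
  have hM : 0 < ‖x2‖ + |d| + ‖w‖ := by positivity
  refine ⟨x, y, r / 2 / (‖x2‖ + |d| + ‖w‖), hxn, hyn, hDy, by positivity, ?_⟩
  intro u v hu hv
  have hu' : (‖x2‖ + |d| + ‖w‖) * ‖u - x‖ < r / 2 := by
    rw [lt_div_iff₀ hM] at hu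
    linarith
  have hv' : (‖x2‖ + |d| + ‖w‖) * ‖v - y‖ < r / 2 := by
    rw [lt_div_iff₀ hM] at hv
    linarith
  refine change (c := ‖x2‖) (d := d) (e := ‖w‖) hn2.ne' hwn.ne' (hloc _ _ ?_ ?_)
  · have h1 : ‖x2‖ • u - x1 = ‖x2‖ • (u - x) + (x2 - x1) := by
      rw [smul_sub, ← hx2x]; abel
    rw [h1]
    refine (norm_add_le _ _).trans_lt ?_
    rw [norm_smul, norm_norm]
    nlinarith [norm_nonneg (u - x), abs_nonneg d]
  · have h1 : d • u + ‖w‖ • v - y1 = (d • (u - x) + ‖w‖ • (v - y)) + (y2 - y1) := by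
      rw [hy2e]
      module
    rw [h1]
    refine (norm_add_le _ _).trans_lt ?_
    have h2 : ‖d • (u - x) + ‖w‖ • (v - y)‖ ≤ |d| * ‖u - x‖ + ‖w‖ * ‖v - y‖ := by
      refine (norm_add_le _ _).trans ?_
      rw [norm_smul, norm_smul, norm_norm, Real.norm_eq_abs]
    have h3 : |d| * ‖u - x‖ + ‖w‖ * ‖v - y‖ < r / 2 := by
      have e1 : (‖x2‖ + |d| + ‖w‖) * (|d| * ‖u - x‖ + ‖w‖ * ‖v - y‖) ≤
          (|d| + ‖w‖) * (r / 2) := by
        have := mul_le_mul_of_nonneg_left hu'.le (abs_nonneg d)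
        have := mul_le_mul_of_nonneg_left hv'.le (norm_nonneg w)
        nlinarith
      have e2 : (|d| + ‖w‖) * (r / 2) < (‖x2‖ + |d| + ‖w‖) * (r / 2) := by
        apply mul_lt_mul_of_pos_right _ (half_pos hr)
        linarith
      exact lt_of_mul_lt_mul_left (e1.trans_lt e2) hM.le
    linarith

end Pool.Agent.Lead.BR.T.OPE
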