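import Pool.Agent.Lead.BR.Stubs3
import Pool.Agent.Lead.BR.T.OPE

set_option autoImplicit false

namespace Pool.Agent.Lead.BR.T.ESL

open TopologicalSpace Metric Filter Topology

theorem main : S_ESL := by
  intro E _ _ D _ hD hd N x2 y1 r hx20 hr hloc
  obtain ⟨y2, hy2, hy2s⟩ := T.OPE.near_out hd x2 y1 (half_pos hr)
  have hn2 : 0 < ‖x2‖ := norm_pos_iff.2 hx20
  obtain ⟨x, hx⟩ : ∃ x : E, x = ‖x2‖⁻¹ • x2 := ⟨_, rfl⟩
  rw [← hx]
  have hxn : ‖x‖ = 1 := by rw [hx, norm_smul, norm_inv, norm_norm, inv_mul_cancel₀ hn2.ne']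
  have hx2x : x2 = ‖x2‖ • x := by rw [hx, smul_smul, mul_inv_cancel₀ hn2.ne', one_smul]
  have hx0 : x ≠ 0 := by intro h; rw [h, norm_zero] at hxn; exact zero_ne_one hxn
  have hDx : D x x = 1 := by rw [(hD x hx0).2, hxn]
  obtain ⟨d, hdd⟩ : ∃ d : ℝ, d = D x y2 := ⟨_, rfl⟩
  obtain ⟨w, hw⟩ : ∃ w : E, w = y2 - d • x := ⟨_, rfl⟩
  have hw0 : w ≠ 0 := by
    intro h
    rw [hw, sub_eq_zero] at h
    apply hy2s
    rw [h, hx]
    exact Submodule.smul_mem _ _ (Submodule.smul_mem _ _ (Submodule.mem_span_singleton_self x2))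
  have hwn : 0 < ‖w‖ := norm_pos_iff.2 hw0
  obtain ⟨y0, hy⟩ : ∃ y : E, y = ‖w‖⁻¹ • w := ⟨_, rfl⟩
  have hyn : ‖y0‖ = 1 := by rw [hy, norm_smul, norm_inv, norm_norm, inv_mul_cancel₀ hwn.ne']
  have hwy : w = ‖w‖ • y0 := by rw [hy, smul_smul, mul_inv_cancel₀ hwn.ne', one_smul]
  have hDy : D x y0 = 0 := by
    rw [hy, map_smul, hw, map_sub, map_smul, hDx, ← hdd]
    simp
  have hy2e : y2 = d • x + ‖w‖ • y0 := by rw [← hwy, hw]; abel
  refine ⟨y0, r / 2 / ‖w‖, hyn, hDy, by positivity, ?_⟩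
  intro y hy1 hy3 hyr
  rw [lt_div_iff₀ hwn] at hyr
  have h1 : HasType N x2 (d • x + ‖w‖ • y) := by
    apply hloc
    have h2 : d • x + ‖w‖ • y - y1 = ‖w‖ • (y - y0) + (y2 - y1) := by
      rw [hy2e]
      module
    rw [h2]
    refine (norm_add_le _ _).trans_lt ?_
    rw [norm_smul, norm_norm]
    linarith
  rw [hx2x] at h1
  exact T.OPE.change hn2.ne' hwn.ne' h1

end Pool.Agent.Lead.BR.T.ESL
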