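import Pool.Agent.Lead.BR.Stubs
import Pool.Agent.Lead.BR.Stubs2
import Pool.Agent.Lead.BR.T.CONT

/-! # BR2-EXP (helper72) -/

set_option autoImplicit false

namespace Pool.Agent.Lead.BR.T.EXP

open TopologicalSpace Metric Filter Topology
open Pool.Agent.Lead.BR

theorem isNorm2 {E : Type} [NormedAddCommGroup E] [NormedSpace ℝ E] {u v : E} (h : Ind u v) :
    IsNorm2 (Nrm u v) := by
  refine ⟨fun a b => norm_nonneg _, fun a b hab => h a b (norm_eq_zero.1 hab), fun c a b => ?_,
    fun a b c d => ?_⟩
  · simp only [Nrm]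
    rw [mul_smul, mul_smul, ← smul_add, norm_smul, Real.norm_eq_abs]
  · simp only [Nrm]
    calc ‖(a + c) • u + (b + d) • v‖ = ‖(a • u + b • v) + (c • u + d • v)‖ := by
          congr 1; module
      _ ≤ _ := norm_add_le _ _

variable {E : Type} [NormedAddCommGroup E] [NormedSpace ℝ E] {D : E → StrongDual ℝ E}

theorem le_norm (hD : NF D) {z : E} (hz : z ≠ 0) (w : E) : D z w ≤ ‖w‖ := by
  have h1 := (D z).le_opNorm w
  have h2 := mul_le_mul_of_nonneg_right (hD z hz).1 (norm_nonneg w)
  rw [Real.norm_eq_abs] at h1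
  have h3 := (abs_le.mp (h1.trans h2)).2
  linarith

theorem low (hD : NF D) {z w : E} (hz : z ≠ 0) : D z w ≤ ‖z + w‖ - ‖z‖ := by
  have h1 := le_norm hD hz (z + w)
  rw [map_add, (hD z hz).2] at h1
  linarith

theorem up (hD : NF D) {z w : E} (hz : z + w ≠ 0) : ‖z + w‖ - ‖z‖ ≤ D (z + w) w := by
  have h1 := le_norm hD hz z
  have h2 := (hD _ hz).2
  have h3 : D (z + w) (z + w) = D (z + w) z + D (z + w) w := map_add _ _ _
  linarith

theorem key (hD : NF D) {x w w' : E} (hx : x ≠ 0) (hw : x + w ≠ 0) (hw' : x + w' ≠ 0)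
    (h : ‖x + w‖ = ‖x + w'‖) :
    |D x w - D x w'| ≤ |D (x + w) w - D x w| + |D (x + w') w' - D x w'| := by
  have h1 := low hD (w := w) hx
  have h2 := low hD (w := w') hx
  have h3 := up hD hw
  have h4 := up hD hw'
  have h5 := le_abs_self (D (x + w) w - D x w)
  have h6 := le_abs_self (D (x + w') w' - D x w')
  have h7 := abs_nonneg (D (x + w) w - D x w)
  have h8 := abs_nonneg (D (x + w') w' - D x w')
  rw [abs_le]
  constructor <;> linarith

theorem con (hS : Sm E) (hD : NF D) {x : E} (y : E) (hx : x ≠ 0) {f : ℕ → E}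
    (hf : Tendsto f atTop (𝓝 x)) : Tendsto (fun n => D (f n) y) atTop (𝓝 (D x y)) := by
  rw [Metric.tendsto_atTop]
  intro ε hε
  obtain ⟨δ, hδ, h⟩ := CON.main E D hS hD x y hx ε hε
  obtain ⟨n0, hn0⟩ := (Metric.tendsto_atTop.1 hf) δ hδ
  refine ⟨n0, fun n hn => ?_⟩
  rw [Real.dist_eq]
  apply h
  rw [← dist_eq_norm]
  exact hn0 n hn

/-- the first variation along a sequence -/
theorem lim (hS : Sm E) (hD : NF D) {x u v e : E} (hx : x ≠ 0) {al be s m : ℕ → ℝ} {A B c lam : ℝ}
    (hal : Tendsto al atTop (𝓝 0)) (hbe : Tendsto be atTop (𝓝 0)) (hs : Tendsto s atTop (𝓝 0))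
    (hm : ∀ n, m n ≠ 0)
    (hA : Tendsto (fun n => al n / m n) atTop (𝓝 A))
    (hB : Tendsto (fun n => be n / m n) atTop (𝓝 B))
    (hc : Tendsto (fun n => s n / m n) atTop (𝓝 c))
    (h : ∀ n, ‖x + (al n • u + be n • v)‖ = ‖x + (s n * lam) • e‖) :
    A * D x u + B * D x v = c * lam * D x e := by
  have hw : Tendsto (fun n => x + (al n • u + be n • v)) atTop (𝓝 x) := by
    have := (tendsto_const_nhds (x := x)).add ((hal.smul_const u).add (hbe.smul_const v))
    simpa using this
  have hw' : Tendsto (fun n => x + (s n * lam) • e) atTop (𝓝 x) := by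
    have := (tendsto_const_nhds (x := x)).add ((hs.mul_const lam).smul_const e)
    simpa using this
  have hf : Tendsto (fun n => |al n / m n * D x u + be n / m n * D x v
      - s n / m n * lam * D x e|) atTop (𝓝 |A * D x u + B * D x v - c * lam * D x e|) :=
    (((hA.mul_const _).add (hB.mul_const _)).sub ((hc.mul_const lam).mul_const _)).abs
  have hz : ∀ y : E, ∀ f : ℕ → E, Tendsto f atTop (𝓝 x) →
      Tendsto (fun n => D (f n) y - D x y) atTop (𝓝 0) := by
    intro y f hf
    have := (con hS hD y hx hf).sub_const (D x y)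
    simpa using this
  have hg : Tendsto (fun n =>
      |al n / m n * (D (x + (al n • u + be n • v)) u - D x u)
        + be n / m n * (D (x + (al n • u + be n • v)) v - D x v)|
      + |s n / m n * lam * (D (x + (s n * lam) • e) e - D x e)|) atTop (𝓝 0) := by
    have h1 := ((hA.mul (hz u _ hw)).add (hB.mul (hz v _ hw))).abs
    have h2 := ((hc.mul_const lam).mul (hz e _ hw')).abs
    have := h1.add h2
    simpa using this
  have hle : ∀ᶠ n in atTop, |al n / m n * D x u + be n / m n * D x v
      - s n / m n * lam * D x e| ≤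
      |al n / m n * (D (x + (al n • u + be n • v)) u - D x u)
        + be n / m n * (D (x + (al n • u + be n • v)) v - D x v)|
      + |s n / m n * lam * (D (x + (s n * lam) • e) e - D x e)| := by
    filter_upwards [hw.eventually_ne hx, hw'.eventually_ne hx] with n h1 h2
    have hk := key hD hx h1 h2 (h n)
    have hmn : 0 < |m n| := abs_pos.2 (hm n)
    have e1 : al n / m n * D x u + be n / m n * D x v - s n / m n * lam * D x e
        = (D x (al n • u + be n • v) - D x ((s n * lam) • e)) / m n := by
      simp only [map_add, map_smul, smul_eq_mul]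
      have := hm n
      field_simp
    have e2 : al n / m n * (D (x + (al n • u + be n • v)) u - D x u)
        + be n / m n * (D (x + (al n • u + be n • v)) v - D x v)
        = (D (x + (al n • u + be n • v)) (al n • u + be n • v) - D x (al n • u + be n • v))
          / m n := by
      simp only [map_add (D (x + (al n • u + be n • v))), map_add (D x), map_smul, smul_eq_mul]
      have := hm n
      field_simp
      ring
    have e3 : s n / m n * lam * (D (x + (s n * lam) • e) e - D x e)
        = (D (x + (s n * lam) • e) ((s n * lam) • e) - D x ((s n * lam) • e)) / m n := by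
      simp only [map_smul, smul_eq_mul]
      have := hm n
      field_simp
    rw [e1, e2, e3, abs_div, abs_div, abs_div, ← add_div]
    exact div_le_div_of_nonneg_right hk hmn.le
  have h0 : |A * D x u + B * D x v - c * lam * D x e| ≤ 0 := le_of_tendsto_of_tendsto hf hg hle
  have := abs_nonpos_iff.1 h0
  linarith

theorem main (hGRD : S_GRD) (hRIG : S_RIG) : S_EXP := by
  intro E _ _ D hS hD u v e l1 l2 hI hQ s p q r t hs0 hs hp hq hr ht hvia
  -- normalized vectors
  obtain ⟨V, hV⟩ : ∃ V : ℕ → Fin 5 → ℝ, V = fun n => ![p n - 1, q n, r n, t n - 1, s n] :=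
    ⟨_, rfl⟩
  have hVn : ∀ n, 0 < ‖V n‖ := by
    intro n
    apply norm_pos_iff.2
    intro h
    have := congrFun h 4
    rw [hV] at this
    exact hs0 n this
  obtain ⟨W, hW⟩ : ∃ W : ℕ → Fin 5 → ℝ, W = fun n => ‖V n‖⁻¹ • V n := ⟨_, rfl⟩
  have hWn : ∀ n, W n ∈ sphere (0 : Fin 5 → ℝ) 1 := by
    intro n
    rw [mem_sphere_zero_iff_norm, hW]
    simp only
    rw [norm_smul, norm_inv, norm_norm, inv_mul_cancel₀ (hVn n).ne']
  obtain ⟨a, ha, φ, hφ, hlim⟩ := (isCompact_sphere (0 : Fin 5 → ℝ) 1).tendsto_subseq hWn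
  rw [tendsto_pi_nhds] at hlim
  have hcomp : ∀ i, Tendsto (fun n => V (φ n) i / ‖V (φ n)‖) atTop (𝓝 (a i)) := by
    intro i
    have := hlim i
    refine this.congr fun n => ?_
    rw [hW]
    simp only [Function.comp, Pi.smul_apply, smul_eq_mul]
    rw [div_eq_inv_mul]
  have h0 : Tendsto (fun n => (p (φ n) - 1) / ‖V (φ n)‖) atTop (𝓝 (a 0)) := by
    have := hcomp 0; rw [hV] at this ⊢; exact this
  have h1 : Tendsto (fun n => q (φ n) / ‖V (φ n)‖) atTop (𝓝 (a 1)) := by
    have := hcomp 1; rw [hV] at this ⊢; exact this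
  have h2 : Tendsto (fun n => r (φ n) / ‖V (φ n)‖) atTop (𝓝 (a 2)) := by
    have := hcomp 2; rw [hV] at this ⊢; exact this
  have h3 : Tendsto (fun n => (t (φ n) - 1) / ‖V (φ n)‖) atTop (𝓝 (a 3)) := by
    have := hcomp 3; rw [hV] at this ⊢; exact this
  have h4 : Tendsto (fun n => s (φ n) / ‖V (φ n)‖) atTop (𝓝 (a 4)) := by
    have := hcomp 4; rw [hV] at this ⊢; exact this
  have hφt := hφ.tendsto_atTop
  -- the first variation
  have hvar : ∀ x y : ℝ, (x ≠ 0 ∨ y ≠ 0) →
      D (x • u + y • v) u * (a 0 * x + a 1 * y) + D (x • u + y • v) v * (a 2 * x + a 3 * y) =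
        a 4 * (l1 * x + l2 * y) * D (x • u + y • v) e := by
    intro x y hxy
    have hne : x • u + y • v ≠ 0 := by
      intro h
      obtain ⟨h1, h2⟩ := hI x y h
      rcases hxy with h | h
      · exact h h1
      · exact h h2
    have hp' : Tendsto (fun n => p (φ n) - 1) atTop (𝓝 0) := by
      have := (hp.comp hφt).sub_const 1; simpa using this
    have ht' : Tendsto (fun n => t (φ n) - 1) atTop (𝓝 0) := by
      have := (ht.comp hφt).sub_const 1; simpa using this
    have := lim (u := u) (v := v) (e := e) (x := x • u + y • v)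
      (al := fun n => (p (φ n) - 1) * x + q (φ n) * y)
      (be := fun n => r (φ n) * x + (t (φ n) - 1) * y)
      (s := fun n => s (φ n)) (m := fun n => ‖V (φ n)‖)
      (A := a 0 * x + a 1 * y) (B := a 2 * x + a 3 * y) (c := a 4) (lam := l1 * x + l2 * y)
      hS hD hne
      (by have := (hp'.mul_const x).add ((hq.comp hφt).mul_const y); simpa using this)
      (by have := ((hr.comp hφt).mul_const x).add (ht'.mul_const y); simpa using this)
      (hs.comp hφt) (fun n => (hVn _).ne')
      (by
        refine ((h0.mul_const x).add (h1.mul_const y)).congr fun n => ?_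
        ring)
      (by
        refine ((h2.mul_const x).add (h3.mul_const y)).congr fun n => ?_
        ring)
      h4
      (by
        intro n
        have := hvia (φ n) x y
        simp only [Nrm] at this
        have e1 : x • u + y • v + (((p (φ n) - 1) * x + q (φ n) * y) • u
            + (r (φ n) * x + (t (φ n) - 1) * y) • v)
            = (p (φ n) * x + q (φ n) * y) • u + (r (φ n) * x + t (φ n) * y) • v := by module
        have e2 : x • u + y • v + (s (φ n) * (l1 * x + l2 * y)) • e
            = x • (u + (s (φ n) * l1) • e) + y • (v + (s (φ n) * l2) • e) := by module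
        rw [e1, e2, this])
    linarith
  -- the last coordinate does not vanish
  have ha4 : a 4 ≠ 0 := by
    intro h
    have := hRIG (Nrm u v) _ _ (isNorm2 hI) (hGRD E D hS hD u v hI) (a 0) (a 1) (a 2) (a 3)
      (by
        intro x y hxy
        have := hvar x y hxy
        rw [h] at this
        simp only [zero_mul] at this
        exact this)
    rcases this with ⟨g0, g1, g2, g3⟩ | hq
    · have : a = 0 := by
        funext i
        fin_cases i
        · exact g0
        · exact g1
        · exact g2
        · exact g3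
        · exact h
      rw [this] at ha
      simp at ha
    · exact hQ hq
  refine ⟨φ, a 0 / a 4, a 1 / a 4, a 2 / a 4, a 3 / a 4, hφ, ?_, ?_, ?_, ?_, ?_⟩
  · refine (h0.div h4 ha4).congr fun n => ?_
    have := (hVn (φ n)).ne'
    simp only [Pi.div_apply]
    rw [div_div_div_cancel_right₀ this]
  · refine (h1.div h4 ha4).congr fun n => ?_
    have := (hVn (φ n)).ne'
    simp only [Pi.div_apply]
    rw [div_div_div_cancel_right₀ this]
  · refine (h2.div h4 ha4).congr fun n => ?_
    have := (hVn (φ n)).ne'
    simp only [Pi.div_apply]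
    rw [div_div_div_cancel_right₀ this]
  · refine (h3.div h4 ha4).congr fun n => ?_
    have := (hVn (φ n)).ne'
    simp only [Pi.div_apply]
    rw [div_div_div_cancel_right₀ this]
  · intro x y hxy
    have := hvar x y hxy
    field_simp
    linarith

end Pool.Agent.Lead.BR.T.EXP
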