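import Pool.Agent.Lead.BR.Stubs
import Pool.Agent.Lead.BR.Stubs2

set_option autoImplicit false

namespace Pool.Agent.Lead.BR.T.GRD

open TopologicalSpace Metric Filter Topology

variable {E : Type} [NormedAddCommGroup E] [NormedSpace ℝ E]

theorem le_norm {D : E → StrongDual ℝ E} (hD : NF D) {x : E} (hx : x ≠ 0) (w : E) :
    D x w ≤ ‖w‖ := by
  have h4 := (D x).le_opNorm w
  exact (le_abs_self _).trans (h4.trans (mul_le_of_le_one_left (norm_nonneg _) (hD x hx).1))

theorem sandwich {D : E → StrongDual ℝ E} (hD : NF D) {z w : E} (hz : z ≠ 0) (hzw : z + w ≠ 0) :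
    D z w ≤ ‖z + w‖ - ‖z‖ ∧ ‖z + w‖ - ‖z‖ ≤ D (z + w) w := by
  constructor
  · have h1 := le_norm hD hz (z + w)
    rw [map_add, (hD z hz).2] at h1
    linarith
  · have h1 := le_norm hD hzw z
    have h2 := (hD _ hzw).2
    rw [map_add] at h2
    linarith

/-- continuity of `D (p.1 u + p.2 v) y` -/
theorem cont_D (hCON : S_CON) {D : E → StrongDual ℝ E} (hSm : Sm E) (hD : NF D) {u v : E}
    (y : E) {a b : ℝ} (hz : a • u + b • v ≠ 0) :
    ContinuousAt (fun p : ℝ × ℝ => D (p.1 • u + p.2 • v) y) (a, b) := by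
  rw [Metric.continuousAt_iff]
  intro ε hε
  obtain ⟨δ, hδ, hδ'⟩ := hCON E D hSm hD (a • u + b • v) y hz ε hε
  have hc : ContinuousAt (fun p : ℝ × ℝ => p.1 • u + p.2 • v) (a, b) := by
    fun_prop
  obtain ⟨η, hη, hη'⟩ := Metric.continuousAt_iff.1 hc δ hδ
  refine ⟨η, hη, fun p hp => ?_⟩
  rw [Real.dist_eq]
  refine hδ' _ ?_
  rw [← dist_eq_norm]
  exact hη' hp

theorem main : S_CON → S_GRD := by
  intro hCON E _ _ D hSm hD u v hI a b hab
  have hz : a • u + b • v ≠ 0 := by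
    intro h
    obtain ⟨h1, h2⟩ := hI a b h
    rcases hab with h | h
    · exact h h1
    · exact h h2
  have hcu := cont_D hCON hSm hD (u := u) (v := v) u hz
  have hcv := cont_D hCON hSm hD (u := u) (v := v) v hz
  refine ⟨?_, hcu, hcv⟩
  rw [hasFDerivAt_iff_isLittleO_nhds_zero, Asymptotics.isLittleO_iff]
  intro c hc
  have e1 : ∀ᶠ h : ℝ × ℝ in 𝓝 0, |D ((a + h.1) • u + (b + h.2) • v) u -
      D (a • u + b • v) u| < c / 2 := by
    have hh : Tendsto (fun h : ℝ × ℝ => D ((a + h.1) • u + (b + h.2) • v) u) (𝓝 0)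
        (𝓝 (D (a • u + b • v) u)) := by
      have h1 : Tendsto (fun h : ℝ × ℝ => (a + h.1, b + h.2)) (𝓝 0) (𝓝 (a, b)) := by
        have : Continuous (fun h : ℝ × ℝ => (a + h.1, b + h.2)) := by fun_prop
        have h2 := this.tendsto 0
        simpa using h2
      exact hcu.tendsto.comp h1
    have := Metric.tendsto_nhds.1 hh (c / 2) (by positivity)
    simpa [Real.dist_eq] using this
  have e2 : ∀ᶠ h : ℝ × ℝ in 𝓝 0, |D ((a + h.1) • u + (b + h.2) • v) v -
      D (a • u + b • v) v| < c / 2 := by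
    have hh : Tendsto (fun h : ℝ × ℝ => D ((a + h.1) • u + (b + h.2) • v) v) (𝓝 0)
        (𝓝 (D (a • u + b • v) v)) := by
      have h1 : Tendsto (fun h : ℝ × ℝ => (a + h.1, b + h.2)) (𝓝 0) (𝓝 (a, b)) := by
        have : Continuous (fun h : ℝ × ℝ => (a + h.1, b + h.2)) := by fun_prop
        have h2 := this.tendsto 0
        simpa using h2
      exact hcv.tendsto.comp h1
    have := Metric.tendsto_nhds.1 hh (c / 2) (by positivity)
    simpa [Real.dist_eq] using this
  have e3 : ∀ᶠ h : ℝ × ℝ in 𝓝 0, (a + h.1) • u + (b + h.2) • v ≠ 0 := by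
    have hcont : Continuous (fun h : ℝ × ℝ => (a + h.1) • u + (b + h.2) • v) := by fun_prop
    refine hcont.continuousAt.eventually_ne ?_
    simpa using hz
  filter_upwards [e1, e2, e3] with h h1 h2 h3
  obtain ⟨w, hw⟩ : ∃ w : E, w = h.1 • u + h.2 • v := ⟨_, rfl⟩
  have hzw : (a + h.1) • u + (b + h.2) • v = (a • u + b • v) + w := by rw [hw]; module
  rw [hzw] at h1 h2 h3
  obtain ⟨s1, s2⟩ := sandwich hD hz h3
  have hl1 : ∀ z : E, D z w = D z u * h.1 + D z v * h.2 := by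
    intro z
    rw [hw, map_add, map_smul, map_smul, smul_eq_mul, smul_eq_mul]; ring
  show ‖‖(((a, b) : ℝ × ℝ) + h).1 • u + (((a, b) : ℝ × ℝ) + h).2 • v‖ - ‖a • u + b • v‖ -
    (D (a • u + b • v) u * h.1 + D (a • u + b • v) v * h.2)‖ ≤ c * ‖h‖
  have hfs : (((a, b) : ℝ × ℝ) + h).1 • u + (((a, b) : ℝ × ℝ) + h).2 • v =
      (a • u + b • v) + w := by rw [← hzw]; rfl
  rw [hfs, ← hl1, Real.norm_eq_abs]
  have hh1 : |h.1| ≤ ‖h‖ := by
    have := norm_fst_le h; simpa using this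
  have hh2 : |h.2| ≤ ‖h‖ := by
    have := norm_snd_le h; simpa using this
  have h5 : D ((a • u + b • v) + w) w - D (a • u + b • v) w ≤ c * ‖h‖ := by
    rw [hl1, hl1]
    have q1 : (D ((a • u + b • v) + w) u - D (a • u + b • v) u) * h.1 ≤ c / 2 * ‖h‖ := by
      refine (le_abs_self _).trans ?_
      rw [abs_mul]
      exact mul_le_mul h1.le hh1 (abs_nonneg _) (by positivity)
    have q2 : (D ((a • u + b • v) + w) v - D (a • u + b • v) v) * h.2 ≤ c / 2 * ‖h‖ := by
      refine (le_abs_self _).trans ?_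
      rw [abs_mul]
      exact mul_le_mul h2.le hh2 (abs_nonneg _) (by positivity)
    linarith
  rw [abs_le]
  have : 0 ≤ c * ‖h‖ := by positivity
  constructor <;> linarith

end Pool.Agent.Lead.BR.T.GRD
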