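import Pool.Agent.Lead.BR.T.Mat

/-! BR2-NID: coordinates near the identity. -/

set_option autoImplicit false

namespace Pool.Agent.Lead.BR.T.NID

open TopologicalSpace Metric Filter Topology Pool.Agent.Lead.BR

theorem main : S_NID := by
  intro E _ _ u v r hI hr hloc ε hε
  by_contra hcon
  push Not at hcon
  have hN : IsNorm2 (Nrm u v) := Mat.isNorm2 hI
  have hδ : ∀ n : ℕ, 0 < min r (1 / ((n : ℝ) + 1)) := fun n => lt_min hr (by positivity)
  have h0 : ∀ n : ℕ, ∃ u' v' : E, ‖u' - u‖ < min r (1 / ((n : ℝ) + 1)) ∧ ‖v' - v‖ < min r (1 / ((n : ℝ) + 1)) ∧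
      ∀ p q r' s : ℝ, |p - 1| < ε → |q| < ε → |r'| < ε → |s - 1| < ε → ¬ Via (Nrm u v) (Nrm u' v') p q r' s := by
    intro n
    obtain ⟨u', v', h1, h2, h3⟩ := hcon _ (hδ n)
    exact ⟨u', v', h1, h2, h3⟩
  choose u' v' h1 h2 h3 using h0
  have lu : Tendsto u' atTop (𝓝 u) := by
    rw [tendsto_iff_norm_sub_tendsto_zero]
    exact squeeze_zero (fun n => norm_nonneg _) (fun n => (h1 n).le.trans (min_le_right _ _))
      tendsto_one_div_add_atTop_nhds_zero_nat
  have lv : Tendsto v' atTop (𝓝 v) := by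
    rw [tendsto_iff_norm_sub_tendsto_zero]
    exact squeeze_zero (fun n => norm_nonneg _) (fun n => (h2 n).le.trans (min_le_right _ _))
      tendsto_one_div_add_atTop_nhds_zero_nat
  have h4 : ∀ n : ℕ, HasType (Nrm u v) (u' n) (v' n) := fun n =>
    hloc _ _ ((h1 n).trans_le (min_le_left _ _)) ((h2 n).trans_le (min_le_left _ _))
  choose p q r' s h5 using h4
  obtain ⟨φ, P, Q, R, S, hφ, l1, l2, l3, l4, h6⟩ := Mat.subseq hN lu lv h5
  have hd : P * S - Q * R ≠ 0 := Mat.det_ne h6 hN.2.1 (Mat.zero hN)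
  have hi := Mat.inv h6 hd
  have h7 : ∀ n, Via (Nrm u v) (Nrm (u' (φ n)) (v' (φ n))) _ _ _ _ := fun n => Mat.comp hi (h5 (φ n))
  set D := P * S - Q * R with hD
  have m1 : Tendsto (fun n => S / D * p (φ n) + -Q / D * r' (φ n)) atTop (𝓝 1) := by
    have := (l1.const_mul (S / D)).add (l3.const_mul (-Q / D))
    have e : S / D * P + -Q / D * R = 1 := by
      have : S / D * P + -Q / D * R = D / D := by rw [hD]; ring
      rw [this, div_self hd]
    rwa [e] at this
  have m2 : Tendsto (fun n => S / D * q (φ n) + -Q / D * s (φ n)) atTop (𝓝 0) := by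
    have := (l2.const_mul (S / D)).add (l4.const_mul (-Q / D))
    have e : S / D * Q + -Q / D * S = 0 := by ring
    rwa [e] at this
  have m3 : Tendsto (fun n => -R / D * p (φ n) + P / D * r' (φ n)) atTop (𝓝 0) := by
    have := (l1.const_mul (-R / D)).add (l3.const_mul (P / D))
    have e : -R / D * P + P / D * R = 0 := by ring
    rwa [e] at this
  have m4 : Tendsto (fun n => -R / D * q (φ n) + P / D * s (φ n)) atTop (𝓝 1) := by
    have := (l2.const_mul (-R / D)).add (l4.const_mul (P / D))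
    have e : -R / D * Q + P / D * S = 1 := by
      have : -R / D * Q + P / D * S = D / D := by rw [hD]; ring
      rw [this, div_self hd]
    rwa [e] at this
  have n1 := (Metric.tendsto_nhds.1 m1) ε hε
  have n2 := (Metric.tendsto_nhds.1 m2) ε hε
  have n3 := (Metric.tendsto_nhds.1 m3) ε hε
  have n4 := (Metric.tendsto_nhds.1 m4) ε hε
  obtain ⟨n, k1, k2, k3, k4⟩ := (n1.and (n2.and (n3.and n4))).exists
  rw [Real.dist_eq] at k1 k2 k3 k4
  rw [sub_zero] at k2 k3
  exact h3 (φ n) _ _ _ _ k1 k2 k3 k4 (h7 n)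

end Pool.Agent.Lead.BR.T.NID
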