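import Pool.Agent.Lead.BR.Stubs
import Pool.Agent.Lead.BR.Stubs2

/-!
# Integration along a segment of the first coordinate vector of a family of planes

Proof of `S_PATH` of the project BR.
-/

set_option autoImplicit false

namespace Pool.Agent.Lead.BR.T.PATH

open Pool.Agent.Lead.BR TopologicalSpace Metric Filter Topology

theorem via_comp {N N' N'' : ℝ → ℝ → ℝ} {p q r s p' q' r' s' : ℝ} (h : Via N N' p q r s)
    (h' : Via N' N'' p' q' r' s') :
    Via N N'' (p * p' + q * r') (p * q' + q * s') (r * p' + s * r') (r * q' + s * s') := by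
  intro a b
  rw [h' a b, h]
  congr 1 <;> ring

theorem via_det {N N' : ℝ → ℝ → ℝ} (h0 : N 0 0 = 0) (hN' : ∀ a b, N' a b = 0 → a = 0 ∧ b = 0)
    {p q r s : ℝ} (h : Via N N' p q r s) : p * s - q * r ≠ 0 := by
  intro hd
  have h1 := h s (-r)
  rw [show p * s + q * (-r) = 0 by linarith, show r * s + s * (-r) = 0 by ring, h0] at h1
  obtain ⟨hs, hr⟩ := hN' _ _ h1
  have h2 := h (-q) p
  rw [show p * (-q) + q * p = 0 by ring, show r * (-q) + s * p = 0 by linarith, h0] at h2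
  obtain ⟨hq, hp⟩ := hN' _ _ h2
  have h3 := h 1 0
  rw [hp, show q = 0 by linarith, hs, show r = 0 by linarith] at h3
  simp only [zero_mul, add_zero] at h3
  rw [h0] at h3
  have := (hN' _ _ h3).1
  norm_num at this

theorem via_inv {N N' : ℝ → ℝ → ℝ} {p q r s : ℝ} (hd : p * s - q * r ≠ 0)
    (h : Via N N' p q r s) :
    Via N' N (s / (p * s - q * r)) (-q / (p * s - q * r)) (-r / (p * s - q * r))
      (p / (p * s - q * r)) := by
  intro a b
  rw [h]
  congr 1
  · symm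
    calc p * (s / (p * s - q * r) * a + -q / (p * s - q * r) * b) +
          q * (-r / (p * s - q * r) * a + p / (p * s - q * r) * b) =
          (p * s - q * r) * a / (p * s - q * r) := by ring
      _ = a := mul_div_cancel_left₀ _ hd
  · symm
    calc r * (s / (p * s - q * r) * a + -q / (p * s - q * r) * b) +
          s * (-r / (p * s - q * r) * a + p / (p * s - q * r) * b) =
          (p * s - q * r) * b / (p * s - q * r) := by ring
      _ = b := mul_div_cancel_left₀ _ hd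

variable {E : Type} [NormedAddCommGroup E] [NormedSpace ℝ E]

theorem nrm_add (u v : E) (a b c d : ℝ) : Nrm u v (a + c) (b + d) ≤ Nrm u v a b + Nrm u v c d := by
  unfold Nrm
  have h : (a + c) • u + (b + d) • v = (a • u + b • v) + (c • u + d • v) := by
    rw [add_smul, add_smul]
    abel
  rw [h]
  exact norm_add_le _ _

theorem nrm_neg (u v : E) (a b : ℝ) : Nrm u v (-a) (-b) = Nrm u v a b := by
  unfold Nrm
  have h : (-a) • u + (-b) • v = -(a • u + b • v) := by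
    rw [neg_smul, neg_smul]
    abel
  rw [h, norm_neg]

theorem nrm_zero (u v : E) : Nrm u v 0 0 = 0 := by
  unfold Nrm
  simp

/-- the set of the deviations of the first coordinate vector -/
def G (x y0 y1 : E) : Set ℝ :=
  {g | ∃ p q r t : ℝ, Via (Nrm x y0) (Nrm x y1) p q r t ∧ g = Nrm x y0 (p - 1) r}

theorem G_bdd (x y0 y1 : E) : BddBelow (G x y0 y1) := by
  refine ⟨0, ?_⟩
  rintro g ⟨p, q, r, t, -, rfl⟩
  exact norm_nonneg _

theorem G_nonneg (x y0 y1 : E) : 0 ≤ sInf (G x y0 y1) := by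
  refine Real.sInf_nonneg ?_
  rintro g ⟨p, q, r, t, -, rfl⟩
  exact norm_nonneg _

theorem step_le (x y0 y1 y2 : E) (h1 : HasType (Nrm x y0) x y1) {p q r t : ℝ}
    (h : Via (Nrm x y1) (Nrm x y2) p q r t) :
    sInf (G x y0 y2) ≤ sInf (G x y0 y1) + Nrm x y1 (p - 1) r := by
  rw [← sub_le_iff_le_add]
  refine le_csInf ?_ ?_
  · obtain ⟨a, b, c, d, hv⟩ := h1
    exact ⟨_, a, b, c, d, hv, rfl⟩
  · rintro g ⟨p0, q0, r0, t0, hv, rfl⟩
    rw [sub_le_iff_le_add]
    refine (csInf_le (G_bdd x y0 y2) ⟨_, _, _, _, via_comp hv h, rfl⟩).trans ?_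
    rw [hv (p - 1) r]
    refine le_trans (le_of_eq ?_) (nrm_add x y0 (p0 - 1) r0 _ _)
    congr 1 <;> ring

theorem step (x y0 y1 y2 : E) (h1 : HasType (Nrm x y0) x y1) (h2 : HasType (Nrm x y0) x y2)
    (hi : Ind x y2) {p q r t : ℝ} (h : Via (Nrm x y1) (Nrm x y2) p q r t) :
    |sInf (G x y0 y2) - sInf (G x y0 y1)| ≤ Nrm x y1 (p - 1) r := by
  have hd := via_det (nrm_zero x y1) (fun a b hab => hi a b (norm_eq_zero.1 hab)) h
  have ha := step_le x y0 y1 y2 h1 h
  have hb := step_le x y0 y2 y1 h2 (via_inv hd h)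
  have hc : Nrm x y2 (t / (p * t - q * r) - 1) (-r / (p * t - q * r)) = Nrm x y1 (p - 1) r := by
    rw [h, ← nrm_neg x y1]
    congr 1
    · field_simp
      ring
    · field_simp
      ring
  rw [hc] at hb
  rw [abs_le]
  constructor <;> linarith

theorem G_self (x y0 : E) : sInf (G x y0 y0) = 0 := by
  refine le_antisymm (csInf_le (G_bdd x y0 y0) ⟨1, 0, 0, 1, ?_, ?_⟩) (G_nonneg x y0 y0)
  · intro a b
    simp
  · rw [sub_self, nrm_zero]

/-- the deviation vanishes along the segment -/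
theorem dev_zero (x y0 : E) (ρ : ℝ)
    (H : ∀ y1 : E, ‖y1 - y0‖ < ρ → Ind x y1 ∧ HasType (Nrm x y0) x y1 ∧
      ∀ (e : E) (ε : ℝ), 0 < ε → ∃ δ : ℝ, 0 < δ ∧ ∀ s : ℝ, |s| < δ →
        ∃ p q r' t : ℝ, Via (Nrm x y1) (Nrm x (y1 + s • e)) p q r' t ∧
          |p - 1| ≤ ε * |s| ∧ |r'| ≤ ε * |s|)
    (y' : E) (hy' : ‖y' - y0‖ < ρ) : sInf (G x y0 y') = 0 := by
  set e : E := y' - y0 with he
  set g : ℝ → ℝ := fun s => sInf (G x y0 (y0 + s • e)) with hg
  have hder : ∀ s0 : ℝ, s0 ∈ Set.Icc (0 : ℝ) 1 → HasDerivAt g 0 s0 := by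
    intro s0 hs0
    rw [hasDerivAt_iff_isLittleO, Asymptotics.isLittleO_iff]
    intro c hc
    have hs0' : ‖(y0 + s0 • e) - y0‖ < ρ := by
      rw [add_sub_cancel_left, norm_smul, Real.norm_eq_abs, abs_of_nonneg hs0.1]
      calc s0 * ‖e‖ ≤ 1 * ‖e‖ := by gcongr; exact hs0.2
        _ < ρ := by rw [one_mul]; exact hy'
    obtain ⟨hi0, ht0, hloc⟩ := H _ hs0'
    set K : ℝ := ‖x‖ + ‖y0 + s0 • e‖ + 1 with hK
    have hKpos : 0 < K := by positivity
    obtain ⟨δ, hδ, hv⟩ := hloc e (c / K) (by positivity)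
    have hcont : Continuous fun s : ℝ => ‖(y0 + s • e) - y0‖ := by fun_prop
    have hev : ∀ᶠ s in 𝓝 s0, ‖(y0 + s • e) - y0‖ < ρ :=
      hcont.continuousAt.eventually_lt continuousAt_const hs0'
    have hev2 : ∀ᶠ s in 𝓝 s0, |s - s0| < δ := by
      have := Metric.ball_mem_nhds s0 hδ
      filter_upwards [this] with s hs
      rwa [mem_ball, Real.dist_eq] at hs
    filter_upwards [hev, hev2] with s hs1 hs2
    obtain ⟨hi, ht, -⟩ := H _ hs1
    obtain ⟨p, q, r', t, hvia, hp, hr⟩ := hv (s - s0) hs2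
    have hpt : y0 + s0 • e + (s - s0) • e = y0 + s • e := by
      rw [sub_smul]
      abel
    rw [hpt] at hvia
    have hst := step x y0 _ _ ht0 ht hi hvia
    rw [smul_zero, sub_zero, Real.norm_eq_abs, Real.norm_eq_abs]
    refine hst.trans ?_
    unfold Nrm
    calc ‖(p - 1) • x + r' • (y0 + s0 • e)‖ ≤ ‖(p - 1) • x‖ + ‖r' • (y0 + s0 • e)‖ :=
          norm_add_le _ _
      _ = |p - 1| * ‖x‖ + |r'| * ‖y0 + s0 • e‖ := by
          rw [norm_smul, norm_smul, Real.norm_eq_abs, Real.norm_eq_abs]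
      _ ≤ (c / K * |s - s0|) * ‖x‖ + (c / K * |s - s0|) * ‖y0 + s0 • e‖ := by gcongr
      _ = c * |s - s0| * ((‖x‖ + ‖y0 + s0 • e‖) / K) := by
          field_simp
      _ ≤ c * |s - s0| * 1 := by
          gcongr
          rw [div_le_one hKpos, hK]
          linarith
      _ = c * |s - s0| := mul_one _
  have hconst := constant_of_has_deriv_right_zero (f := g) (a := 0) (b := 1)
    (fun s hs => (hder s hs).continuousAt.continuousWithinAt)
    (fun s hs => (hder s ⟨hs.1, hs.2.le⟩).hasDerivWithinAt)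
    1 ⟨zero_le_one, le_rfl⟩
  simp only [hg, one_smul, zero_smul, add_zero] at hconst
  rw [show y0 + e = y' by rw [he]; abel] at hconst
  rw [hconst, G_self]

/-- coordinates are bounded by the norm -/
theorem ind_bound {x y : E} (h : Ind x y) :
    ∃ K : ℝ, 0 < K ∧ ∀ a b : ℝ, |a| ≤ K * Nrm x y a b ∧ |b| ≤ K * Nrm x y a b := by
  let f : ℝ × ℝ →ₗ[ℝ] E :=
    (LinearMap.fst ℝ ℝ ℝ).smulRight x + (LinearMap.snd ℝ ℝ ℝ).smulRight y
  have hf : ∀ p : ℝ × ℝ, f p = p.1 • x + p.2 • y := fun p => by simp [f]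
  have hker : LinearMap.ker f = ⊥ := by
    rw [LinearMap.ker_eq_bot']
    intro p hp
    rw [hf] at hp
    obtain ⟨h1, h2⟩ := h _ _ hp
    exact Prod.ext h1 h2
  obtain ⟨K, hK, hKl⟩ := LinearMap.exists_antilipschitzWith f hker
  refine ⟨K, hK, fun a b => ?_⟩
  have h1 := hKl.le_mul_dist (a, b) (0, 0)
  rw [show ((0 : ℝ), (0 : ℝ)) = 0 from rfl, dist_zero_right, map_zero, dist_zero_right, hf] at h1
  have ha : ‖a‖ ≤ ‖((a, b) : ℝ × ℝ)‖ := norm_fst_le (a, b)
  have hb : ‖b‖ ≤ ‖((a, b) : ℝ × ℝ)‖ := norm_snd_le (a, b)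
  rw [Real.norm_eq_abs] at ha hb
  exact ⟨ha.trans h1, hb.trans h1⟩

theorem main : S_PATH := by
  intro E _ _ x y0 ρ hρ H y' hy'
  have hz := dev_zero x y0 ρ H y' hy'
  obtain ⟨hi0, -, -⟩ := H y0 (by simpa using hρ)
  obtain ⟨-, ht', -⟩ := H y' hy'
  obtain ⟨K, hK, hb⟩ := ind_bound hi0
  have hne : (G x y0 y').Nonempty := by
    obtain ⟨a, b, c, d, hv⟩ := ht'
    exact ⟨_, a, b, c, d, hv, rfl⟩
  have hseq : ∀ n : ℕ, ∃ p q r t : ℝ, Via (Nrm x y0) (Nrm x y') p q r t ∧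
      Nrm x y0 (p - 1) r < 1 / ((n : ℝ) + 1) := by
    intro n
    have hpos : (0 : ℝ) < 1 / ((n : ℝ) + 1) := by positivity
    obtain ⟨g, ⟨p, q, r, t, hv, rfl⟩, hlt⟩ := exists_lt_of_csInf_lt hne (hz ▸ hpos)
    exact ⟨p, q, r, t, hv, hlt⟩
  choose p q r t hv hlt using hseq
  have hqt : ∀ n, ((q n, t n) : ℝ × ℝ) ∈ closedBall (0 : ℝ × ℝ) (K * ‖y'‖) := by
    intro n
    have h1 := hv n 0 1
    rw [mul_zero, zero_add, mul_one, mul_zero, zero_add, mul_one] at h1
    have h2 : Nrm x y' 0 1 = ‖y'‖ := by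
      unfold Nrm
      simp
    have h3 := hb (q n) (t n)
    rw [← h1, h2] at h3
    rw [mem_closedBall_zero_iff, Prod.norm_def, Real.norm_eq_abs, Real.norm_eq_abs]
    exact max_le h3.1 h3.2
  obtain ⟨⟨q', t'⟩, -, φ, hφ, hlim⟩ := (isCompact_closedBall (0 : ℝ × ℝ) (K * ‖y'‖)).tendsto_subseq hqt
  have hlq : Tendsto (fun n => q (φ n)) atTop (𝓝 q') := (continuous_fst.tendsto _).comp hlim
  have hlt' : Tendsto (fun n => t (φ n)) atTop (𝓝 t') := (continuous_snd.tendsto _).comp hlim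
  have hone : Tendsto (fun n : ℕ => K * (1 / ((n : ℝ) + 1))) atTop (𝓝 0) := by
    have := tendsto_one_div_add_atTop_nhds_zero_nat (𝕜 := ℝ)
    simpa using this.const_mul K
  have hlp0 : Tendsto (fun n => p n - 1) atTop (𝓝 0) := by
    refine squeeze_zero_norm (fun n => ?_) hone
    rw [Real.norm_eq_abs]
    exact (hb _ _).1.trans (mul_le_mul_of_nonneg_left (hlt n).le hK.le)
  have hlr0 : Tendsto r atTop (𝓝 0) := by
    refine squeeze_zero_norm (fun n => ?_) hone
    rw [Real.norm_eq_abs]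
    exact (hb _ _).2.trans (mul_le_mul_of_nonneg_left (hlt n).le hK.le)
  have hlp : Tendsto (fun n => p (φ n)) atTop (𝓝 1) := by
    have h1 := (hlp0.add_const 1).comp hφ.tendsto_atTop
    simpa [Function.comp_def] using h1
  have hlr : Tendsto (fun n => r (φ n)) atTop (𝓝 0) := hlr0.comp hφ.tendsto_atTop
  refine ⟨q', t', fun a b => ?_⟩
  have h1 : Tendsto (fun n => Nrm x y0 (p (φ n) * a + q (φ n) * b) (r (φ n) * a + t (φ n) * b))
      atTop (𝓝 (Nrm x y0 (1 * a + q' * b) (0 * a + t' * b))) := by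
    unfold Nrm
    refine Tendsto.norm (Tendsto.add (Tendsto.smul_const ?_ x) (Tendsto.smul_const ?_ y0))
    · exact (hlp.mul_const a).add (hlq.mul_const b)
    · exact (hlr.mul_const a).add (hlt'.mul_const b)
  have h2 : (fun n => Nrm x y0 (p (φ n) * a + q (φ n) * b) (r (φ n) * a + t (φ n) * b)) =
      fun _ => Nrm x y' a b := by
    funext n
    exact (hv (φ n) a b).symm
  rw [h2] at h1
  exact tendsto_nhds_unique tendsto_const_nhds h1

end Pool.Agent.Lead.BR.T.PATH
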