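import Pool.Agent.Lead.BR.T.Mat

/-! BR2-QIN: Euclidean type is invariant, types compose. -/

set_option autoImplicit false

namespace Pool.Agent.Lead.BR.T.QIN

open TopologicalSpace Metric Filter Topology Pool.Agent.Lead.BR

/-- being Euclidean does not depend on the coordinates -/
theorem quad_via {N1 N2 : ℝ → ℝ → ℝ} {p q r s : ℝ} (h : Via N1 N2 p q r s) (hq : Quad N1) : Quad N2 := by
  obtain ⟨A, B, C, hABC⟩ := hq
  refine ⟨A * p ^ 2 + 2 * B * p * r + C * r ^ 2, A * p * q + B * (p * s + q * r) + C * r * s,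
    A * q ^ 2 + 2 * B * q * s + C * s ^ 2, fun u v => ?_⟩
  rw [h u v, hABC]
  ring

theorem main : S_QIN := by
  intro E _ _ N hN x y hxy hT
  obtain ⟨p, q, r, s, h⟩ := hT
  have hd := Mat.det_ne h (fun a b hab => hxy a b (norm_eq_zero.1 hab)) (Mat.zero hN)
  have hi := Mat.inv h hd
  refine ⟨fun hq => quad_via hi hq, ?_⟩
  rintro u v ⟨p', q', r', s', h'⟩
  exact ⟨_, _, _, _, Mat.comp hi h'⟩

end Pool.Agent.Lead.BR.T.QIN
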