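import Pool.Agent.Lead.BR.Stubs2

set_option autoImplicit false

namespace Pool.Agent.Lead.BR.T.RIG

open TopologicalSpace Metric Filter Topology Pool.Agent.Lead.BR

theorem curve {N g1 g2 : ℝ → ℝ → ℝ} (hg : Grad N g1 g2) {a11 a12 a21 a22 : ℝ}
    (h : ∀ a b : ℝ, (a ≠ 0 ∨ b ≠ 0) →
      g1 a b * (a11 * a + a12 * b) + g2 a b * (a21 * a + a22 * b) = 0)
    (x y : ℝ → ℝ) (hx : ∀ t, HasDerivAt x (a11 * x t + a12 * y t) t)
    (hy : ∀ t, HasDerivAt y (a21 * x t + a22 * y t) t) (hne : ∀ t, x t ≠ 0 ∨ y t ≠ 0) :
    ∀ t, N (x t) (y t) = N (x 0) (y 0) := by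
  have hd : ∀ t, HasDerivAt (fun t => N (x t) (y t)) 0 t := by
    intro t
    have h1 := (hg (x t) (y t) (hne t)).1
    have h2 : HasDerivAt (fun t => (x t, y t)) (a11 * x t + a12 * y t, a21 * x t + a22 * y t) t :=
      (hx t).prodMk (hy t)
    have h3 := HasFDerivAt.comp_hasDerivAt t h1 h2
    have h4 : ((g1 (x t) (y t) • ContinuousLinearMap.fst ℝ ℝ ℝ +
        g2 (x t) (y t) • ContinuousLinearMap.snd ℝ ℝ ℝ :  ℝ × ℝ →L[ℝ] ℝ))
        (a11 * x t + a12 * y t, a21 * x t + a22 * y t) = 0 := by
      have := h (x t) (y t) (hne t)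
      simpa using this
    rw [h4] at h3
    exact h3
  intro t
  exact is_const_of_deriv_eq_zero (fun t => (hd t).differentiableAt) (fun t => (hd t).deriv) t 0

theorem euler {N g1 g2 : ℝ → ℝ → ℝ} (hN : IsNorm2 N) (hg : Grad N g1 g2) (a b : ℝ)
    (hab : a ≠ 0 ∨ b ≠ 0) : g1 a b * a + g2 a b * b = N a b := by
  have h1 := (hg a b hab).1
  have h2 : HasDerivAt (fun t : ℝ => (t * a, t * b)) (1 * a, 1 * b) 1 :=
    ((hasDerivAt_id (1 : ℝ)).mul_const a).prodMk ((hasDerivAt_id (1 : ℝ)).mul_const b)
  have h3 : HasDerivAt (fun t : ℝ => N (t * a) (t * b))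
      ((g1 a b • ContinuousLinearMap.fst ℝ ℝ ℝ +
        g2 a b • ContinuousLinearMap.snd ℝ ℝ ℝ :  ℝ × ℝ →L[ℝ] ℝ) (1 * a, 1 * b)) 1 := by
    have h1' : HasFDerivAt (fun p : ℝ × ℝ => N p.1 p.2)
      (g1 a b • ContinuousLinearMap.fst ℝ ℝ ℝ + g2 a b • ContinuousLinearMap.snd ℝ ℝ ℝ)
        ((1 : ℝ) * a, (1 : ℝ) * b) := by
      simpa using h1
    exact HasFDerivAt.comp_hasDerivAt (1 : ℝ) h1' h2
  have h4 : HasDerivAt (fun t : ℝ => N (t * a) (t * b)) (N a b) 1 := by
    have h5 : HasDerivAt (fun t : ℝ => t * N a b) (1 * N a b) 1 :=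
      (hasDerivAt_id (1 : ℝ)).mul_const _
    rw [one_mul] at h5
    refine h5.congr_of_eventuallyEq ?_
    filter_upwards [lt_mem_nhds (show (0 : ℝ) < 1 by norm_num)] with t ht
    rw [hN.2.2.1 t a b, abs_of_pos ht]
  have h6 := h3.unique h4
  simpa using h6

theorem eig {N g1 g2 : ℝ → ℝ → ℝ} (hN : IsNorm2 N) (hg : Grad N g1 g2) {a11 a12 a21 a22 : ℝ}
    (h : ∀ a b : ℝ, (a ≠ 0 ∨ b ≠ 0) →
      g1 a b * (a11 * a + a12 * b) + g2 a b * (a21 * a + a22 * b) = 0) (l : ℝ)
    (hl : (a11 - l) * (a22 - l) - a12 * a21 = 0) : l = 0 := by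
  obtain ⟨x, y, hxy, h1, h2⟩ : ∃ x y : ℝ, (x ≠ 0 ∨ y ≠ 0) ∧ a11 * x + a12 * y = l * x ∧
      a21 * x + a22 * y = l * y := by
    by_cases h1 : a12 = 0 ∧ a11 - l = 0
    · by_cases h2 : a21 = 0 ∧ a22 - l = 0
      · refine ⟨1, 0, Or.inl one_ne_zero, ?_, ?_⟩
        · linarith [h1.2]
        · rw [h2.1]; ring
      · refine ⟨a22 - l, -a21, ?_, ?_, ?_⟩
        · by_contra h3
          push Not at h3
          exact h2 ⟨by linarith [h3.2], h3.1⟩
        · rw [h1.1]; linear_combination (a22 - l) * h1.2
        · ring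
    · refine ⟨a12, l - a11, ?_, ?_, ?_⟩
      · by_contra h3
        push Not at h3
        exact h1 ⟨h3.1, by linarith [h3.2]⟩
      · ring
      · linear_combination (-1) * hl
  have h3 := h x y hxy
  rw [h1, h2] at h3
  have h4 := euler hN hg x y hxy
  have h5 : l * N x y = 0 := by
    rw [← h4]; linear_combination h3
  rcases mul_eq_zero.1 h5 with h6 | h6
  · exact h6
  · have := hN.2.1 x y h6
    rcases hxy with h7 | h7
    · exact absurd this.1 h7
    · exact absurd this.2 h7

theorem nilp {N g1 g2 : ℝ → ℝ → ℝ} (hN : IsNorm2 N) (hg : Grad N g1 g2) {a11 a12 a21 a22 : ℝ}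
    (h : ∀ a b : ℝ, (a ≠ 0 ∨ b ≠ 0) →
      g1 a b * (a11 * a + a12 * b) + g2 a b * (a21 * a + a22 * b) = 0)
    (h1 : a11 * a11 + a12 * a21 = 0) (h2 : a22 = - a11) (p q : ℝ) :
    a11 * p + a12 * q = 0 ∧ a21 * p + a22 * q = 0 := by
  by_contra hc
  set P := a11 * p + a12 * q with hP
  set Q := a21 * p + a22 * q with hQ
  have e1 : a11 * P + a12 * Q = 0 := by
    rw [hP, hQ, h2]; linear_combination p * h1
  have e2 : a21 * P + a22 * Q = 0 := by
    rw [hP, hQ, h2]; linear_combination q * h1
  have hne : ∀ t : ℝ, p + t * P ≠ 0 ∨ q + t * Q ≠ 0 := by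
    intro t
    by_contra h3
    push Not at h3
    apply hc
    constructor
    · rw [hP]; linear_combination a11 * h3.1 + a12 * h3.2 - t * e1
    · rw [hQ]; linear_combination a21 * h3.1 + a22 * h3.2 - t * e2
  have hx : ∀ t : ℝ, HasDerivAt (fun t => p + t * P)
      (a11 * (p + t * P) + a12 * (q + t * Q)) t := by
    intro t
    have h5 : HasDerivAt (fun t : ℝ => p + t * P) (1 * P) t :=
      ((hasDerivAt_id t).mul_const P).const_add p
    have h6 : (1 : ℝ) * P = a11 * (p + t * P) + a12 * (q + t * Q) := by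
      linear_combination (-t) * e1 + hP
    rwa [h6] at h5
  have hy : ∀ t : ℝ, HasDerivAt (fun t => q + t * Q)
      (a21 * (p + t * P) + a22 * (q + t * Q)) t := by
    intro t
    have h5 : HasDerivAt (fun t : ℝ => q + t * Q) (1 * Q) t :=
      ((hasDerivAt_id t).mul_const Q).const_add q
    have h6 : (1 : ℝ) * Q = a21 * (p + t * P) + a22 * (q + t * Q) := by
      linear_combination (-t) * e2 + hQ
    rwa [h6] at h5
  have h7 := curve hg h (fun t => p + t * P) (fun t => q + t * Q) hx hy hne
  have h8 : ∀ t : ℝ, 0 ≤ t → t * N P Q ≤ 2 * N p q := by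
    intro t ht
    have h9 := h7 t
    simp only [zero_mul, add_zero] at h9
    have h10 := hN.2.2.2 (p + t * P) (q + t * Q) (-1 * p) (-1 * q)
    rw [hN.2.2.1 (-1) p q] at h10
    have h11 := hN.2.2.1 t P Q
    rw [abs_of_nonneg ht] at h11
    have h12 : p + t * P + -1 * p = t * P := by ring
    have h13 : q + t * Q + -1 * q = t * Q := by ring
    rw [h12, h13, h11, h9] at h10
    norm_num at h10
    linarith
  have h9 : 0 < N P Q := by
    refine lt_of_le_of_ne (hN.1 P Q) (fun h => hc ?_)
    exact hN.2.1 P Q h.symm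
  have h10 := h8 ((2 * N p q + 1) / N P Q) (by have := hN.1 p q; positivity)
  rw [div_mul_cancel₀ _ h9.ne'] at h10
  linarith

theorem main : S_RIG := by
  intro N g1 g2 hN hg a11 a12 a21 a22 h
  by_cases hd : 0 ≤ (a11 + a22) ^ 2 - 4 * (a11 * a22 - a12 * a21)
  · left
    set r := Real.sqrt ((a11 + a22) ^ 2 - 4 * (a11 * a22 - a12 * a21)) with hr
    have hr2 : r ^ 2 = (a11 + a22) ^ 2 - 4 * (a11 * a22 - a12 * a21) := Real.sq_sqrt hd
    have h1 := eig hN hg h ((a11 + a22 + r) / 2) (by linear_combination (1 / 4) * hr2)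
    have h2 := eig hN hg h ((a11 + a22 - r) / 2) (by linear_combination (1 / 4) * hr2)
    have h3 : a22 = - a11 := by linarith
    have h4 : r = 0 := by linarith
    have h5 : a11 * a11 + a12 * a21 = 0 := by
      rw [h4, h3] at hr2
      linear_combination (-1 / 4) * hr2
    have h6 := nilp hN hg h h5 h3 1 0
    have h7 := nilp hN hg h h5 h3 0 1
    simp at h6 h7
    exact ⟨h6.1, h7.1, h6.2, h7.2⟩
  · right
    push Not at hd
    set m := (a11 + a22) / 2 with hm
    set n := Real.sqrt (-((a11 + a22) ^ 2 - 4 * (a11 * a22 - a12 * a21))) / 2 with hn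
    have hn0 : 0 < n := by
      have : 0 < Real.sqrt (-((a11 + a22) ^ 2 - 4 * (a11 * a22 - a12 * a21))) :=
        Real.sqrt_pos.2 (by linarith)
      positivity
    have hn2 : n ^ 2 = -((a11 + a22) ^ 2 - 4 * (a11 * a22 - a12 * a21)) / 4 := by
      rw [hn, div_pow, Real.sq_sqrt (by linarith)]; norm_num
    -- the curve
    have key : ∀ p q : ℝ, (p ≠ 0 ∨ q ≠ 0) → ∀ t : ℝ,
        N (Real.exp (m * t) * (Real.cos (n * t) * p +
            Real.sin (n * t) * (((a11 - m) * p + a12 * q) / n)))
          (Real.exp (m * t) * (Real.cos (n * t) * q +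
            Real.sin (n * t) * ((a21 * p + (a22 - m) * q) / n))) = N p q := by
      intro p q hpq t
      set P := ((a11 - m) * p + a12 * q) / n with hP
      set Q := (a21 * p + (a22 - m) * q) / n with hQ
      have hP' : n * P = (a11 - m) * p + a12 * q := by rw [hP]; field_simp
      have hQ' : n * Q = a21 * p + (a22 - m) * q := by rw [hQ]; field_simp
      have hPP : (a11 - m) * P + a12 * Q = - n * p := by
        have : n * ((a11 - m) * P + a12 * Q) = n * (- n * p) := by
          have e : n * ((a11 - m) * P + a12 * Q) = (a11 - m) * (n * P) + a12 * (n * Q) := by ring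
          rw [e, hP', hQ', hm]
          linear_combination p * hn2
        exact mul_left_cancel₀ hn0.ne' this
      have hQQ : a21 * P + (a22 - m) * Q = - n * q := by
        have : n * (a21 * P + (a22 - m) * Q) = n * (- n * q) := by
          have e : n * (a21 * P + (a22 - m) * Q) = a21 * (n * P) + (a22 - m) * (n * Q) := by ring
          rw [e, hP', hQ', hm]
          linear_combination q * hn2
        exact mul_left_cancel₀ hn0.ne' this
      have hX : ∀ t : ℝ, HasDerivAt
          (fun t => Real.exp (m * t) * (Real.cos (n * t) * p + Real.sin (n * t) * P))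
          (a11 * (Real.exp (m * t) * (Real.cos (n * t) * p + Real.sin (n * t) * P)) +
           a12 * (Real.exp (m * t) * (Real.cos (n * t) * q + Real.sin (n * t) * Q))) t := by
        intro t
        have d1 : HasDerivAt (fun t => Real.exp (m * t)) (Real.exp (m * t) * m) t := by
          simpa using ((hasDerivAt_id t).const_mul m).exp
        have d2 : HasDerivAt (fun t => Real.cos (n * t)) (- Real.sin (n * t) * n) t := by
          simpa using ((hasDerivAt_id t).const_mul n).cos
        have d3 : HasDerivAt (fun t => Real.sin (n * t)) (Real.cos (n * t) * n) t := by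
          simpa using ((hasDerivAt_id t).const_mul n).sin
        have d4 := d1.mul ((d2.mul_const p).add (d3.mul_const P))
        refine d4.congr_deriv ?_
        simp only [Pi.add_apply]
        linear_combination (Real.exp (m * t) * Real.cos (n * t)) * hP' -
          (Real.exp (m * t) * Real.sin (n * t)) * hPP
      have hY : ∀ t : ℝ, HasDerivAt
          (fun t => Real.exp (m * t) * (Real.cos (n * t) * q + Real.sin (n * t) * Q))
          (a21 * (Real.exp (m * t) * (Real.cos (n * t) * p + Real.sin (n * t) * P)) +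
           a22 * (Real.exp (m * t) * (Real.cos (n * t) * q + Real.sin (n * t) * Q))) t := by
        intro t
        have d1 : HasDerivAt (fun t => Real.exp (m * t)) (Real.exp (m * t) * m) t := by
          simpa using ((hasDerivAt_id t).const_mul m).exp
        have d2 : HasDerivAt (fun t => Real.cos (n * t)) (- Real.sin (n * t) * n) t := by
          simpa using ((hasDerivAt_id t).const_mul n).cos
        have d3 : HasDerivAt (fun t => Real.sin (n * t)) (Real.cos (n * t) * n) t := by
          simpa using ((hasDerivAt_id t).const_mul n).sin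
        have d4 := d1.mul ((d2.mul_const q).add (d3.mul_const Q))
        refine d4.congr_deriv ?_
        simp only [Pi.add_apply]
        linear_combination (Real.exp (m * t) * Real.cos (n * t)) * hQ' -
          (Real.exp (m * t) * Real.sin (n * t)) * hQQ
      have hne : ∀ t : ℝ,
          Real.exp (m * t) * (Real.cos (n * t) * p + Real.sin (n * t) * P) ≠ 0 ∨
          Real.exp (m * t) * (Real.cos (n * t) * q + Real.sin (n * t) * Q) ≠ 0 := by
        intro t
        by_contra hcon
        push Not at hcon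
        obtain ⟨c1, c2⟩ := hcon
        have he := (Real.exp_pos (m * t)).ne'
        have c3 : Real.cos (n * t) * p + Real.sin (n * t) * P = 0 := by
          rcases mul_eq_zero.1 c1 with h | h
          · exact absurd h he
          · exact h
        have c4 : Real.cos (n * t) * q + Real.sin (n * t) * Q = 0 := by
          rcases mul_eq_zero.1 c2 with h | h
          · exact absurd h he
          · exact h
        have c5 := Real.sin_sq_add_cos_sq (n * t)
        -- apply J: cos P - sin p = 0
        have c6 : Real.cos (n * t) * P - Real.sin (n * t) * p = 0 := by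
          have : n * (Real.cos (n * t) * P - Real.sin (n * t) * p) = n * 0 := by
            linear_combination (a11 - m) * c3 + a12 * c4 + Real.cos (n * t) * hP' -
              Real.sin (n * t) * hPP
          exact mul_left_cancel₀ hn0.ne' this
        have c7 : Real.cos (n * t) * Q - Real.sin (n * t) * q = 0 := by
          have : n * (Real.cos (n * t) * Q - Real.sin (n * t) * q) = n * 0 := by
            linear_combination a21 * c3 + (a22 - m) * c4 + Real.cos (n * t) * hQ' -
              Real.sin (n * t) * hQQ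
          exact mul_left_cancel₀ hn0.ne' this
        have c8 : p = 0 := by
          linear_combination Real.cos (n * t) * c3 - Real.sin (n * t) * c6 - p * c5
        have c9 : q = 0 := by
          linear_combination Real.cos (n * t) * c4 - Real.sin (n * t) * c7 - q * c5
        rcases hpq with h | h
        · exact h c8
        · exact h c9
      have hc := curve hg h _ _ hX hY hne t
      simpa using hc
    -- m = 0
    have hm0 : m = 0 := by
      have k1 := key 1 0 (Or.inl one_ne_zero) (Real.pi / n)
      have k2 : n * (Real.pi / n) = Real.pi := by field_simp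
      rw [k2, Real.cos_pi, Real.sin_pi] at k1
      have k3 : Real.exp (m * (Real.pi / n)) * (-1 * 1 + 0 * (((a11 - m) * 1 + a12 * 0) / n)) =
        (- Real.exp (m * (Real.pi / n))) * 1 := by ring
      have k4 : Real.exp (m * (Real.pi / n)) * (-1 * 0 + 0 * ((a21 * 1 + (a22 - m) * 0) / n)) =
        (- Real.exp (m * (Real.pi / n))) * 0 := by ring
      rw [k3, k4, hN.2.2.1, abs_neg, abs_of_pos (Real.exp_pos _)] at k1
      have k5 : N 1 0 ≠ 0 := fun h => one_ne_zero (hN.2.1 1 0 h).1
      have k6 : Real.exp (m * (Real.pi / n)) = 1 := by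
        have : (Real.exp (m * (Real.pi / n)) - 1) * N 1 0 = 0 := by linear_combination k1
        rcases mul_eq_zero.1 this with h | h
        · linarith
        · exact absurd h k5
      rw [Real.exp_eq_one_iff] at k6
      rcases mul_eq_zero.1 k6 with h | h
      · exact h
      · exact absurd h (by positivity)
    have ha21 : a21 ≠ 0 := by
      intro h0
      rw [h0] at hd
      nlinarith [sq_nonneg (a11 - a22)]
    have ha22 : a22 = - a11 := by linarith
    have hnn : n ^ 2 = - a11 ^ 2 - a12 * a21 := by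
      rw [hn2, ha22]; ring
    refine ⟨N 1 0 ^ 2, - N 1 0 ^ 2 * (a11 / a21), N 1 0 ^ 2 * ((a11 ^ 2 + n ^ 2) / a21 ^ 2), ?_⟩
    intro u v
    -- coordinates
    set y := n * v / a21 with hy
    set x := u - a11 * v / a21 with hx
    set ρ := Real.sqrt (x ^ 2 + y ^ 2) with hρ
    have hρ2 : ρ ^ 2 = x ^ 2 + y ^ 2 := Real.sq_sqrt (by positivity)
    have hgoal : N u v ^ 2 = N 1 0 ^ 2 * (x ^ 2 + y ^ 2) := by
      by_cases h0 : ρ = 0
      · have hx0 : x = 0 := by
          rw [h0] at hρ2
          nlinarith [sq_nonneg x, sq_nonneg y]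
        have hy0 : y = 0 := by
          rw [h0] at hρ2
          nlinarith [sq_nonneg x, sq_nonneg y]
        have hv : v = 0 := by
          rw [hy, div_eq_zero_iff] at hy0
          rcases hy0 with h | h
          · rcases mul_eq_zero.1 h with h | h
            · exact absurd h hn0.ne'
            · exact h
          · exact absurd h ha21
        have hu : u = 0 := by
          rw [hx, hv] at hx0
          simpa using hx0
        have h00 : N 0 0 = 0 := by simpa using hN.2.2.1 0 0 0
        rw [hx0, hy0, hu, hv, h00]; ring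
      · have hcs : (x / ρ) ^ 2 + (y / ρ) ^ 2 = 1 := by
          rw [div_pow, div_pow, ← add_div, hρ2, div_self]
          rw [← hρ2]; positivity
        obtain ⟨s, hs1, hs2⟩ : ∃ s : ℝ, Real.cos s = x / ρ ∧ Real.sin s = y / ρ := by
          refine ⟨Complex.arg ⟨x / ρ, y / ρ⟩, ?_, ?_⟩
          · have hz : (⟨x / ρ, y / ρ⟩ : ℂ) ≠ 0 := by
              intro hz
              rw [Complex.ext_iff] at hz
              simp only [Complex.zero_re, Complex.zero_im] at hz
              rw [hz.1, hz.2] at hcs
              norm_num at hcs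
            rw [Complex.cos_arg hz]
            have : ‖(⟨x / ρ, y / ρ⟩ : ℂ)‖ = 1 := by
              rw [Complex.norm_eq_sqrt_sq_add_sq, hcs, Real.sqrt_one]
            rw [this]; simp
          · rw [Complex.sin_arg]
            have : ‖(⟨x / ρ, y / ρ⟩ : ℂ)‖ = 1 := by
              rw [Complex.norm_eq_sqrt_sq_add_sq, hcs, Real.sqrt_one]
            rw [this]; simp
        have k1 := key 1 0 (Or.inl one_ne_zero) (s / n)
        have k2 : n * (s / n) = s := by field_simp
        rw [k2, hm0, zero_mul, Real.exp_zero, hs1, hs2] at k1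
        have k3 : ρ * (1 * (x / ρ * 1 + y / ρ * (((a11 - 0) * 1 + a12 * 0) / n))) = u := by
          rw [hx, hy]; field_simp; ring
        have k4 : ρ * (1 * (x / ρ * 0 + y / ρ * ((a21 * 1 + (a22 - 0) * 0) / n))) = v := by
          rw [hy]; field_simp; ring
        have k5 := hN.2.2.1 ρ (1 * (x / ρ * 1 + y / ρ * (((a11 - 0) * 1 + a12 * 0) / n)))
          (1 * (x / ρ * 0 + y / ρ * ((a21 * 1 + (a22 - 0) * 0) / n)))
        rw [k3, k4, k1] at k5
        rw [k5, mul_pow, sq_abs, hρ2]; ring
    rw [hgoal, hx, hy]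
    field_simp
    ring

end Pool.Agent.Lead.BR.T.RIG
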