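import Pool.Agent.Lead.BR.Stubs
import Pool.Agent.Lead.BR.Stubs2

set_option autoImplicit false

namespace Pool.Agent.Lead.BR.T.SGN

open TopologicalSpace Metric Filter Topology

theorem main : S_ORT → S_SGN := by
  intro hORT E _ _ D hSm hD x y0 y' q t hx hy0 hy' hxy0 hxy' hV
  have hx0 : x ≠ 0 := by intro h; rw [h, norm_zero] at hx; exact zero_ne_one hx
  have hV' : ∀ a b : ℝ, ‖a • x + b • y'‖ = ‖a • x + b • (q • x + t • y0)‖ := by
    intro a b
    have h1 : ‖a • x + b • y'‖ = ‖(1 * a + q * b) • x + (0 * a + t * b) • y0‖ := hV a b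
    rw [h1]
    congr 1
    module
  have hw : ‖q • x + t • y0‖ = 1 := by
    have := hV' 0 1
    simp only [one_smul, zero_smul, zero_add, hy'] at this
    exact this.symm
  have hDx : D x x = 1 := by rw [(hD x hx0).2, hx]
  have hBo : Bo x (q • x + t • y0) := by
    intro s
    have h1 := hV' 1 s
    rw [one_smul] at h1
    rw [← h1, hx]
    have h3 : D x (x + s • y') = 1 := by
      rw [map_add, map_smul, hDx, hxy']; simp
    have h4 := (D x).le_opNorm (x + s • y')
    rw [h3, norm_one] at h4
    exact h4.trans (mul_le_of_le_one_left (norm_nonneg _) (hD x hx0).1)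
  have hDw := (hORT E D hSm hD x (q • x + t • y0) hx0).1 hBo
  have hq : q = 0 := by
    rw [map_add, map_smul, map_smul, hDx, hxy0] at hDw
    simpa using hDw
  subst hq
  rw [zero_smul, zero_add, norm_smul, hy0, mul_one, Real.norm_eq_abs] at hw
  rcases (abs_eq zero_le_one).1 hw with h | h
  · left
    intro a b
    rw [hV', h, zero_smul, zero_add, one_smul]
    rfl
  · right
    intro a b
    rw [hV', h]
    show _ = ‖a • x + (-b) • y0‖
    congr 1
    module

end Pool.Agent.Lead.BR.T.SGN
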