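import Pool.Agent.Lead.BR.Stubs
import Pool.Agent.Lead.BR.Stubs2

set_option autoImplicit false

namespace Pool.Agent.Lead.BR.T.TEXT

open TopologicalSpace Metric Filter Topology

theorem main : S_CON → S_TEXT := by
  intro hCON E _ _ D hSm hD N x y0 r hx hy0 hxy0 hr hloc
  have hx0 : x ≠ 0 := by intro h; rw [h, norm_zero] at hx; exact zero_ne_one hx
  obtain ⟨δ, hδ, hδ'⟩ := hCON E D hSm hD x y0 hx0 (min (r / 16) (1 / 16))
    (lt_min (by positivity) (by norm_num))
  refine ⟨min (min (r / 16) (1 / 16)) (δ / 4), lt_min (lt_min (by positivity) (by norm_num))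
    (by positivity), ?_⟩
  intro u v hu hv
  have hu1 : ‖u - x‖ < r / 16 :=
    hu.trans_le ((min_le_left _ _).trans (min_le_left _ _))
  have hu2 : ‖u - x‖ < 1 / 16 :=
    hu.trans_le ((min_le_left _ _).trans (min_le_right _ _))
  have hu3 : ‖u - x‖ < δ / 4 := hu.trans_le (min_le_right _ _)
  have hv1 : ‖v - y0‖ < r / 16 :=
    hv.trans_le ((min_le_left _ _).trans (min_le_left _ _))
  have hv2 : ‖v - y0‖ < 1 / 16 :=
    hv.trans_le ((min_le_left _ _).trans (min_le_right _ _))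
  have hun : |‖u‖ - 1| ≤ ‖u - x‖ := by
    rw [← hx]
    exact abs_norm_sub_norm_le u x
  have hupos : 0 < ‖u‖ := by
    have := (abs_le.1 hun).1
    linarith
  set x' : E := ‖u‖⁻¹ • u with hx'
  have hx'n : ‖x'‖ = 1 := by
    rw [hx', norm_smul, norm_inv, norm_norm, inv_mul_cancel₀ hupos.ne']
  have hx'0 : x' ≠ 0 := by intro h; rw [h, norm_zero] at hx'n; exact zero_ne_one hx'n
  have hux' : u = ‖u‖ • x' := by
    rw [hx', smul_smul, mul_inv_cancel₀ hupos.ne', one_smul]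
  have hx'u : ‖x' - u‖ ≤ ‖u - x‖ := by
    have h1 : x' - u = (1 - ‖u‖) • x' := by
      rw [sub_smul, one_smul, ← hux']
    rw [h1, norm_smul, hx'n, mul_one, Real.norm_eq_abs, abs_sub_comm]
    exact hun
  have hx'x : ‖x' - x‖ ≤ 2 * ‖u - x‖ := by
    have : x' - x = (x' - u) + (u - x) := by abel
    rw [this]
    exact (norm_add_le _ _).trans (by linarith)
  obtain ⟨d, hd⟩ : ∃ d : ℝ, d = D x' v := ⟨_, rfl⟩
  have hd1 : |d| < min (r / 16) (1 / 16) + ‖v - y0‖ := by
    have h1 := hδ' x' (by linarith)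
    rw [hxy0, sub_zero] at h1
    have h2 : d = D x' y0 + D x' (v - y0) := by rw [hd, map_sub]; ring
    have h3 : |D x' (v - y0)| ≤ ‖v - y0‖ := by
      rw [← Real.norm_eq_abs]
      refine ((D x').le_opNorm _).trans ?_
      have := (hD x' hx'0).1
      nlinarith [norm_nonneg (v - y0)]
    rw [h2]
    exact (abs_add_le _ _).trans_lt (by linarith)
  have hd2 : |d| < r / 8 := by
    have := min_le_left (r / 16) ((1 : ℝ) / 16)
    linarith
  have hd3 : |d| < 1 / 8 := by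
    have := min_le_right (r / 16) ((1 : ℝ) / 16)
    linarith
  set w : E := v - d • x' with hw
  have hDx' : D x' x' = 1 := by rw [(hD x' hx'0).2, hx'n]
  have hDw : D x' w = 0 := by
    rw [hw, map_sub, map_smul, hDx', ← hd, smul_eq_mul, mul_one, sub_self]
  have hwy : ‖w - y0‖ ≤ ‖v - y0‖ + |d| := by
    have : w - y0 = (v - y0) - d • x' := by rw [hw]; abel
    rw [this]
    refine (norm_sub_le _ _).trans ?_
    rw [norm_smul, hx'n, mul_one, Real.norm_eq_abs]
  have hwn : |‖w‖ - 1| ≤ ‖w - y0‖ := by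
    rw [← hy0]
    exact abs_norm_sub_norm_le w y0
  have hwpos : 0 < ‖w‖ := by
    have := (abs_le.1 hwn).1
    linarith
  set y' : E := ‖w‖⁻¹ • w with hy'
  have hy'n : ‖y'‖ = 1 := by
    rw [hy', norm_smul, norm_inv, norm_norm, inv_mul_cancel₀ hwpos.ne']
  have hwy' : w = ‖w‖ • y' := by
    rw [hy', smul_smul, mul_inv_cancel₀ hwpos.ne', one_smul]
  have hDy' : D x' y' = 0 := by rw [hy', map_smul, hDw, smul_zero]
  have hy'w : ‖y' - w‖ ≤ ‖w - y0‖ := by
    have h1 : y' - w = (1 - ‖w‖) • y' := by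
      rw [sub_smul, one_smul, ← hwy']
    rw [h1, norm_smul, hy'n, mul_one, Real.norm_eq_abs, abs_sub_comm]
    exact hwn
  have hy'y0 : ‖y' - y0‖ < r := by
    have : y' - y0 = (y' - w) + (w - y0) := by abel
    rw [this]
    exact (norm_add_le _ _).trans_lt (by linarith)
  obtain ⟨p, q, r', s, hvia⟩ := hloc x' y' hx'n hy'n hDy' (by linarith) hy'y0
  refine ⟨p * ‖u‖, p * d + q * ‖w‖, r' * ‖u‖, r' * d + s * ‖w‖, fun a b => ?_⟩
  have h1 : a • u + b • v = (a * ‖u‖ + b * d) • x' + (b * ‖w‖) • y' := by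
    have h2 : v = d • x' + ‖w‖ • y' := by rw [← hwy', hw]; abel
    conv_lhs => rw [hux', h2]
    module
  show ‖a • u + b • v‖ = _
  rw [h1]
  have h3 := hvia (a * ‖u‖ + b * d) (b * ‖w‖)
  have h4 : Nrm x' y' (a * ‖u‖ + b * d) (b * ‖w‖) =
    ‖(a * ‖u‖ + b * d) • x' + (b * ‖w‖) • y'‖ := rfl
  rw [← h4, h3]
  congr 1 <;> ring

end Pool.Agent.Lead.BR.T.TEXT
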