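import Pool.Agent.Lead.BR.Stubs
import Pool.Agent.Lead.BR.Stubs2
import Pool.Agent.Lead.BR.Near

set_option autoImplicit false

namespace Pool.Agent.Lead.BR.T.TLOC

open TopologicalSpace Metric Filter Topology

theorem main : S_CON → S_EQV → S_TLIM → S_TLOC := by
  intro hCON hEQV hTLIM E _ _ _ _ D hTr hSm hD N x y0 r hN hx hy0 hxy0 hr hsl
  have hx0 : x ≠ 0 := by intro h; rw [h, norm_zero] at hx; exact zero_ne_one hx
  have hDxx : D x x = 1 := by rw [(hD x hx0).2, hx]
  obtain ⟨t, ht, hopen⟩ := near_open hTr (fun _ : Unit => y0) x hx (κ := r / 8) (by positivity)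
  refine ⟨min t (r / 8), lt_min ht (by positivity), ?_⟩
  intro x' y' hx' hy' hxy' hxx' hyy'
  have hx'0 : x' ≠ 0 := by intro h; rw [h, norm_zero] at hx'; exact zero_ne_one hx'
  have hxt : ‖x' - x‖ ≤ t := (hxx'.trans_le (min_le_left _ _)).le
  have hyr : ‖y' - y0‖ < r / 8 := hyy'.trans_le (min_le_right _ _)
  refine hTLIM E N hN x' y' ?_
  intro ε0 hε0
  obtain ⟨ε, hε, hε2, hεr, hεε⟩ : ∃ ε : ℝ, 0 < ε ∧ ε < 1 / 2 ∧ ε < r / 8 ∧ 2 * ε < ε0 := by
    refine ⟨min (1 / 4) (min (r / 16) (ε0 / 4)), lt_min (by norm_num)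
      (lt_min (by positivity) (by positivity)), ?_, ?_, ?_⟩
    · exact (min_le_left _ _).trans_lt (by norm_num)
    · exact ((min_le_right _ _).trans (min_le_left _ _)).trans_lt (by linarith)
    · have := (min_le_right (1 / 4) (min (r / 16) (ε0 / 4))).trans (min_le_right _ _)
      linarith
  obtain ⟨δ, hδ, hδ'⟩ := hCON E D hSm hD x' y' hx'0 ε hε
  obtain ⟨T, hT1, hT2⟩ := hopen x' hx' hxt (min ε (δ / 2)) (lt_min hε (by positivity))
  have hT1' : ‖T x - x'‖ ≤ ε := hT1.trans (min_le_left _ _)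
  have hT1'' : ‖T x - x'‖ < δ := by
    have := hT1.trans (min_le_right _ _)
    linarith
  have hT2' : ‖T y0 - y0‖ ≤ r / 8 := hT2 ()
  set u : E := T.symm y' with hu
  have hTu : T u = y' := T.apply_symm_apply y'
  have hun : ‖u‖ = 1 := by rw [hu, T.symm.norm_map, hy']
  obtain ⟨s, hs⟩ : ∃ s : ℝ, s = D x u := ⟨_, rfl⟩
  have hs1 : |s| < ε := by
    have h1 := hδ' (T x) hT1''
    rw [hxy', sub_zero, ← hTu, (hEQV E D hSm hD).1 T x u hx0, ← hs] at h1
    exact h1
  set w : E := u - s • x with hw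
  have hDw : D x w = 0 := by
    rw [hw, map_sub, map_smul, hDxx, ← hs, smul_eq_mul, mul_one, sub_self]
  have hwu : ‖w - u‖ ≤ |s| := by
    have : w - u = -(s • x) := by rw [hw]; abel
    rw [this, norm_neg, norm_smul, hx, mul_one, Real.norm_eq_abs]
  have hwn : |‖w‖ - 1| ≤ |s| := by
    rw [← hun]
    exact (abs_norm_sub_norm_le w u).trans hwu
  have hw1 : 1 / 2 < ‖w‖ := by
    have := (abs_le.1 hwn).1
    linarith
  have hw0 : ‖w‖ ≠ 0 := by linarith
  set y : E := ‖w‖⁻¹ • w with hy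
  have hyn : ‖y‖ = 1 := by
    rw [hy, norm_smul, norm_inv, norm_norm, inv_mul_cancel₀ hw0]
  have hDy : D x y = 0 := by rw [hy, map_smul, hDw, smul_zero]
  have hyw : ‖y - w‖ ≤ |s| := by
    have h1 : y - w = (1 - ‖w‖) • y := by
      rw [sub_smul, one_smul]
      congr 1
      rw [hy, smul_smul, mul_inv_cancel₀ hw0, one_smul]
    rw [h1, norm_smul, hyn, mul_one, Real.norm_eq_abs, abs_sub_comm]
    exact hwn
  have hyu : ‖y - u‖ ≤ 2 * |s| := by
    have : y - u = (y - w) + (w - u) := by abel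
    rw [this]
    exact (norm_add_le _ _).trans (by linarith)
  have huy0 : ‖u - y0‖ < r / 4 := by
    have h1 : ‖u - y0‖ = ‖y' - T y0‖ := by rw [← T.norm_map, map_sub, hTu]
    rw [h1]
    have h2 : y' - T y0 = (y' - y0) - (T y0 - y0) := by abel
    rw [h2]
    exact (norm_sub_le _ _).trans_lt (by linarith)
  have hyy0 : ‖y - y0‖ < r := by
    have : y - y0 = (y - u) + (u - y0) := by abel
    rw [this]
    exact (norm_add_le _ _).trans_lt (by linarith)
  refine ⟨T x, T y, by linarith, ?_, ?_⟩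
  · have h4 : ‖T y - y'‖ ≤ 2 * ε := by
      rw [← hTu, ← map_sub, T.norm_map]
      linarith
    linarith
  · obtain ⟨p, q, r', s', hvia⟩ := hsl y hyn hDy hyy0
    refine ⟨p, q, r', s', fun a b => ?_⟩
    rw [← hvia a b]
    show ‖a • T x + b • T y‖ = ‖a • x + b • y‖
    rw [← map_smul, ← map_smul, ← map_add, T.norm_map]

end Pool.Agent.Lead.BR.T.TLOC
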