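import Pool.Agent.Lead.BR.Stubs
import Pool.Agent.Lead.BR.Stubs2

set_option autoImplicit false

namespace Pool.Agent.Lead.BR.T.TWB

open TopologicalSpace Metric Filter Topology

theorem orth_closed {E : Type} [NormedAddCommGroup E] [NormedSpace ℝ E] (x : E) :
    IsClosed (Orth x) := by
  have h1 : IsClosed {y : E | ‖y‖ = 1} := isClosed_eq continuous_norm continuous_const
  have h2 : IsClosed {y : E | Bo x y} := by
    have : {y : E | Bo x y} = ⋂ t : ℝ, {y : E | ‖x‖ ≤ ‖x + t • y‖} := by
      ext y
      simp [Bo]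
    rw [this]
    exact isClosed_iInter fun t => isClosed_le continuous_const (by fun_prop)
  exact h1.inter h2

theorem orth_baire {E : Type} [NormedAddCommGroup E] [NormedSpace ℝ E] [CompleteSpace E] (x : E) :
    BaireSpace (Orth x) := by
  haveI : CompleteSpace (Orth x) := (orth_closed x).completeSpace_coe
  infer_instance

theorem main : S_TWB := by
  intro E _ _ _ N1 N2 x y0 r hy0 hr h
  by_contra hcon
  push Not at hcon
  obtain ⟨h1, h2⟩ := hcon
  haveI := orth_baire x
  have hU : IsOpen {y : Orth x | ‖(y : E) - y0‖ < r} :=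
    isOpen_lt (by fun_prop) continuous_const
  have hne : {y : Orth x | ‖(y : E) - y0‖ < r}.Nonempty := ⟨⟨y0, hy0⟩, by simpa using hr⟩
  refine not_isMeagre_of_isOpen hU hne ?_
  refine (h1.union h2).mono ?_
  intro y hy
  rcases h y y.2 hy with h3 | h3
  · exact Or.inl h3
  · exact Or.inr h3

end Pool.Agent.Lead.BR.T.TWB
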