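import Pool.Agent.Lead.BR.Stubs

/-! # BR-GLO (helper56) -/

set_option autoImplicit false

namespace Pool.Agent.Lead.BR.T.GLO

open Topology

lemma quad_zero {α β γ r : ℝ} (hr : 0 < r) (h : ∀ t : ℝ, |t| < r → α + β * t + γ * t ^ 2 = 0) :
    α = 0 ∧ β = 0 ∧ γ = 0 := by
  have h0 := h 0 (by simpa using hr)
  have h1 := h (r / 2) (by rw [abs_of_pos (by linarith)]; linarith)
  have h2 := h (-(r / 2)) (by rw [abs_neg, abs_of_pos (by linarith)]; linarith)
  have ha : α = 0 := by linarith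
  subst ha
  have hb : β * r = 0 := by linarith
  have hb : β = 0 := by
    rcases mul_eq_zero.mp hb with h3 | h3
    · exact h3
    · exact absurd h3 hr.ne'
  subst hb
  have hg : γ * (r / 2) ^ 2 = 0 := by linarith
  refine ⟨rfl, rfl, ?_⟩
  rcases mul_eq_zero.mp hg with h3 | h3
  · exact h3
  · exact absurd h3 (by positivity)

theorem main : S_GLO := by
  intro g hg
  obtain ⟨ρ₀, b₀, c₀, hρ₀, h₀⟩ := hg 0
  obtain ⟨U, hU⟩ : ∃ U : Set ℝ, U = {s | ∃ ρ : ℝ, 0 < ρ ∧ ∀ t : ℝ, |t| < ρ →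
      g (s + t) = g 0 + b₀ * (s + t) + c₀ * (s + t) ^ 2} := ⟨_, rfl⟩
  have hmem : ∀ s, s ∈ U ↔ ∃ ρ : ℝ, 0 < ρ ∧ ∀ t : ℝ, |t| < ρ →
      g (s + t) = g 0 + b₀ * (s + t) + c₀ * (s + t) ^ 2 := by
    intro s
    rw [hU]
    rfl
  have h0U : (0 : ℝ) ∈ U := by
    rw [hmem]
    refine ⟨ρ₀, hρ₀, fun t ht => ?_⟩
    have := h₀ t ht
    rw [this]
    ring
  have hopen : IsOpen U := by
    rw [Metric.isOpen_iff]
    intro s hs
    rw [hmem] at hs
    obtain ⟨ρ, hρ, h⟩ := hs
    refine ⟨ρ, hρ, fun s' hs' => ?_⟩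
    rw [Metric.mem_ball, Real.dist_eq] at hs'
    rw [hmem]
    refine ⟨ρ - |s' - s|, by linarith, fun t ht => ?_⟩
    have h1 := h (s' + t - s) (by
      have h2 : s' + t - s = (s' - s) + t := by ring
      rw [h2]
      have := abs_add_le (s' - s) t
      linarith)
    have h3 : s + (s' + t - s) = s' + t := by ring
    rw [h3] at h1
    exact h1
  have hclosed : IsClosed U := by
    rw [← closure_subset_iff_isClosed]
    intro s hs
    obtain ⟨ρ, b, c, hρ, h⟩ := hg s
    rw [Metric.mem_closure_iff] at hs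
    obtain ⟨s', hs'U, hs'⟩ := hs ρ hρ
    rw [Real.dist_eq, abs_sub_comm] at hs'
    rw [hmem] at hs'U
    obtain ⟨ρ', hρ', h'⟩ := hs'U
    obtain ⟨d, hd⟩ : ∃ d, d = s' - s := ⟨_, rfl⟩
    rw [← hd] at hs'
    have hs'd : s' = s + d := by rw [hd]; ring
    have hr : 0 < min ρ' (ρ - |d|) := lt_min hρ' (by linarith)
    obtain ⟨e1, e2, e3⟩ := quad_zero
      (α := (g s + b * d + c * d ^ 2) - (g 0 + b₀ * s' + c₀ * s' ^ 2))
      (β := (b + 2 * c * d) - (b₀ + 2 * c₀ * s')) (γ := c - c₀) hr (by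
        intro t ht
        have h1 := h' t (ht.trans_le (min_le_left _ _))
        have h2 := h (d + t) (by
          have := abs_add_le d t
          have := ht.trans_le (min_le_right _ _)
          linarith)
        have h3 : s + (d + t) = s' + t := by rw [hs'd]; ring
        rw [h3, h1] at h2
        linear_combination -h2)
    rw [hmem]
    refine ⟨ρ, hρ, fun t ht => ?_⟩
    rw [h t ht]
    have e4 : c = c₀ := by linarith
    subst e4
    have e5 : b = b₀ + 2 * c * s := by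
      rw [hs'd] at e2
      linarith
    subst e5
    rw [hs'd] at e1
    linear_combination e1
  have hclopen : IsClopen U := ⟨hclosed, hopen⟩
  have huniv := hclopen.eq_univ ⟨0, h0U⟩
  refine ⟨g 0, b₀, c₀, fun t => ?_⟩
  have ht : t ∈ U := by rw [huniv]; trivial
  rw [hmem] at ht
  obtain ⟨ρ, hρ, h⟩ := ht
  have := h 0 (by simpa using hρ)
  simpa using this

end Pool.Agent.Lead.BR.T.GLO
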