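import Pool.Agent.Lead.BR.Stubs
import Pool.Agent.Lead.BR.Near

set_option autoImplicit false

namespace Pool.Agent.Lead.BR.T.LOC

open TopologicalSpace Metric Filter Topology

theorem main : S_CON → S_EQV → S_LOC := by
  intro hCON hEQV E _ _ _ _ D hTr hSm hD N x y0 r hx hy0 hxy0 hr hsl
  have hx0 : x ≠ 0 := by intro h; rw [h, norm_zero] at hx; exact zero_ne_one hx
  have hDxx : D x x = 1 := by rw [(hD x hx0).2, hx]
  obtain ⟨t, ht, hopen⟩ := near_open hTr (fun _ : Unit => y0) x hx (κ := r / 8) (by positivity)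
  refine ⟨min t (r / 8), lt_min ht (by positivity), ?_⟩
  intro x' y' hx' hy' hxy' hxx' hyy' a b
  have hx'0 : x' ≠ 0 := by intro h; rw [h, norm_zero] at hx'; exact zero_ne_one hx'
  have hxt : ‖x' - x‖ ≤ t := (hxx'.trans_le (min_le_left _ _)).le
  have hyr : ‖y' - y0‖ < r / 8 := hyy'.trans_le (min_le_right _ _)
  -- approximation
  have key : ∀ ε : ℝ, 0 < ε → ε < 1 / 2 → ε < r / 8 →
      |‖a • x' + b • y'‖ - N a b| ≤ (|a| + 2 * |b|) * ε := by
    intro ε hε hε2 hεr
    obtain ⟨δ, hδ, hδ'⟩ := hCON E D hSm hD x' y' hx'0 ε hε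
    obtain ⟨T, hT1, hT2⟩ := hopen x' hx' hxt (min ε (δ / 2)) (lt_min hε (by positivity))
    have hT1' : ‖T x - x'‖ ≤ ε := hT1.trans (min_le_left _ _)
    have hT1'' : ‖T x - x'‖ < δ := by
      have := hT1.trans (min_le_right _ _)
      linarith
    have hT2' : ‖T y0 - y0‖ ≤ r / 8 := hT2 ()
    set u : E := T.symm y' with hu
    have hTu : T u = y' := T.apply_symm_apply y'
    have hun : ‖u‖ = 1 := by rw [hu, T.symm.norm_map, hy']
    obtain ⟨s, hs⟩ : ∃ s : ℝ, s = D x u := ⟨_, rfl⟩
    have hs1 : |s| < ε := by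
      have h1 := hδ' (T x) hT1''
      rw [hxy', sub_zero, ← hTu, (hEQV E D hSm hD).1 T x u hx0, ← hs] at h1
      exact h1
    set w : E := u - s • x with hw
    have hDw : D x w = 0 := by
      rw [hw, map_sub, map_smul, hDxx, ← hs, smul_eq_mul, mul_one, sub_self]
    have hwu : ‖w - u‖ ≤ |s| := by
      have : w - u = -(s • x) := by rw [hw]; abel
      rw [this, norm_neg, norm_smul, hx, mul_one, Real.norm_eq_abs]
    have hwn : |‖w‖ - 1| ≤ |s| := by
      rw [← hun]
      exact (abs_norm_sub_norm_le w u).trans hwu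
    have hw1 : 1 / 2 < ‖w‖ := by
      have := (abs_le.1 hwn).1
      linarith
    have hw0 : ‖w‖ ≠ 0 := by linarith
    set y : E := ‖w‖⁻¹ • w with hy
    have hyn : ‖y‖ = 1 := by
      rw [hy, norm_smul, norm_inv, norm_norm, inv_mul_cancel₀ hw0]
    have hDy : D x y = 0 := by rw [hy, map_smul, hDw, smul_zero]
    have hyw : ‖y - w‖ ≤ |s| := by
      have h1 : y - w = (1 - ‖w‖) • y := by
        rw [sub_smul, one_smul]
        congr 1
        rw [hy, smul_smul, mul_inv_cancel₀ hw0, one_smul]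
      rw [h1, norm_smul, hyn, mul_one, Real.norm_eq_abs, abs_sub_comm]
      exact hwn
    have hyu : ‖y - u‖ ≤ 2 * |s| := by
      have : y - u = (y - w) + (w - u) := by abel
      rw [this]
      exact (norm_add_le _ _).trans (by linarith)
    have huy0 : ‖u - y0‖ < r / 4 := by
      have h1 : ‖u - y0‖ = ‖y' - T y0‖ := by rw [← T.norm_map, map_sub, hTu]
      rw [h1]
      have h2 : y' - T y0 = (y' - y0) - (T y0 - y0) := by abel
      rw [h2]
      exact (norm_sub_le _ _).trans_lt (by linarith)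
    have hyy0 : ‖y - y0‖ < r := by
      have : y - y0 = (y - u) + (u - y0) := by abel
      rw [this]
      exact (norm_add_le _ _).trans_lt (by linarith)
    have hshape := hsl y hyn hDy hyy0 a b
    have h1 : ‖a • T x + b • T y‖ = N a b := by
      rw [← map_smul, ← map_smul, ← map_add, T.norm_map, hshape]
    rw [← h1]
    refine (abs_norm_sub_norm_le _ _).trans ?_
    have h2 : a • x' + b • y' - (a • T x + b • T y) = a • (x' - T x) + b • (y' - T y) := by
      rw [smul_sub, smul_sub]; abel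
    rw [h2]
    refine (norm_add_le _ _).trans ?_
    rw [norm_smul, norm_smul, Real.norm_eq_abs, Real.norm_eq_abs]
    have h3 : ‖x' - T x‖ ≤ ε := by rw [norm_sub_rev]; exact hT1'
    have h4 : ‖y' - T y‖ ≤ 2 * ε := by
      rw [← hTu, ← map_sub, T.norm_map, norm_sub_rev]
      linarith
    have h5 : |a| * ‖x' - T x‖ ≤ |a| * ε := mul_le_mul_of_nonneg_left h3 (abs_nonneg a)
    have h6 : |b| * ‖y' - T y‖ ≤ |b| * (2 * ε) := mul_le_mul_of_nonneg_left h4 (abs_nonneg b)
    linarith
  -- conclusion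
  by_contra hne
  have hpos : 0 < |‖a • x' + b • y'‖ - N a b| := abs_pos.2 (sub_ne_zero.2 hne)
  set M : ℝ := |‖a • x' + b • y'‖ - N a b| with hM
  have hK : 0 < |a| + 2 * |b| + 1 := by positivity
  set ε : ℝ := min (1 / 4) (min (r / 16) (M / (2 * (|a| + 2 * |b| + 1)))) with hε
  have hε0 : 0 < ε := lt_min (by norm_num) (lt_min (by positivity) (by positivity))
  have h1 : ε ≤ 1 / 4 := min_le_left _ _
  have h2 : ε ≤ r / 16 := (min_le_right _ _).trans (min_le_left _ _)
  have h3 : ε ≤ M / (2 * (|a| + 2 * |b| + 1)) := (min_le_right _ _).trans (min_le_right _ _)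
  have h4 := key ε hε0 (by linarith) (by linarith)
  rw [le_div_iff₀ (by positivity)] at h3
  nlinarith

end Pool.Agent.Lead.BR.T.LOC
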