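import Pool.Agent.Lead.BR.Stubs

/-! # BR-NIN (helper56) -/

set_option autoImplicit false

namespace Pool.Agent.Lead.BR.T.NIN

theorem main : S_NIN := by
  intro E _ _ D hD x y τ hx hy hxy hτ H w hw hwτ t ht
  have hy0 : y ≠ 0 := by
    intro h
    rw [h, norm_zero] at hy
    exact zero_ne_one hy
  have hDy := hD y hy0
  obtain ⟨c, hc⟩ : ∃ c, c = D y w := ⟨_, rfl⟩
  obtain ⟨v, hv⟩ : ∃ v, v = w - c • y := ⟨_, rfl⟩
  have hwv : w = v + c • y := by rw [hv]; abel
  have hcw : |c| ≤ ‖w‖ := by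
    have h1 := (D y).le_opNorm w
    rw [← hc, Real.norm_eq_abs] at h1
    have h2 := mul_le_mul_of_nonneg_right hDy.1 (norm_nonneg w)
    linarith
  have hxv : D x v = 0 := by
    rw [hv, map_sub, map_smul, hw, hxy, smul_zero, sub_zero]
  have hyv : D y v = 0 := by
    rw [hv, map_sub, map_smul, hDy.2, hy, ← hc, smul_eq_mul, mul_one, sub_self]
  have hvn : ‖v‖ ≤ τ := by
    have h1 : ‖v‖ ≤ ‖w‖ + ‖c • y‖ := by
      rw [hv]
      exact norm_sub_le _ _
    rw [norm_smul, hy, mul_one, Real.norm_eq_abs] at h1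
    linarith
  obtain ⟨h1, h2⟩ := H v hxv hyv hvn
  have htv : ‖t • v‖ ≤ τ := by
    rw [norm_smul, Real.norm_eq_abs]
    have := mul_le_mul_of_nonneg_right ht (norm_nonneg v)
    linarith
  obtain ⟨_, h3⟩ := H (t • v) (by rw [map_smul, hxv, smul_zero]) (by rw [map_smul, hyv, smul_zero])
    htv
  have e1 : x + t • w = x + t • v + (t * c) • y := by
    rw [hwv, smul_add, smul_smul]
    abel
  have e2 : x + w = x + v + c • y := by
    rw [hwv]
    abel
  have h4 := h1 t ht
  rw [e1, h3, e2, h2]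
  linear_combination h4

end Pool.Agent.Lead.BR.T.NIN
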