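import Pool.Agent.Lead.BR.Stubs

/-! # BR-NOR (helper56) -/

set_option autoImplicit false

namespace Pool.Agent.Lead.BR.T.NOR

theorem main : S_NOR := by
  intro E _ _ D hD N x y hx hy hxy hN
  have hx0 : x ≠ 0 := by
    intro h
    rw [h, norm_zero] at hx
    exact zero_ne_one hx
  have hDx := hD x hx0
  refine ⟨⟨?_, ?_, ?_, ?_⟩, ?_, ?_, ?_⟩
  · intro a b
    rw [← hN a b]
    exact norm_nonneg _
  · intro a b h
    rw [← hN a b, norm_eq_zero] at h
    have h1 : D x (a • x + b • y) = a := by
      rw [map_add, map_smul, map_smul, hDx.2, hxy, hx, smul_eq_mul, smul_eq_mul]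
      ring
    rw [h, map_zero] at h1
    refine ⟨h1.symm, ?_⟩
    rw [← h1, zero_smul, zero_add] at h
    rcases smul_eq_zero.mp h with h2 | h2
    · exact h2
    · rw [h2, norm_zero] at hy
      exact absurd hy zero_ne_one
  · intro c a b
    rw [← hN a b, ← hN (c * a) (c * b), mul_smul, mul_smul, ← smul_add, norm_smul, Real.norm_eq_abs]
  · intro a b c d
    rw [← hN (a + c) (b + d), ← hN a b, ← hN c d]
    have h : (a + c) • x + (b + d) • y = (a • x + b • y) + (c • x + d • y) := by
      rw [add_smul, add_smul]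
      abel
    rw [h]
    exact norm_add_le _ _
  · rw [← hN, one_smul, zero_smul, add_zero, hx]
  · rw [← hN, one_smul, zero_smul, zero_add, hy]
  · intro t
    rw [← hN, one_smul]
    have h1 : D x (x + t • y) = 1 := by
      rw [map_add, map_smul, hDx.2, hxy, hx, smul_zero, add_zero]
    have h2 := (D x).le_opNorm (x + t • y)
    rw [h1, norm_one] at h2
    have h3 := mul_le_mul_of_nonneg_right hDx.1 (norm_nonneg (x + t • y))
    linarith

end Pool.Agent.Lead.BR.T.NOR
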