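import Pool.Agent.Lead.BR.Stubs

/-!
# BR-PLE: a transitive norm of the plane is Euclidean
-/

set_option autoImplicit false

namespace Pool.Agent.Lead.BR.T.PLE

open TopologicalSpace Metric Filter Topology
open Pool.Agent.Lead.BR

variable {N : ℝ → ℝ → ℝ}

/-- the matrix with columns `(a, b)`, `(q, s)` is an isometry of `N` -/
def Iso (N : ℝ → ℝ → ℝ) (a b q s : ℝ) : Prop :=
  ∀ u v : ℝ, N (a * u + q * v) (b * u + s * v) = N u v

theorem N_zero (h : IsNorm2 N) : N 0 0 = 0 := by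
  have := h.2.2.1 0 0 0
  simpa using this

theorem N_sym (h : IsNorm2 N) (a b : ℝ) : N (-a) (-b) = N a b := by
  have := h.2.2.1 (-1) a b
  simpa using this

theorem N_fst (h : IsNorm2 N) (a : ℝ) : N a 0 = |a| * N 1 0 := by
  have := h.2.2.1 a 1 0
  simpa using this

theorem N_snd (h : IsNorm2 N) (b : ℝ) : N 0 b = |b| * N 0 1 := by
  have := h.2.2.1 b 0 1
  simpa using this

theorem N_le (h : IsNorm2 N) (a b : ℝ) : N a b ≤ |a| * N 1 0 + |b| * N 0 1 := by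
  have h1 := h.2.2.2 a 0 0 b
  rw [N_fst h, N_snd h, add_zero, zero_add] at h1
  exact h1

theorem N_sub (h : IsNorm2 N) (a b c d : ℝ) : N a b - N c d ≤ N (a - c) (b - d) := by
  have h1 := h.2.2.2 (a - c) (b - d) c d
  rw [sub_add_cancel, sub_add_cancel] at h1
  linarith

theorem N_abs (h : IsNorm2 N) (a b c d : ℝ) :
    |N a b - N c d| ≤ |a - c| * N 1 0 + |b - d| * N 0 1 := by
  rw [abs_le]
  have h1 := N_sub h a b c d
  have h2 := N_sub h c d a b
  have h3 := N_sym h (a - c) (b - d)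
  rw [neg_sub, neg_sub] at h3
  have h4 := N_le h (a - c) (b - d)
  constructor <;> linarith

theorem N_cont (h : IsNorm2 N) : Continuous fun t : ℝ × ℝ => N t.1 t.2 := by
  rw [continuous_iff_continuousAt]
  intro t
  unfold ContinuousAt
  rw [tendsto_iff_norm_sub_tendsto_zero]
  have h1 : Tendsto (fun z : ℝ × ℝ => |z.1 - t.1| * N 1 0 + |z.2 - t.2| * N 0 1) (𝓝 t) (𝓝 0) := by
    have h2 : Continuous fun z : ℝ × ℝ => |z.1 - t.1| * N 1 0 + |z.2 - t.2| * N 0 1 := by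
      fun_prop
    have h3 := h2.tendsto t
    simpa using h3
  refine squeeze_zero (fun _ => norm_nonneg _) (fun z => ?_) h1
  rw [Real.norm_eq_abs]
  exact N_abs h z.1 z.2 t.1 t.2

theorem N_comp (h : IsNorm2 N) {X : Type} [TopologicalSpace X] {f g : X → ℝ} (hf : Continuous f)
    (hg : Continuous g) : Continuous fun x => N (f x) (g x) :=
  (N_cont h).comp (hf.prodMk hg)

/-- comparison with the supremum norm -/
theorem exists_low (h : IsNorm2 N) : ∃ m : ℝ, 0 < m ∧ ∀ u v : ℝ, m * |u| ≤ N u v ∧ m * |v| ≤ N u v := by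
  have hne : (sphere (0 : ℝ × ℝ) 1).Nonempty := ⟨(1, 0), by simp⟩
  obtain ⟨t, ht, hmin⟩ := (isCompact_sphere (0 : ℝ × ℝ) 1).exists_isMinOn hne
    (N_cont h).continuousOn
  have ht0 : t ≠ 0 := by
    rintro rfl
    simp at ht
  have hm : 0 < N t.1 t.2 := by
    refine lt_of_le_of_ne (h.1 _ _) fun h0 => ht0 ?_
    obtain ⟨h1, h2⟩ := h.2.1 _ _ h0.symm
    exact Prod.ext h1 h2
  refine ⟨N t.1 t.2, hm, fun u v => ?_⟩
  have key : N t.1 t.2 * ‖((u, v) : ℝ × ℝ)‖ ≤ N u v := by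
    by_cases h0 : ((u, v) : ℝ × ℝ) = 0
    · rw [h0, norm_zero, mul_zero]
      exact h.1 _ _
    have hM : 0 < ‖((u, v) : ℝ × ℝ)‖ := norm_pos_iff.2 h0
    obtain ⟨M, hMd⟩ : ∃ M, M = ‖((u, v) : ℝ × ℝ)‖ := ⟨_, rfl⟩
    rw [← hMd] at hM ⊢
    have h1 : ((M⁻¹ * u, M⁻¹ * v) : ℝ × ℝ) ∈ sphere (0 : ℝ × ℝ) 1 := by
      rw [mem_sphere_zero_iff_norm]
      have h2 : ((M⁻¹ * u, M⁻¹ * v) : ℝ × ℝ) = M⁻¹ • ((u, v) : ℝ × ℝ) := by
        simp
      rw [h2, norm_smul, ← hMd, norm_inv, Real.norm_of_nonneg hM.le, inv_mul_cancel₀ hM.ne']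
    have h2 : N t.1 t.2 ≤ N (M⁻¹ * u) (M⁻¹ * v) := (isMinOn_iff.1 hmin) _ h1
    rw [h.2.2.1, abs_of_pos (inv_pos.2 hM)] at h2
    calc N t.1 t.2 * M ≤ (M⁻¹ * N u v) * M := mul_le_mul_of_nonneg_right h2 hM.le
      _ = N u v := by field_simp
  have e1 : |u| ≤ ‖((u, v) : ℝ × ℝ)‖ := by
    rw [← Real.norm_eq_abs]
    exact norm_fst_le ((u, v) : ℝ × ℝ)
  have e2 : |v| ≤ ‖((u, v) : ℝ × ℝ)‖ := by
    rw [← Real.norm_eq_abs]
    exact norm_snd_le ((u, v) : ℝ × ℝ)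
  exact ⟨(mul_le_mul_of_nonneg_left e1 hm.le).trans key,
    (mul_le_mul_of_nonneg_left e2 hm.le).trans key⟩

theorem Iso.det {a b q s : ℝ} (h : IsNorm2 N) (hI : Iso N a b q s) : a * s - b * q ≠ 0 := by
  intro h0
  have h1 := hI q (-a)
  have e1 : a * q + q * -a = 0 := by ring
  have e2 : b * q + s * -a = 0 := by linarith
  rw [e1, e2, N_zero h] at h1
  obtain ⟨hq, ha⟩ := h.2.1 _ _ h1.symm
  have h2 := hI s (-b)
  have e3 : a * s + q * -b = 0 := by linarith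
  have e4 : b * s + s * -b = 0 := by ring
  rw [e3, e4, N_zero h] at h2
  obtain ⟨hs, hb⟩ := h.2.1 _ _ h2.symm
  have ha' : a = 0 := by linarith
  have hb' : b = 0 := by linarith
  have h3 := hI 1 0
  rw [ha', hb', hq, hs] at h3
  norm_num at h3
  rw [N_zero h] at h3
  have := (h.2.1 _ _ h3.symm).1
  norm_num at this

theorem Iso.inv {a b q s : ℝ} (h : IsNorm2 N) (hI : Iso N a b q s) :
    Iso N (s / (a * s - b * q)) (-b / (a * s - b * q)) (-q / (a * s - b * q))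
      (a / (a * s - b * q)) := by
  have h0 := hI.det h
  intro x y
  obtain ⟨Δ, hΔ⟩ : ∃ Δ, Δ = a * s - b * q := ⟨_, rfl⟩
  rw [← hΔ] at h0 ⊢
  rw [← hI]
  congr 1
  · field_simp
    rw [hΔ]
    ring
  · field_simp
    rw [hΔ]
    ring

/-- quadratic forms below `N ^ 2` -/
def KK (N : ℝ → ℝ → ℝ) : Set (ℝ × ℝ × ℝ) :=
  {t | ∀ u v : ℝ, 0 ≤ t.1 * u ^ 2 + 2 * t.2.1 * u * v + t.2.2 * v ^ 2 ∧
    t.1 * u ^ 2 + 2 * t.2.1 * u * v + t.2.2 * v ^ 2 ≤ N u v ^ 2}

theorem KK_compact : IsCompact (KK N) := by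
  have hcl : IsClosed (KK N) := by
    unfold KK
    rw [Set.setOf_forall]
    refine isClosed_iInter fun u => ?_
    rw [Set.setOf_forall]
    refine isClosed_iInter fun v => ?_
    rw [Set.setOf_and]
    exact (isClosed_le continuous_const (by fun_prop)).inter
      (isClosed_le (by fun_prop) continuous_const)
  refine IsCompact.of_isClosed_subset (isCompact_Icc (a := ((0, -(N 1 0 ^ 2 + N 0 1 ^ 2), 0) :
    ℝ × ℝ × ℝ)) (b := (N 1 0 ^ 2, N 1 1 ^ 2, N 0 1 ^ 2))) hcl ?_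
  intro t ht
  obtain ⟨h1, h2⟩ := ht 1 0
  obtain ⟨h3, h4⟩ := ht 0 1
  obtain ⟨h5, h6⟩ := ht 1 1
  norm_num at h1 h2 h3 h4 h5 h6
  have h7 : 0 ≤ N 1 0 ^ 2 + N 0 1 ^ 2 := by positivity
  have h8 : 0 ≤ N 1 1 ^ 2 := by positivity
  rw [Set.mem_Icc, Prod.le_def, Prod.le_def, Prod.le_def, Prod.le_def]
  refine ⟨⟨h1, ?_, h3⟩, h2, ?_, h4⟩
  · show -(N 1 0 ^ 2 + N 0 1 ^ 2) ≤ t.2.1
    linarith
  · show t.2.1 ≤ N 1 1 ^ 2
    linarith

/-- strict concavity -/
theorem uniq {A B C A' B' C' : ℝ} (hA : 0 < A) (hC : 0 < C) (hA' : 0 < A') (hC' : 0 < C')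
    (hd : 0 < A * C - B ^ 2) (he : A' * C' - B' ^ 2 = A * C - B ^ 2)
    (h : (A + A') / 2 * ((C + C') / 2) - ((B + B') / 2) ^ 2 ≤ A * C - B ^ 2) :
    A' = A ∧ B' = B ∧ C' = C := by
  -- the difference has nonnegative determinant
  have h1 : 0 ≤ (A' - A) * (C' - C) - (B' - B) ^ 2 := by nlinarith
  -- first case
  have main : ∀ A B C A' B' C' : ℝ, 0 < A → 0 < C → 0 < A * C - B ^ 2 →
      A' * C' - B' ^ 2 = A * C - B ^ 2 → 0 ≤ (A' - A) * (C' - C) - (B' - B) ^ 2 →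
      A ≤ A' → C ≤ C' → A' = A ∧ B' = B ∧ C' = C := by
    intro A B C A' B' C' hA hC hd he h1 hAA hCC
    obtain ⟨x, rfl⟩ : ∃ x, A' = A + x := ⟨A' - A, by ring⟩
    obtain ⟨y, rfl⟩ : ∃ y, B' = B + y := ⟨B' - B, by ring⟩
    obtain ⟨z, rfl⟩ : ∃ z, C' = C + z := ⟨C' - C, by ring⟩
    have hx : 0 ≤ x := by linarith
    have hz : 0 ≤ z := by linarith
    have hxz : 0 ≤ x * z - y ^ 2 := by
      have : (A + x - A) * (C + z - C) - (B + y - B) ^ 2 = x * z - y ^ 2 := by ring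
      linarith
    have hm : A * z + C * x - 2 * B * y ≤ 0 := by nlinarith
    -- `P (-B, A) ≥ 0`
    have hP1 : 0 ≤ x * B ^ 2 - 2 * y * A * B + z * A ^ 2 := by
      by_cases hx0 : x = 0
      · have hy0 : y = 0 := by
          rw [hx0] at hxz
          have : y ^ 2 ≤ 0 := by linarith
          exact pow_eq_zero_iff (two_ne_zero) |>.1 (le_antisymm this (sq_nonneg _))
        rw [hx0, hy0]
        have : 0 ≤ z * A ^ 2 := by positivity
        linarith
      · have hx1 : 0 < x := lt_of_le_of_ne hx (Ne.symm hx0)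
        have h2 : x * (x * B ^ 2 - 2 * y * A * B + z * A ^ 2) =
            (x * B - y * A) ^ 2 + (x * z - y ^ 2) * A ^ 2 := by ring
        have h3 : 0 ≤ x * (x * B ^ 2 - 2 * y * A * B + z * A ^ 2) := by
          rw [h2]
          positivity
        exact nonneg_of_mul_nonneg_right h3 hx1
    have hP2 : 0 ≤ z * B ^ 2 - 2 * y * C * B + x * C ^ 2 := by
      by_cases hz0 : z = 0
      · have hy0 : y = 0 := by
          rw [hz0] at hxz
          have : y ^ 2 ≤ 0 := by linarith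
          exact pow_eq_zero_iff (two_ne_zero) |>.1 (le_antisymm this (sq_nonneg _))
        rw [hz0, hy0]
        have : 0 ≤ x * C ^ 2 := by positivity
        linarith
      · have hz1 : 0 < z := lt_of_le_of_ne hz (Ne.symm hz0)
        have h2 : z * (z * B ^ 2 - 2 * y * C * B + x * C ^ 2) =
            (z * B - y * C) ^ 2 + (x * z - y ^ 2) * C ^ 2 := by ring
        have h3 : 0 ≤ z * (z * B ^ 2 - 2 * y * C * B + x * C ^ 2) := by
          rw [h2]
          positivity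
        exact nonneg_of_mul_nonneg_right h3 hz1
    have hx0 : x = 0 := by
      have h2 : A * (A * z + C * x - 2 * B * y) =
          (x * B ^ 2 - 2 * y * A * B + z * A ^ 2) + (A * C - B ^ 2) * x := by ring
      have h3 : A * (A * z + C * x - 2 * B * y) ≤ 0 := mul_nonpos_of_nonneg_of_nonpos hA.le hm
      have h4 : (A * C - B ^ 2) * x ≤ 0 := by linarith
      have h5 : 0 ≤ (A * C - B ^ 2) * x := mul_nonneg hd.le hx
      rcases mul_eq_zero.1 (le_antisymm h4 h5) with h6 | h6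
      · exact absurd h6 hd.ne'
      · exact h6
    have hz0 : z = 0 := by
      have h2 : C * (A * z + C * x - 2 * B * y) =
          (z * B ^ 2 - 2 * y * C * B + x * C ^ 2) + (A * C - B ^ 2) * z := by ring
      have h3 : C * (A * z + C * x - 2 * B * y) ≤ 0 := mul_nonpos_of_nonneg_of_nonpos hC.le hm
      have h4 : (A * C - B ^ 2) * z ≤ 0 := by linarith
      have h5 : 0 ≤ (A * C - B ^ 2) * z := mul_nonneg hd.le hz
      rcases mul_eq_zero.1 (le_antisymm h4 h5) with h6 | h6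
      · exact absurd h6 hd.ne'
      · exact h6
    have hy0 : y = 0 := by
      rw [hx0] at hxz
      have : y ^ 2 ≤ 0 := by linarith
      exact pow_eq_zero_iff (two_ne_zero) |>.1 (le_antisymm this (sq_nonneg _))
    rw [hx0, hy0, hz0]
    simp
  have h2 : 0 ≤ (A' - A) * (C' - C) := by nlinarith [sq_nonneg (B' - B)]
  rcases le_total A A' with h3 | h3
  · rcases le_total C C' with h4 | h4
    · exact main A B C A' B' C' hA hC hd he h1 h3 h4
    · rcases h3.eq_or_lt with h5 | h5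
      · -- `A = A'`
        obtain ⟨g1, g2, g3⟩ := main A' B' C' A B C hA' hC' (by rw [he]; exact hd) he.symm
          (by nlinarith) h5.ge h4
        exact ⟨g1.symm, g2.symm, g3.symm⟩
      · have h6 : C' = C := by
          by_contra h7
          have h8 : C' < C := lt_of_le_of_ne h4 h7
          nlinarith [mul_pos (sub_pos.2 h5) (sub_pos.2 h8)]
        exact main A B C A' B' C' hA hC hd he h1 h3 h6.ge
  · rcases le_total C' C with h4 | h4
    · obtain ⟨g1, g2, g3⟩ := main A' B' C' A B C hA' hC' (by rw [he]; exact hd) he.symm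
        (by nlinarith) h3 h4
      exact ⟨g1.symm, g2.symm, g3.symm⟩
    · rcases h3.eq_or_lt with h5 | h5
      · exact main A B C A' B' C' hA hC hd he h1 h5.ge h4
      · have h6 : C' = C := by
          by_contra h7
          have h8 : C < C' := lt_of_le_of_ne h4 (Ne.symm h7)
          nlinarith [mul_pos (sub_pos.2 h5) (sub_pos.2 h8)]
        obtain ⟨g1, g2, g3⟩ := main A' B' C' A B C hA' hC' (by rw [he]; exact hd) he.symm
          (by nlinarith) h3 h6.le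
        exact ⟨g1.symm, g2.symm, g3.symm⟩

/-- the form composed with a matrix -/
def cmp (t : ℝ × ℝ × ℝ) (a b q s : ℝ) : ℝ × ℝ × ℝ :=
  (t.1 * a ^ 2 + 2 * t.2.1 * a * b + t.2.2 * b ^ 2,
    t.1 * a * q + t.2.1 * (a * s + b * q) + t.2.2 * b * s,
    t.1 * q ^ 2 + 2 * t.2.1 * q * s + t.2.2 * s ^ 2)

/-- the determinant -/
def dt (t : ℝ × ℝ × ℝ) : ℝ := t.1 * t.2.2 - t.2.1 ^ 2

theorem dt_cmp (t : ℝ × ℝ × ℝ) (a b q s : ℝ) : dt (cmp t a b q s) = (a * s - b * q) ^ 2 * dt t := by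
  unfold dt cmp
  ring

theorem cmp_mem {t : ℝ × ℝ × ℝ} (ht : t ∈ KK N) {a b q s : ℝ} (hI : Iso N a b q s) :
    cmp t a b q s ∈ KK N := by
  intro u v
  have e : (cmp t a b q s).1 * u ^ 2 + 2 * (cmp t a b q s).2.1 * u * v +
      (cmp t a b q s).2.2 * v ^ 2 = t.1 * (a * u + q * v) ^ 2 +
        2 * t.2.1 * (a * u + q * v) * (b * u + s * v) + t.2.2 * (b * u + s * v) ^ 2 := by
    unfold cmp
    ring
  rw [e, ← hI u v]
  exact ht _ _

theorem main : S_PLE := by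
  intro N h h10 hR
  obtain ⟨m, hm, hlow⟩ := exists_low h
  -- a positive definite form
  have hne : ((m ^ 2 / 2, 0, m ^ 2 / 2) : ℝ × ℝ × ℝ) ∈ KK N := by
    intro u v
    obtain ⟨h1, h2⟩ := hlow u v
    have h3 : m ^ 2 * u ^ 2 ≤ N u v ^ 2 := by
      have := mul_self_le_mul_self (by positivity) h1
      calc m ^ 2 * u ^ 2 = (m * |u|) * (m * |u|) := by rw [← sq_abs u]; ring
        _ ≤ N u v * N u v := this
        _ = N u v ^ 2 := by ring
    have h4 : m ^ 2 * v ^ 2 ≤ N u v ^ 2 := by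
      have := mul_self_le_mul_self (by positivity) h2
      calc m ^ 2 * v ^ 2 = (m * |v|) * (m * |v|) := by rw [← sq_abs v]; ring
        _ ≤ N u v * N u v := this
        _ = N u v ^ 2 := by ring
    constructor
    · show 0 ≤ m ^ 2 / 2 * u ^ 2 + 2 * 0 * u * v + m ^ 2 / 2 * v ^ 2
      have h5 : 0 ≤ m ^ 2 / 2 * u ^ 2 := by positivity
      have h6 : 0 ≤ m ^ 2 / 2 * v ^ 2 := by positivity
      linarith
    · show m ^ 2 / 2 * u ^ 2 + 2 * 0 * u * v + m ^ 2 / 2 * v ^ 2 ≤ N u v ^ 2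
      linarith
  obtain ⟨t, ht, hmax⟩ := (KK_compact (N := N)).exists_isMaxOn ⟨_, hne⟩
    (f := dt) (by unfold dt; fun_prop)
  have hmax' : ∀ t' ∈ KK N, dt t' ≤ dt t := isMaxOn_iff.1 hmax
  have hpos : 0 < dt t := by
    refine lt_of_lt_of_le ?_ (hmax' _ hne)
    show 0 < m ^ 2 / 2 * (m ^ 2 / 2) - 0 ^ 2
    have : 0 < m ^ 2 / 2 * (m ^ 2 / 2) := by positivity
    linarith
  -- members of `KK` with positive determinant have positive diagonal
  have hdiag : ∀ t' ∈ KK N, 0 < dt t' → 0 < t'.1 ∧ 0 < t'.2.2 := by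
    intro t' ht' hd
    have h1 := (ht' 1 0).1
    have h2 := (ht' 0 1).1
    norm_num at h1 h2
    unfold dt at hd
    have h3 : 0 < t'.1 * t'.2.2 := by nlinarith [sq_nonneg t'.2.1]
    constructor
    · refine lt_of_le_of_ne h1 fun h4 => ?_
      rw [← h4, zero_mul] at h3
      exact lt_irrefl _ h3
    · refine lt_of_le_of_ne h2 fun h4 => ?_
      rw [← h4, mul_zero] at h3
      exact lt_irrefl _ h3
  have huniq : ∀ t' ∈ KK N, dt t' = dt t → t' = t := by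
    intro t' ht' hd
    obtain ⟨g1, g2⟩ := hdiag t ht hpos
    obtain ⟨g3, g4⟩ := hdiag t' ht' (by rw [hd]; exact hpos)
    have hmid : (((t.1 + t'.1) / 2, (t.2.1 + t'.2.1) / 2, (t.2.2 + t'.2.2) / 2) : ℝ × ℝ × ℝ) ∈
        KK N := by
      intro u v
      obtain ⟨a1, a2⟩ := ht u v
      obtain ⟨b1, b2⟩ := ht' u v
      have e : (t.1 + t'.1) / 2 * u ^ 2 + 2 * ((t.2.1 + t'.2.1) / 2) * u * v +
          (t.2.2 + t'.2.2) / 2 * v ^ 2 =
          ((t.1 * u ^ 2 + 2 * t.2.1 * u * v + t.2.2 * v ^ 2) +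
            (t'.1 * u ^ 2 + 2 * t'.2.1 * u * v + t'.2.2 * v ^ 2)) / 2 := by ring
      show 0 ≤ (t.1 + t'.1) / 2 * u ^ 2 + 2 * ((t.2.1 + t'.2.1) / 2) * u * v +
          (t.2.2 + t'.2.2) / 2 * v ^ 2 ∧ (t.1 + t'.1) / 2 * u ^ 2 +
          2 * ((t.2.1 + t'.2.1) / 2) * u * v + (t.2.2 + t'.2.2) / 2 * v ^ 2 ≤ N u v ^ 2
      rw [e]
      constructor <;> linarith
    have h5 := hmax' _ hmid
    have h6 := uniq g1 g2 g3 g4 hpos hd h5
    exact Prod.ext h6.1 (Prod.ext h6.2.1 h6.2.2)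
  -- invariance
  have hinv : ∀ a b q s : ℝ, Iso N a b q s → cmp t a b q s = t := by
    intro a b q s hI
    refine huniq _ (cmp_mem ht hI) ?_
    have h1 := hmax' _ (cmp_mem ht hI)
    have h2 := hmax' _ (cmp_mem ht (hI.inv h))
    have h0 := hI.det h
    rw [dt_cmp] at h1 h2 ⊢
    obtain ⟨Δ, hΔ⟩ : ∃ Δ, Δ = a * s - b * q := ⟨_, rfl⟩
    have e : s / (a * s - b * q) * (a / (a * s - b * q)) -
        -b / (a * s - b * q) * (-q / (a * s - b * q)) = Δ⁻¹ := by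
      rw [← hΔ] at h0 ⊢
      field_simp
      rw [hΔ]
      ring
    rw [e] at h2
    rw [← hΔ] at h0 h1 ⊢
    have h3 : Δ ^ 2 ≤ 1 := by
      by_contra hcon
      push Not at hcon
      nlinarith
    have h4 : (Δ⁻¹) ^ 2 ≤ 1 := by
      by_contra hcon
      push Not at hcon
      nlinarith
    have h5 : 0 < Δ ^ 2 := by positivity
    have h6 : 1 ≤ Δ ^ 2 := by
      rw [inv_pow] at h4
      have := (inv_le_one₀ h5).1 h4
      exact this
    have h7 : Δ ^ 2 = 1 := le_antisymm h3 h6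
    rw [h7, one_mul]
  have hA : 0 < t.1 := (hdiag t ht hpos).1
  refine ⟨t.1 / t.1, t.2.1 / t.1, t.2.2 / t.1, fun u v => ?_⟩
  rcases (h.1 u v).eq_or_lt with h1 | h1
  · obtain ⟨rfl, rfl⟩ := h.2.1 _ _ h1.symm
    rw [N_zero h]
    ring
  · obtain ⟨M, hM⟩ : ∃ M, M = N u v := ⟨_, rfl⟩
    rw [← hM] at h1 ⊢
    have h2 : N (M⁻¹ * u) (M⁻¹ * v) = 1 := by
      rw [h.2.2.1, ← hM, abs_of_pos (inv_pos.2 h1), inv_mul_cancel₀ h1.ne']
    obtain ⟨q, s, hI⟩ := hR _ _ h2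
    have h3 := congrArg Prod.fst (hinv _ _ _ _ hI)
    have h4 : t.1 * (M⁻¹ * u) ^ 2 + 2 * t.2.1 * (M⁻¹ * u) * (M⁻¹ * v) + t.2.2 * (M⁻¹ * v) ^ 2 =
        t.1 := h3
    field_simp at h4 ⊢
    linarith

end Pool.Agent.Lead.BR.T.PLE
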