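import Pool.Agent.Lead.BR.Stubs

/-!
# BR-PLN: inside the plane of a pair
-/

set_option autoImplicit false

namespace Pool.Agent.Lead.BR.T.PLN

open TopologicalSpace Metric Filter Topology
open Pool.Agent.Lead.BR

theorem main (hCON : S_CON) : S_PLN := by
  intro E _ _ D hSm hNF N x y0 r hx hy0 hD hr hL
  have hx0 : x ≠ 0 := by
    rintro rfl
    simp at hx
  obtain ⟨ε, hε⟩ : ∃ ε, ε = min (1 / 4) (r / 4) := ⟨_, rfl⟩
  have hε0 : 0 < ε := by
    rw [hε]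
    exact lt_min (by norm_num) (by linarith)
  have hε1 : ε ≤ 1 / 4 := by rw [hε]; exact min_le_left _ _
  have hε2 : ε ≤ r / 4 := by rw [hε]; exact min_le_right _ _
  obtain ⟨δ, hδ, hcon⟩ := hCON E D hSm hNF x y0 hx0 ε hε0
  have hS : HasShape N x y0 := hL x y0 hx hy0 hD (by simpa using hr) (by simpa using hr)
  refine ⟨min (δ / 2) (r / 2), lt_min (by linarith) (by linarith), fun a b hN ha hb => ?_⟩
  obtain ⟨z, hz⟩ : ∃ z, z = a • x + b • y0 := ⟨_, rfl⟩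
  have hz1 : ‖z‖ = 1 := by rw [hz, hS a b, hN]
  have hz0 : z ≠ 0 := by
    intro h
    rw [h] at hz1
    simp at hz1
  have hzx : ‖z - x‖ < min δ r := by
    have e : z - x = (a - 1) • x + b • y0 := by
      rw [hz, sub_smul, one_smul]
      abel
    have h1 : ‖z - x‖ ≤ |a - 1| + |b| := by
      rw [e]
      refine (norm_add_le _ _).trans ?_
      rw [norm_smul, norm_smul, hx, hy0, Real.norm_eq_abs, Real.norm_eq_abs, mul_one, mul_one]
    have h2 := lt_min_iff.1 ha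
    have h3 := lt_min_iff.1 hb
    refine lt_min ?_ ?_
    · linarith [h2.1, h3.1]
    · linarith [h2.2, h3.2]
  obtain ⟨hzx1, hzx2⟩ := lt_min_iff.1 hzx
  obtain ⟨d, hd⟩ : ∃ d, d = D z y0 := ⟨_, rfl⟩
  have hd1 : |d| < ε := by
    have := hcon z hzx1
    rw [hD, sub_zero, ← hd] at this
    exact this
  obtain ⟨w, hw⟩ : ∃ w, w = y0 - d • z := ⟨_, rfl⟩
  have hwy : ‖w - y0‖ < ε := by
    have e : w - y0 = -(d • z) := by rw [hw]; abel
    rw [e, norm_neg, norm_smul, hz1, mul_one, Real.norm_eq_abs]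
    exact hd1
  have hwn : |‖w‖ - 1| < ε := by
    have := abs_norm_sub_norm_le w y0
    rw [hy0] at this
    exact lt_of_le_of_lt this hwy
  obtain ⟨hw1, hw2⟩ := abs_lt.1 hwn
  have hwpos : 0 < ‖w‖ := by linarith
  have hDz := (hNF z hz0).2
  rw [hz1] at hDz
  have hDw : D z w = 0 := by
    rw [hw, map_sub, map_smul, hDz, ← hd]
    simp
  obtain ⟨y', hy'⟩ : ∃ y', y' = ‖w‖⁻¹ • w := ⟨_, rfl⟩
  have hy'1 : ‖y'‖ = 1 := by
    rw [hy', norm_smul, norm_inv, norm_norm, inv_mul_cancel₀ hwpos.ne']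
  have hDy' : D z y' = 0 := by
    rw [hy', map_smul, hDw, smul_zero]
  have hy'y : ‖y' - y0‖ < r := by
    have e : y' - y0 = (‖w‖⁻¹ - 1) • w + (w - y0) := by
      rw [hy', sub_smul, one_smul]
      abel
    have h1 : ‖(‖w‖⁻¹ - 1) • w‖ = |1 - ‖w‖| := by
      rw [norm_smul, Real.norm_eq_abs]
      have h2 : |‖w‖⁻¹ - 1| * ‖w‖ = |(‖w‖⁻¹ - 1) * ‖w‖| := by
        rw [abs_mul, abs_norm]
      rw [h2, sub_mul, inv_mul_cancel₀ hwpos.ne', one_mul]
    have h3 : |1 - ‖w‖| < ε := by rw [abs_sub_comm]; exact hwn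
    calc ‖y' - y0‖ ≤ ‖(‖w‖⁻¹ - 1) • w‖ + ‖w - y0‖ := by rw [e]; exact norm_add_le _ _
      _ < ε + ε := by rw [h1]; exact add_lt_add h3 hwy
      _ ≤ r := by linarith
  have hS' : HasShape N z y' := hL z y' hz1 hy'1 hDy' hzx2 hy'y
  refine ⟨-(d * a) * ‖w‖⁻¹, (1 - d * b) * ‖w‖⁻¹, fun u v => ?_⟩
  rw [← hS, ← hS' u v]
  congr 1
  rw [hy', hw, hz]
  simp only [smul_sub, smul_add, smul_smul, add_smul, sub_smul]
  module

end Pool.Agent.Lead.BR.T.PLN
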