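import Pool.Agent.Lead.BR.Defs
import Pool.Agent.Lead.BR.Stubs

/-!
# Project BR, stub QUA
-/

set_option autoImplicit false

namespace Pool.Agent.Lead.BR.T.QUA

open Pool.Agent.Lead.BR

theorem main : S_QUA := by
  intro E _ _ D hTr hSm hNF x0 τ hx0 hτ H z u hz
  obtain ⟨l, hl⟩ : ∃ l : ℝ, l = ‖z‖ := ⟨_, rfl⟩
  have hl0 : 0 < l := by rw [hl]; exact norm_pos_iff.2 hz
  have hx : ‖l⁻¹ • z‖ = 1 := by
    rw [norm_smul, norm_inv, Real.norm_eq_abs, abs_of_pos hl0, ← hl, inv_mul_cancel₀ hl0.ne']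
  obtain ⟨T, hT⟩ := hTr x0 (l⁻¹ • z) hx0 hx
  have hTz : T (l • x0) = z := by
    rw [map_smul, hT, smul_smul, mul_inv_cancel₀ hl0.ne', one_smul]
  obtain ⟨α, hα⟩ : ∃ α : ℝ, α = D x0 (T.symm u) := ⟨_, rfl⟩
  obtain ⟨w, hw⟩ : ∃ w : E, w = T.symm u - α • x0 := ⟨_, rfl⟩
  have hx0n : x0 ≠ 0 := by
    intro h
    rw [h, norm_zero] at hx0
    exact zero_ne_one hx0
  have hDw : D x0 w = 0 := by
    rw [hw, map_sub, map_smul, (hNF x0 hx0n).2, hx0, ← hα, smul_eq_mul, mul_one, sub_self]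
  have hu : T (α • x0 + w) = u := by
    rw [hw, add_sub_cancel, LinearIsometryEquiv.apply_symm_apply]
  obtain ⟨ε, hε⟩ : ∃ ε : ℝ, ε = τ / (‖w‖ + 1) := ⟨_, rfl⟩
  have hw1 : 0 < ‖w‖ + 1 := by positivity
  have hε0 : 0 < ε := by rw [hε]; positivity
  have hεw : ‖ε • w‖ ≤ τ := by
    rw [norm_smul, Real.norm_eq_abs, abs_of_pos hε0, hε, div_mul_eq_mul_div, div_le_iff₀ hw1]
    nlinarith [norm_nonneg w]
  have hDε : D x0 (ε • w) = 0 := by rw [map_smul, hDw, smul_zero]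
  obtain ⟨K, hK⟩ : ∃ K : ℝ, K = ‖x0 + ε • w‖ ^ 2 - 1 := ⟨_, rfl⟩
  refine ⟨min (l / (2 * (|α| + 1))) (ε * l / 2), 2 * l * α, α ^ 2 + K / ε ^ 2, ?_, ?_⟩
  · have : 0 < |α| + 1 := by positivity
    exact lt_min (by positivity) (by positivity)
  intro t ht
  rw [lt_min_iff] at ht
  obtain ⟨ht1, ht2⟩ := ht
  have hα1 : 0 < |α| + 1 := by positivity
  rw [lt_div_iff₀ (by positivity)] at ht1
  have h1 : |t * α| ≤ l / 2 := by
    rw [abs_mul]
    nlinarith [abs_nonneg t, abs_nonneg α]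
  have h2 : l / 2 ≤ l + t * α := by
    have := (abs_le.1 h1).1
    linarith
  obtain ⟨m, hm⟩ : ∃ m : ℝ, m = l + t * α := ⟨_, rfl⟩
  have hm0 : 0 < m := by rw [hm]; linarith
  rw [← hm] at h2
  obtain ⟨s, hs⟩ : ∃ s : ℝ, s = t / (m * ε) := ⟨_, rfl⟩
  have hs1 : |s| ≤ 1 := by
    rw [hs, abs_div, abs_of_pos (by positivity : 0 < m * ε), div_le_one (by positivity)]
    nlinarith
  have h3 := H (ε • w) hDε hεw s hs1
  rw [← hK] at h3
  have h4 : z + t • u = T (m • (x0 + s • (ε • w))) := by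
    have e : m • (x0 + s • (ε • w)) = l • x0 + t • (α • x0 + w) := by
      rw [smul_add, smul_smul, smul_smul, smul_add, smul_smul, ← add_assoc, ← add_smul, ← hm]
      congr 2
      rw [hs]
      field_simp
    rw [e, map_add, map_smul T t, hu, hTz]
  rw [h4, LinearIsometryEquiv.norm_map, norm_smul, mul_pow, Real.norm_eq_abs, sq_abs]
  have h5 : ‖x0 + s • (ε • w)‖ ^ 2 = 1 + s ^ 2 * K := by linarith
  rw [h5, hs, ← hl]
  have h6 : m ^ 2 * (1 + (t / (m * ε)) ^ 2 * K) = m ^ 2 + t ^ 2 * (K / ε ^ 2) := by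
    field_simp
  rw [h6, hm]
  ring

end Pool.Agent.Lead.BR.T.QUA
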