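import Pool.Agent.Lead.BR.Stubs

set_option autoImplicit false

namespace Pool.Agent.Lead.BR.T.SM

open TopologicalSpace Metric Filter Topology Pool.Agent.Lead.BR

variable {E : Type} [NormedAddCommGroup E] [NormedSpace ℝ E]

/-- the points at which the second difference in the direction `w` is small at some scale -/
def UU (w : E) (m : ℕ) : Set E := {x | ∃ δ : ℝ, 0 < δ ∧ ‖x + δ • w‖ + ‖x - δ • w‖ - 2 * ‖x‖ < δ / (m + 1)}

theorem UU_open (w : E) (m : ℕ) : IsOpen (UU w m) := by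
  have e : UU w m = ⋃ δ : {δ : ℝ // 0 < δ}, {x : E | ‖x + δ.1 • w‖ + ‖x - δ.1 • w‖ - 2 * ‖x‖ < δ.1 / (m + 1)} := by
    ext x
    simp only [UU, Set.mem_ofPred_eq, Set.mem_iUnion, Subtype.exists, exists_prop]
  rw [e]
  refine isOpen_iUnion fun δ => ?_
  exact isOpen_lt (by fun_prop) continuous_const

theorem UU_dense (w : E) (m : ℕ) : Dense (UU w m) := by
  rw [Metric.dense_iff]
  intro x ε hε
  -- the function s ↦ ‖x + s w‖ is Lipschitz
  have hL : LipschitzWith ‖w‖₊ (fun s : ℝ => ‖x + s • w‖) := by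
    refine LipschitzWith.of_dist_le_mul fun a b => ?_
    rw [Real.dist_eq, Real.dist_eq]
    refine (abs_norm_sub_norm_le _ _).trans ?_
    have e : x + a • w - (x + b • w) = (a - b) • w := by rw [sub_smul]; abel
    rw [e, norm_smul, Real.norm_eq_abs, mul_comm]
    rfl
  have hae := hL.ae_differentiableAt_real
  have hd : Dense {s : ℝ | DifferentiableAt ℝ (fun s : ℝ => ‖x + s • w‖) s} :=
    MeasureTheory.Measure.dense_of_ae hae
  obtain ⟨s, hs1, hs2⟩ := (Metric.dense_iff.1 hd) 0 (ε / (‖w‖ + 1)) (by positivity)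
  refine ⟨x + s • w, ?_, ?_⟩
  · rw [mem_ball, dist_eq_norm, add_sub_cancel_left, norm_smul]
    rw [mem_ball, dist_zero_right] at hs1
    have hw := norm_nonneg w
    calc ‖s‖ * ‖w‖ ≤ ‖s‖ * (‖w‖ + 1) := by gcongr; linarith
      _ < ε / (‖w‖ + 1) * (‖w‖ + 1) := by gcongr
      _ = ε := by field_simp
  · -- second difference quotient
    simp only [Set.mem_ofPred_eq] at hs2
    set φ : ℝ → ℝ := fun s : ℝ => ‖x + s • w‖ with hφ
    have hder := hs2.hasDerivAt
    rw [hasDerivAt_iff_isLittleO] at hder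
    set c : ℝ := 1 / (4 * (m + 1)) with hc
    have hc0 : 0 < c := by positivity
    have hb := hder.bound hc0
    rw [Metric.eventually_nhds_iff] at hb
    obtain ⟨ρ, hρ, hb⟩ := hb
    have b1 := hb (y := s + ρ / 2) (by
      rw [Real.dist_eq, add_sub_cancel_left, abs_of_pos (by positivity)]; linarith)
    have b2 := hb (y := s - ρ / 2) (by
      rw [Real.dist_eq, sub_sub_cancel_left, abs_neg, abs_of_pos (by positivity)]; linarith)
    refine ⟨ρ / 2, by positivity, ?_⟩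
    have e1 : x + s • w + (ρ / 2) • w = x + (s + ρ / 2) • w := by rw [add_smul]; abel
    have e2 : x + s • w - (ρ / 2) • w = x + (s - ρ / 2) • w := by rw [sub_smul]; abel
    rw [e1, e2]
    have f1 : φ (s + ρ / 2) = ‖x + (s + ρ / 2) • w‖ := rfl
    have f2 : φ (s - ρ / 2) = ‖x + (s - ρ / 2) • w‖ := rfl
    have f3 : φ s = ‖x + s • w‖ := rfl
    rw [← f1, ← f2, ← f3]
    simp only [smul_eq_mul, Real.norm_eq_abs] at b1 b2
    have g1 : s + ρ / 2 - s = ρ / 2 := by ring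
    have g2 : s - ρ / 2 - s = -(ρ / 2) := by ring
    rw [g1, abs_of_pos (by positivity : 0 < ρ / 2)] at b1
    rw [g2, abs_neg, abs_of_pos (by positivity : 0 < ρ / 2)] at b2
    rw [abs_le] at b1 b2
    have h1 : c * (ρ / 2) * 4 = ρ / 2 / (m + 1) := by rw [hc]; field_simp
    have h2 : 0 < c * (ρ / 2) := by positivity
    rw [← h1]
    linarith [b1.2, b2.2]

/-- uniqueness of the norming functional at a good point -/
theorem uniq [SeparableSpace E] [Nonempty E] {x : E}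
    (hx : ∀ n m : ℕ, x ∈ UU (denseSeq E n) m) {f g : StrongDual ℝ E} (hf : ‖f‖ ≤ 1) (hg : ‖g‖ ≤ 1)
    (hfx : f x = ‖x‖) (hgx : g x = ‖x‖) : f = g := by
  have key : ∀ (f g : StrongDual ℝ E), ‖f‖ ≤ 1 → ‖g‖ ≤ 1 → f x = ‖x‖ → g x = ‖x‖ →
      ∀ n, f (denseSeq E n) ≤ g (denseSeq E n) := by
    intro f g hf hg hfx hgx n
    set w := denseSeq E n with hw
    have hm : ∀ m : ℕ, f w - g w < 1 / ((m : ℝ) + 1) := by
      intro m
      obtain ⟨δ, hδ, h⟩ := hx n m
      rw [← hw] at h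
      have h1 : f (x + δ • w) ≤ ‖x + δ • w‖ :=
        (le_abs_self _).trans ((f.le_of_opNorm_le hf _).trans (by rw [one_mul]))
      have h2 : g (x - δ • w) ≤ ‖x - δ • w‖ :=
        (le_abs_self _).trans ((g.le_of_opNorm_le hg _).trans (by rw [one_mul]))
      rw [map_add, map_smul, smul_eq_mul, hfx] at h1
      rw [map_sub, map_smul, smul_eq_mul, hgx] at h2
      have h3 : δ * (f w - g w) < δ * (1 / ((m : ℝ) + 1)) := by
        have e : δ * (1 / ((m : ℝ) + 1)) = δ / (m + 1) := by ring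
        rw [e]
        linarith
      exact lt_of_mul_lt_mul_left h3 hδ.le
    by_contra hn
    push Not at hn
    obtain ⟨m, hm'⟩ := exists_nat_one_div_lt (sub_pos.2 hn)
    exact absurd (hm m) (not_lt.2 hm'.le)
  have hfg : ∀ n, f (denseSeq E n) = g (denseSeq E n) :=
    fun n => le_antisymm (key f g hf hg hfx hgx n) (key g f hg hf hgx hfx n)
  have h2 : (f : E → ℝ) = g := by
    refine Continuous.ext_on (denseRange_denseSeq E) f.continuous g.continuous ?_
    rintro _ ⟨n, rfl⟩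
    exact hfg n
  exact DFunLike.coe_injective h2

theorem main : S_SM := by
  intro E _ _ _ _ hT x f g hx hf hg hfx hgx
  have : Nonempty E := ⟨0⟩
  have hD : Dense (⋂ p : ℕ × ℕ, UU (denseSeq E p.1) p.2) :=
    dense_iInter_of_isOpen (fun p => UU_open _ _) (fun p => UU_dense _ _)
  obtain ⟨x0, h1, h2⟩ := hD.inter_open_nonempty ({0}ᶜ : Set E) isOpen_compl_singleton ⟨x, hx⟩
  have hx0 : x0 ≠ 0 := h1
  have hgood : ∀ n m : ℕ, x0 ∈ UU (denseSeq E n) m := fun n m => Set.mem_iInter.1 h2 (n, m)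
  have n0 : 0 < ‖x0‖ := norm_pos_iff.2 hx0
  have n1 : 0 < ‖x‖ := norm_pos_iff.2 hx
  obtain ⟨T, hT⟩ := hT (‖x0‖⁻¹ • x0) (‖x‖⁻¹ • x)
    (by rw [norm_smul, norm_inv, norm_norm, inv_mul_cancel₀ n0.ne'])
    (by rw [norm_smul, norm_inv, norm_norm, inv_mul_cancel₀ n1.ne'])
  have hTx : T x0 = ‖x0‖ • (‖x‖⁻¹ • x) := by
    rw [← hT, map_smul, smul_smul, mul_inv_cancel₀ n0.ne', one_smul]
  have hn : ∀ h : StrongDual ℝ E, ‖h‖ ≤ 1 → ‖h.comp (T.toContinuousLinearEquiv : E →L[ℝ] E)‖ ≤ 1 := by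
    intro h hh
    refine ContinuousLinearMap.opNorm_le_bound _ zero_le_one fun y => ?_
    have h3 : ‖h (T y)‖ ≤ 1 * ‖T y‖ := h.le_of_opNorm_le hh _
    rw [T.norm_map] at h3
    exact h3
  have hv : ∀ h : StrongDual ℝ E, h x = ‖x‖ → h.comp (T.toContinuousLinearEquiv : E →L[ℝ] E) x0 = ‖x0‖ := by
    intro h hh
    have : h (T x0) = ‖x0‖ := by
      rw [hTx, map_smul, map_smul, hh, smul_eq_mul, smul_eq_mul, inv_mul_cancel₀ n1.ne', mul_one]
    exact this
  have e := uniq hgood (hn f hf) (hn g hg) (hv f hfx) (hv g hgx)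
  ext y
  have e2 := congrArg (fun h : StrongDual ℝ E => h (T.symm y)) e
  have e3 : ∀ h : StrongDual ℝ E, h.comp (T.toContinuousLinearEquiv : E →L[ℝ] E) (T.symm y) = h y := by
    intro h
    change h (T (T.symm y)) = h y
    rw [T.apply_symm_apply]
  rw [e3, e3] at e2
  exact e2

end Pool.Agent.Lead.BR.T.SM
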