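import Pool.Agent.Lead.BR.Stubs

/-! BR-SYM (helper63): symmetry of local Euclidean pairs -/

set_option autoImplicit false

namespace Pool.Agent.Lead.BR.T.SYM

open TopologicalSpace Metric Filter Topology Pool.Agent.Lead.BR

theorem main (hcon : S_CON) : S_SYM := by
  intro E _ _ D hSm hD x y r hx hy hxy hr hE
  have hx0 : x ≠ 0 := by
    intro h
    rw [h, norm_zero] at hx
    exact zero_ne_one hx
  have hy0 : y ≠ 0 := by
    intro h
    rw [h, norm_zero] at hy
    exact zero_ne_one hy
  constructor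
  · -- `D y x = 0`
    have h1 := hE x y hx hy hxy (by simpa using hr) (by simpa using hr) (D y x) 1
    obtain ⟨h2, h3⟩ := hD y hy0
    set c := D y x with hc
    have h4 : D y (c • x + (1 : ℝ) • y) = c * c + 1 := by
      rw [map_add, map_smul, map_smul, h3, hy, ← hc]
      simp
    have h5 : c * c + 1 ≤ ‖c • x + (1 : ℝ) • y‖ := by
      rw [← h4]
      refine (le_abs_self _).trans ((D y).le_opNorm _ |>.trans ?_)
      exact mul_le_of_le_one_left (norm_nonneg _) h2
    have h6 : (c * c + 1) ^ 2 ≤ c ^ 2 + 1 ^ 2 := by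
      rw [← h1]
      exact pow_le_pow_left₀ (by nlinarith [mul_self_nonneg c]) h5 2
    have h7 : c ^ 2 ≤ 0 := by nlinarith [sq_nonneg (c ^ 2), sq_nonneg c]
    exact pow_eq_zero_iff (two_ne_zero) |>.1 (le_antisymm h7 (sq_nonneg c))
  · set ε : ℝ := min (r / 8) (1 / 4) with hε
    have hε0 : 0 < ε := by positivity
    have hε1 : ε ≤ r / 8 := min_le_left _ _
    have hε2 : ε ≤ 1 / 4 := min_le_right _ _
    obtain ⟨δ, hδ, hδ'⟩ := hcon E D hSm hD x y hx0 ε hε0
    refine ⟨min δ ε, lt_min hδ hε0, ?_⟩
    intro z u hz hu hzu hzy hux a b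
    have hz0 : z ≠ 0 := by
      intro h
      rw [h, norm_zero] at hz
      exact zero_ne_one hz
    have hu0 : u ≠ 0 := by
      intro h
      rw [h, norm_zero] at hu
      exact zero_ne_one hu
    have hzy' : ‖z - y‖ < ε := hzy.trans_le (min_le_right _ _)
    have hux' : ‖u - x‖ < δ := hux.trans_le (min_le_left _ _)
    have hux'' : ‖u - x‖ < ε := hux.trans_le (min_le_right _ _)
    obtain ⟨hDu, hDuu⟩ := hD u hu0
    obtain ⟨hDz, hDzz⟩ := hD z hz0
    rw [hu] at hDuu
    rw [hz] at hDzz
    set d := D u z with hd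
    have hdabs : |d| < 2 * ε := by
      have h1 : d = D u (z - y) + D u y := by
        rw [← map_add, sub_add_cancel]
      have h2 : |D u (z - y)| < ε := by
        refine lt_of_le_of_lt ((D u).le_opNorm _) (lt_of_le_of_lt ?_ hzy')
        exact mul_le_of_le_one_left (norm_nonneg _) hDu
      have h3 := hδ' u hux'
      rw [hxy, sub_zero] at h3
      rw [h1]
      refine (abs_add_le _ _).trans_lt ?_
      linarith
    set w : E := z - d • u with hw
    have hwz : ‖w - z‖ = |d| := by
      rw [hw, show z - d • u - z = -(d • u) by abel, norm_neg, norm_smul, hu, mul_one,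
        Real.norm_eq_abs]
    have hw1 : |‖w‖ - 1| ≤ |d| := by
      rw [← hz, ← hwz]
      exact abs_norm_sub_norm_le w z
    have hwpos : 0 < ‖w‖ := by
      rw [abs_le] at hw1
      linarith [hw1.1]
    set v : E := ‖w‖⁻¹ • w with hv
    have hvn : ‖v‖ = 1 := by
      rw [hv, norm_smul, norm_inv, norm_norm, inv_mul_cancel₀ hwpos.ne']
    have hwv : w = ‖w‖ • v := by
      rw [hv, smul_smul, mul_inv_cancel₀ hwpos.ne', one_smul]
    have hDw : D u w = 0 := by
      rw [hw, map_sub, map_smul, hDuu, ← hd, smul_eq_mul, mul_one, sub_self]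
    have hDv : D u v = 0 := by
      rw [hv, map_smul, hDw, smul_zero]
    have hvw : ‖v - w‖ ≤ |d| := by
      have h1 : v - w = (1 - ‖w‖) • v := by
        rw [sub_smul, one_smul, ← hwv]
      rw [h1, norm_smul, hvn, mul_one, Real.norm_eq_abs, abs_sub_comm]
      exact hw1
    have hvy : ‖v - y‖ < r := by
      have h1 : v - y = (v - w) + (w - z) + (z - y) := by abel
      rw [h1]
      refine (norm_add₃_le).trans_lt ?_
      rw [hwz]
      linarith
    have hEu := hE u v hu hvn hDv (by linarith) hvy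
    -- `z = d u + ‖w‖ v`
    have hz' : z = d • u + ‖w‖ • v := by
      rw [← hwv, hw]
      abel
    have h1 := hEu d ‖w‖
    rw [← hz', hz] at h1
    have h2 : 1 ≤ ‖w‖ := by
      have h3 : D z w = 1 := by
        rw [hw, map_sub, map_smul, hDzz, hzu, smul_zero, sub_zero]
      rw [← h3]
      refine (le_abs_self _).trans ((D z).le_opNorm _ |>.trans ?_)
      exact mul_le_of_le_one_left (norm_nonneg _) hDz
    have h3 : d ^ 2 = 0 := by nlinarith [sq_nonneg d]
    have h4 : d = 0 := pow_eq_zero_iff two_ne_zero |>.1 h3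
    have h5 : ‖w‖ = 1 := by
      have : w = z := by rw [hw, h4, zero_smul, sub_zero]
      rw [this, hz]
    rw [h4, h5, zero_smul, one_smul, zero_add] at hz'
    rw [hz', add_comm, hEu b a, add_comm]

end Pool.Agent.Lead.BR.T.SYM
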