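import Pool.Agent.Lead.BR.Stubs

set_option autoImplicit false

namespace Pool.Agent.Lead.BR.T.TWO

open TopologicalSpace Metric Filter Topology Pool.Agent.Lead.BR

theorem near_unit {E : Type} [NormedAddCommGroup E] [NormedSpace ℝ E] {x v : E} (hx : ‖x‖ = 1)
    (hv : ‖v‖ ≤ 1 / 2) : 0 < ‖x + v‖ ∧ ‖‖x + v‖⁻¹ • (x + v) - x‖ ≤ 2 * ‖v‖ := by
  have h1 : |‖x + v‖ - 1| ≤ ‖v‖ := by
    rw [← hx]
    refine (abs_norm_sub_norm_le _ _).trans ?_
    rw [add_sub_cancel_left]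
  have h2 := abs_le.1 h1
  have h0 : 0 < ‖x + v‖ := by linarith
  refine ⟨h0, ?_⟩
  have e : ‖x + v‖⁻¹ • (x + v) - x = (‖x + v‖⁻¹ - 1) • (x + v) + v := by
    rw [sub_smul, one_smul]; abel
  rw [e]
  refine (norm_add_le _ _).trans ?_
  rw [norm_smul, Real.norm_eq_abs]
  have e2 : |‖x + v‖⁻¹ - 1| * ‖x + v‖ = |‖x + v‖ - 1| := by
    have h3 : |‖x + v‖⁻¹ - 1| * ‖x + v‖ = |(‖x + v‖⁻¹ - 1) * ‖x + v‖| := by
      rw [abs_mul, abs_of_pos h0]
    rw [h3, sub_mul, inv_mul_cancel₀ h0.ne', one_mul, abs_sub_comm]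
  rw [e2]
  linarith

theorem main : S_TWO := by
  intro E _ _ D hD x y r hx hy hxy hyx hr h1 h2
  refine ⟨min (1 / 2) (r / 4), by positivity, ?_⟩
  have hA : ∀ v : E, D y v = 0 → ‖v‖ ≤ min (1 / 2) (r / 4) → ∀ a : ℝ,
      ‖x + v + a • y‖ ^ 2 = a ^ 2 + ‖x + v‖ ^ 2 := by
    intro v hv hvn a
    have hv1 := hvn.trans (min_le_left _ _)
    have hv2 := hvn.trans (min_le_right _ _)
    obtain ⟨h0, h3⟩ := near_unit hx hv1
    have h := h2 y (‖x + v‖⁻¹ • (x + v)) hy ?_ ?_ ?_ ?_ a ‖x + v‖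
    · rw [smul_smul, mul_inv_cancel₀ h0.ne', one_smul] at h
      rw [← h]
      congr 2
      abel
    · rw [norm_smul, norm_inv, norm_norm, inv_mul_cancel₀ h0.ne']
    · rw [map_smul, map_add, hyx, hv]; simp
    · simpa using hr
    · linarith
  have hB : ∀ v : E, D x v = 0 → ‖v‖ ≤ min (1 / 2) (r / 4) → ∀ a : ℝ, 1 ≤ |a| →
      ‖x + v + a • y‖ ^ 2 = 1 + a ^ 2 * ‖y + a⁻¹ • v‖ ^ 2 := by
    intro v hv hvn a ha
    have ha0 : a ≠ 0 := by intro h; rw [h] at ha; norm_num at ha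
    have hv1 := hvn.trans (min_le_left _ _)
    have hv2 := hvn.trans (min_le_right _ _)
    have hw : ‖a⁻¹ • v‖ ≤ ‖v‖ := by
      rw [norm_smul, norm_inv, Real.norm_eq_abs]
      have : |a|⁻¹ ≤ 1 := inv_le_one_of_one_le₀ ha
      nlinarith [norm_nonneg v]
    obtain ⟨h0, h3⟩ := near_unit hy (hw.trans hv1)
    have h := h1 x (‖y + a⁻¹ • v‖⁻¹ • (y + a⁻¹ • v)) hx ?_ ?_ ?_ ?_ 1 (a * ‖y + a⁻¹ • v‖)
    · rw [smul_smul, mul_assoc, mul_inv_cancel₀ h0.ne', mul_one, smul_add, smul_smul,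
        mul_inv_cancel₀ ha0, one_smul, one_smul] at h
      have e : x + v + a • y = x + (a • y + v) := by abel
      rw [e, h]
      ring
    · rw [norm_smul, norm_inv, norm_norm, inv_mul_cancel₀ h0.ne']
    · rw [map_smul, map_add, map_smul, hxy, hv]; simp
    · simpa using hr
    · linarith
  intro v hxv hyv hvn
  refine ⟨?_, hA v hyv hvn⟩
  intro t ht
  rcases eq_or_ne t 0 with h0 | h0
  · subst h0
    simp [hx]
  · have hta : 1 ≤ |t⁻¹| := by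
      rw [abs_inv]
      exact one_le_inv₀ (abs_pos.2 h0) |>.2 ht
    have e1 := hA v hyv hvn t⁻¹
    have e2 := hB v hxv hvn t⁻¹ hta
    rw [inv_inv] at e2
    have hxt : D x (t • v) = 0 := by rw [map_smul, hxv]; simp
    have hyt : D y (t • v) = 0 := by rw [map_smul, hyv]; simp
    have htn : ‖t • v‖ ≤ min (1 / 2) (r / 4) := by
      refine le_trans ?_ hvn
      rw [norm_smul, Real.norm_eq_abs]
      nlinarith [norm_nonneg v]
    have e3 := hA (t • v) hyt htn 1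
    have e4 := hB (t • v) hxt htn 1 (by simp)
    simp only [inv_one, one_smul, one_pow, one_mul] at e3 e4
    have e5 : ‖x + t • v‖ ^ 2 = ‖y + t • v‖ ^ 2 := by linarith
    have e6 : (t⁻¹) ^ 2 + ‖x + v‖ ^ 2 = 1 + (t⁻¹) ^ 2 * ‖y + t • v‖ ^ 2 := by linarith
    rw [e5]
    have e7 : t ^ 2 * (t⁻¹) ^ 2 = 1 := by
      rw [← mul_pow, mul_inv_cancel₀ h0, one_pow]
    linear_combination (-(t ^ 2)) * e6 + (1 - ‖y + t • v‖ ^ 2) * e7

end Pool.Agent.Lead.BR.T.TWO
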