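import Pool.Agent.Lead.BR.Stubs2

/-!
# Tools for norms of the plane and matrices (projects BR, `MP_cc72b1_an`)
-/

set_option autoImplicit false

namespace Pool.Agent.Lead.BR.T.Mat

open TopologicalSpace Metric Filter Topology Pool.Agent.Lead.BR

variable {N : ℝ → ℝ → ℝ} {E : Type} [NormedAddCommGroup E] [NormedSpace ℝ E]

theorem zero (hN : IsNorm2 N) : N 0 0 = 0 := by
  have := hN.2.2.1 0 0 0
  simpa using this

theorem up (hN : IsNorm2 N) (a b : ℝ) : N a b ≤ N 1 0 * |a| + N 0 1 * |b| := by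
  have h1 := hN.2.2.2 a 0 0 b
  have h2 := hN.2.2.1 a 1 0
  have h3 := hN.2.2.1 b 0 1
  simp only [mul_one, mul_zero, add_zero, zero_add] at h1 h2 h3
  rw [h2, h3] at h1
  linarith

theorem neg (hN : IsNorm2 N) (a b : ℝ) : N (-a) (-b) = N a b := by
  have := hN.2.2.1 (-1) a b
  simpa using this

theorem lip (hN : IsNorm2 N) (a b c d : ℝ) : |N a b - N c d| ≤ N 1 0 * |a - c| + N 0 1 * |b - d| := by
  have h1 := hN.2.2.2 c d (a - c) (b - d)
  have h2 := hN.2.2.2 a b (-(a - c)) (-(b - d))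
  have h3 := up hN (a - c) (b - d)
  rw [neg hN] at h2
  have e1 : c + (a - c) = a := by ring
  have e2 : d + (b - d) = b := by ring
  have e3 : a + -(a - c) = c := by ring
  have e4 : b + -(b - d) = d := by ring
  rw [e1, e2] at h1
  rw [e3, e4] at h2
  rw [abs_le]
  constructor <;> linarith

theorem cont (hN : IsNorm2 N) : Continuous (fun p : ℝ × ℝ => N p.1 p.2) := by
  rw [continuous_iff_continuousAt]
  rintro ⟨a, b⟩
  have h1 : Tendsto (fun p : ℝ × ℝ => N 1 0 * |p.1 - a| + N 0 1 * |p.2 - b|) (𝓝 (a, b)) (𝓝 0) := by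
    have : Continuous (fun p : ℝ × ℝ => N 1 0 * |p.1 - a| + N 0 1 * |p.2 - b|) := by fun_prop
    have := this.tendsto (a, b)
    simpa using this
  have h2 := squeeze_zero (fun p : ℝ × ℝ => abs_nonneg (N p.1 p.2 - N a b)) (fun p => lip hN p.1 p.2 a b) h1
  have h3 : Tendsto (fun p : ℝ × ℝ => N p.1 p.2 - N a b) (𝓝 (a, b)) (𝓝 0) :=
    (tendsto_zero_iff_abs_tendsto_zero _).2 h2
  have h4 := h3.add_const (N a b)
  simp only [sub_add_cancel, zero_add] at h4
  exact h4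

/-- along sequences -/
theorem tendsto {α : Type*} {l : Filter α} (hN : IsNorm2 N) {f g : α → ℝ} {a b : ℝ} (hf : Tendsto f l (𝓝 a))
    (hg : Tendsto g l (𝓝 b)) : Tendsto (fun x => N (f x) (g x)) l (𝓝 (N a b)) := by
  have := ((cont hN).tendsto (a, b)).comp (hf.prodMk_nhds hg)
  exact this

/-- a norm of the plane is at least a multiple of the coordinates -/
theorem low (hN : IsNorm2 N) : ∃ c : ℝ, 0 < c ∧ ∀ a b : ℝ, c * |a| ≤ N a b ∧ c * |b| ≤ N a b := by
  have hK : IsCompact (sphere (0 : ℝ × ℝ) 1) := isCompact_sphere _ _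
  have hne : (sphere (0 : ℝ × ℝ) 1).Nonempty := ⟨((1 : ℝ), (0 : ℝ)), by simp [Prod.norm_def]⟩
  obtain ⟨p, hp, hmin⟩ := hK.exists_isMinOn hne (cont hN).continuousOn
  have hp1 : ‖p‖ = 1 := by simpa using hp
  have hpos : 0 < N p.1 p.2 := by
    rcases (hN.1 p.1 p.2).lt_or_eq with h | h
    · exact h
    · exfalso
      obtain ⟨h1, h2⟩ := hN.2.1 _ _ h.symm
      have : p = 0 := Prod.ext h1 h2
      rw [this, norm_zero] at hp1
      exact zero_ne_one hp1
  have key : ∀ a b : ℝ, N p.1 p.2 * ‖((a, b) : ℝ × ℝ)‖ ≤ N a b := by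
    intro a b
    by_cases h : ‖((a, b) : ℝ × ℝ)‖ = 0
    · rw [h, mul_zero]; exact hN.1 _ _
    · have hpos' : 0 < ‖((a, b) : ℝ × ℝ)‖ := lt_of_le_of_ne (norm_nonneg _) (Ne.symm h)
      set R := ‖((a, b) : ℝ × ℝ)‖ with hR
      have h1 : (R⁻¹ • ((a, b) : ℝ × ℝ)) ∈ sphere (0 : ℝ × ℝ) 1 := by
        rw [mem_sphere_zero_iff_norm, norm_smul, ← hR, norm_inv, Real.norm_eq_abs, abs_of_pos hpos',
          inv_mul_cancel₀ h]
      have h2 := hmin h1
      have h3 := hN.2.2.1 R (R⁻¹ * a) (R⁻¹ * b)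
      rw [mul_inv_cancel_left₀ h, mul_inv_cancel_left₀ h, abs_of_pos hpos'] at h3
      rw [h3, mul_comm]
      exact mul_le_mul_of_nonneg_left h2 hpos'.le
  refine ⟨N p.1 p.2, hpos, fun a b => ⟨?_, ?_⟩⟩
  · refine le_trans ?_ (key a b)
    refine mul_le_mul_of_nonneg_left ?_ hpos.le
    rw [Prod.norm_def]
    exact le_max_left _ _
  · refine le_trans ?_ (key a b)
    refine mul_le_mul_of_nonneg_left ?_ hpos.le
    rw [Prod.norm_def]
    exact le_max_right _ _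

/-- the norm of a plane is a norm -/
theorem isNorm2 {u v : E} (h : Ind u v) : IsNorm2 (Nrm u v) := by
  refine ⟨fun a b => norm_nonneg _, fun a b hab => h a b (norm_eq_zero.1 hab), fun c a b => ?_, fun a b c d => ?_⟩
  · show ‖(c * a) • u + (c * b) • v‖ = |c| * ‖a • u + b • v‖
    rw [← Real.norm_eq_abs, ← norm_smul, smul_add, smul_smul, smul_smul]
  · show ‖(a + c) • u + (b + d) • v‖ ≤ ‖a • u + b • v‖ + ‖c • u + d • v‖
    refine le_trans (le_of_eq ?_) (norm_add_le _ _)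
    congr 1
    module

/-- `|Nrm u v a b| ≤ |a| ‖u‖ + |b| ‖v‖` etc: the matrix of a type is bounded -/
theorem bound (hN : IsNorm2 N) : ∃ C : ℝ, 0 < C ∧ ∀ (u v : E) (p q r s : ℝ), Via N (Nrm u v) p q r s →
    |p| ≤ C * ‖u‖ ∧ |q| ≤ C * ‖v‖ ∧ |r| ≤ C * ‖u‖ ∧ |s| ≤ C * ‖v‖ := by
  obtain ⟨c, hc, h⟩ := low hN
  refine ⟨c⁻¹, inv_pos.2 hc, fun u v p q r s hv => ?_⟩
  have h1 := hv 1 0
  have h2 := hv 0 1
  simp only [Nrm, one_smul, zero_smul, add_zero, zero_add, mul_one, mul_zero] at h1 h2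
  rw [h1, h2]
  obtain ⟨h3, h4⟩ := h p r
  obtain ⟨h5, h6⟩ := h q s
  refine ⟨?_, ?_, ?_, ?_⟩
  all_goals
    rw [inv_mul_eq_div, le_div_iff₀ hc, mul_comm]
    assumption

/-- a subsequence of the matrices converges, if the planes converge -/
theorem subseq (hN : IsNorm2 N) {u' v' : ℕ → E} {u v : E} (hu : Tendsto u' atTop (𝓝 u))
    (hv : Tendsto v' atTop (𝓝 v)) {p q r s : ℕ → ℝ}
    (h : ∀ n, Via N (Nrm (u' n) (v' n)) (p n) (q n) (r n) (s n)) :
    ∃ (φ : ℕ → ℕ) (P Q R S : ℝ), StrictMono φ ∧ Tendsto (fun n => p (φ n)) atTop (𝓝 P) ∧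
      Tendsto (fun n => q (φ n)) atTop (𝓝 Q) ∧ Tendsto (fun n => r (φ n)) atTop (𝓝 R) ∧
      Tendsto (fun n => s (φ n)) atTop (𝓝 S) ∧ Via N (Nrm u v) P Q R S := by
  obtain ⟨C, hC, hb⟩ := bound (E := E) hN
  obtain ⟨B1, hB1⟩ := (Metric.isBounded_range_of_tendsto u' hu).exists_norm_le
  obtain ⟨B2, hB2⟩ := (Metric.isBounded_range_of_tendsto v' hv).exists_norm_le
  have b1 : ∀ n, ‖u' n‖ ≤ B1 := fun n => hB1 _ ⟨n, rfl⟩
  have b2 : ∀ n, ‖v' n‖ ≤ B2 := fun n => hB2 _ ⟨n, rfl⟩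
  have hbd : ∀ n, (p n, q n, r n, s n) ∈ closedBall (0 : ℝ × ℝ × ℝ × ℝ) (C * max B1 B2) := by
    intro n
    obtain ⟨h1, h2, h3, h4⟩ := hb _ _ _ _ _ _ (h n)
    have m1 : C * ‖u' n‖ ≤ C * max B1 B2 := mul_le_mul_of_nonneg_left ((b1 n).trans (le_max_left _ _)) hC.le
    have m2 : C * ‖v' n‖ ≤ C * max B1 B2 := mul_le_mul_of_nonneg_left ((b2 n).trans (le_max_right _ _)) hC.le
    rw [mem_closedBall_zero_iff]
    simp only [Prod.norm_def, Real.norm_eq_abs]
    exact max_le (h1.trans m1) (max_le (h2.trans m2) (max_le (h3.trans m1) (h4.trans m2)))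
  obtain ⟨⟨P, Q, R, S⟩, -, φ, hφ, hlim⟩ := tendsto_subseq_of_bounded isBounded_closedBall hbd
  have l1 : Tendsto (fun n => p (φ n)) atTop (𝓝 P) :=
    ((continuous_fst).tendsto _).comp hlim
  have l2 : Tendsto (fun n => q (φ n)) atTop (𝓝 Q) :=
    ((continuous_fst.comp continuous_snd).tendsto _).comp hlim
  have l3 : Tendsto (fun n => r (φ n)) atTop (𝓝 R) :=
    ((continuous_fst.comp (continuous_snd.comp continuous_snd)).tendsto _).comp hlim
  have l4 : Tendsto (fun n => s (φ n)) atTop (𝓝 S) :=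
    ((continuous_snd.comp (continuous_snd.comp continuous_snd)).tendsto _).comp hlim
  refine ⟨φ, P, Q, R, S, hφ, l1, l2, l3, l4, fun a b => ?_⟩
  have e1 : Tendsto (fun n => Nrm (u' (φ n)) (v' (φ n)) a b) atTop (𝓝 (Nrm u v a b)) := by
    have h1 := hu.comp hφ.tendsto_atTop
    have h2 := hv.comp hφ.tendsto_atTop
    exact ((h1.const_smul a).add (h2.const_smul b)).norm
  have e2 : Tendsto (fun n => N (p (φ n) * a + q (φ n) * b) (r (φ n) * a + s (φ n) * b)) atTop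
      (𝓝 (N (P * a + Q * b) (R * a + S * b))) :=
    tendsto hN ((l1.mul_const a).add (l2.mul_const b)) ((l3.mul_const a).add (l4.mul_const b))
  have e3 : (fun n => Nrm (u' (φ n)) (v' (φ n)) a b) =
      fun n => N (p (φ n) * a + q (φ n) * b) (r (φ n) * a + s (φ n) * b) := by
    funext n; exact h (φ n) a b
  rw [e3] at e1
  exact tendsto_nhds_unique e1 e2

/-- composition of coordinate changes -/
theorem comp {N1 N2 N3 : ℝ → ℝ → ℝ} {p q r s p' q' r' s' : ℝ} (h1 : Via N1 N2 p q r s)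
    (h2 : Via N2 N3 p' q' r' s') :
    Via N1 N3 (p * p' + q * r') (p * q' + q * s') (r * p' + s * r') (r * q' + s * s') := by
  intro a b
  rw [h2 a b, h1]
  congr 1 <;> ring

/-- the inverse coordinate change -/
theorem inv {N1 N2 : ℝ → ℝ → ℝ} {p q r s : ℝ} (h1 : Via N1 N2 p q r s) (hd : p * s - q * r ≠ 0) :
    Via N2 N1 (s / (p * s - q * r)) (-q / (p * s - q * r)) (-r / (p * s - q * r)) (p / (p * s - q * r)) := by
  intro a b
  rw [h1]
  have e1 : p * (s / (p * s - q * r) * a + -q / (p * s - q * r) * b) +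
      q * (-r / (p * s - q * r) * a + p / (p * s - q * r) * b) = (p * s - q * r) * a / (p * s - q * r) := by ring
  have e2 : r * (s / (p * s - q * r) * a + -q / (p * s - q * r) * b) +
      s * (-r / (p * s - q * r) * a + p / (p * s - q * r) * b) = (p * s - q * r) * b / (p * s - q * r) := by ring
  rw [e1, e2, mul_div_cancel_left₀ _ hd, mul_div_cancel_left₀ _ hd]

/-- the matrix of a type is invertible -/
theorem det_ne {N1 N2 : ℝ → ℝ → ℝ} {p q r s : ℝ} (h1 : Via N1 N2 p q r s)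
    (hN : ∀ a b, N2 a b = 0 → a = 0 ∧ b = 0) (h0 : N1 0 0 = 0) : p * s - q * r ≠ 0 := by
  intro hd
  have k1 : s = 0 ∧ -r = 0 := by
    apply hN
    rw [h1 s (-r), show p * s + q * -r = 0 by linarith, show r * s + s * -r = 0 by ring, h0]
  have k2 : q = 0 ∧ -p = 0 := by
    apply hN
    rw [h1 q (-p), show p * q + q * -p = 0 by ring, show r * q + s * -p = 0 by linarith, h0]
  have k3 : (1 : ℝ) = 0 ∧ (0 : ℝ) = 0 := by
    apply hN
    rw [h1 1 0, k1.1, neg_eq_zero.1 k1.2, k2.1, neg_eq_zero.1 k2.2]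
    simpa using h0
  exact one_ne_zero k3.1

end Pool.Agent.Lead.BR.T.Mat
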