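import Pool.Agent.Lead.BR.T.PLE

/-!
# BR-PLT: local transitivity of a norm of the plane implies transitivity
-/

set_option autoImplicit false

namespace Pool.Agent.Lead.BR.T.PLT

open TopologicalSpace Metric Filter Topology
open Pool.Agent.Lead.BR
open Pool.Agent.Lead.BR.T.PLE

variable {N : ℝ → ℝ → ℝ}

/-- the matrices of isometries -/
def GG (N : ℝ → ℝ → ℝ) : Set ((ℝ × ℝ) × (ℝ × ℝ)) := {M | Iso N M.1.1 M.1.2 M.2.1 M.2.2}

theorem GG_compact (h : IsNorm2 N) : IsCompact (GG N) := by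
  obtain ⟨m, hm, hlow⟩ := exists_low h
  have hcl : IsClosed (GG N) := by
    unfold GG Iso
    rw [Set.setOf_forall]
    refine isClosed_iInter fun u => ?_
    rw [Set.setOf_forall]
    refine isClosed_iInter fun v => ?_
    exact isClosed_eq (N_comp h (by fun_prop) (by fun_prop)) continuous_const
  have h1 : GG N ⊆ closedBall 0 (N 1 0 / m) ×ˢ closedBall 0 (N 0 1 / m) := by
    intro M hM
    have e1 := hM 1 0
    have e2 := hM 0 1
    simp only [mul_one, mul_zero, add_zero, zero_add] at e1 e2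
    rw [Set.mem_prod, mem_closedBall_zero_iff, mem_closedBall_zero_iff, Prod.norm_def,
      Prod.norm_def, sup_le_iff, sup_le_iff, Real.norm_eq_abs, Real.norm_eq_abs,
      Real.norm_eq_abs, Real.norm_eq_abs, le_div_iff₀ hm, le_div_iff₀ hm, le_div_iff₀ hm,
      le_div_iff₀ hm]
    have f1 := hlow M.1.1 M.1.2
    have f2 := hlow M.2.1 M.2.2
    rw [e1] at f1
    rw [e2] at f2
    exact ⟨⟨by linarith [f1.1], by linarith [f1.2]⟩, by linarith [f2.1], by linarith [f2.2]⟩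
  exact IsCompact.of_isClosed_subset
    ((isCompact_closedBall _ _).prod (isCompact_closedBall _ _)) hcl h1

theorem reach_closed (h : IsNorm2 N) : IsClosed {z : ℝ × ℝ | Reach N z.1 z.2} := by
  have h1 : {z : ℝ × ℝ | Reach N z.1 z.2} = Prod.fst '' GG N := by
    ext z
    constructor
    · rintro ⟨q, s, hI⟩
      exact ⟨(z, (q, s)), hI, rfl⟩
    · rintro ⟨M, hM, rfl⟩
      exact ⟨M.2.1, M.2.2, hM⟩
  rw [h1]
  exact ((GG_compact h).image continuous_fst).isClosed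

/-- the norm of the direction `θ` -/
noncomputable def nn (N : ℝ → ℝ → ℝ) (θ : ℝ) : ℝ := N (Real.cos θ) (Real.sin θ)

theorem nn_pos (h : IsNorm2 N) (θ : ℝ) : 0 < nn N θ := by
  refine lt_of_le_of_ne (h.1 _ _) fun h0 => ?_
  obtain ⟨h1, h2⟩ := h.2.1 _ _ h0.symm
  have := Real.cos_sq_add_sin_sq θ
  rw [h1, h2] at this
  norm_num at this

theorem main : S_PLT := by
  intro N h h10 hloc
  obtain ⟨δ, hδ, hloc⟩ := hloc
  have hnc : Continuous (nn N) := N_comp h Real.continuous_cos Real.continuous_sin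
  have hc : Continuous fun θ : ℝ => Real.cos θ / nn N θ :=
    Real.continuous_cos.div hnc fun θ => (nn_pos h θ).ne'
  have hs : Continuous fun θ : ℝ => Real.sin θ / nn N θ :=
    Real.continuous_sin.div hnc fun θ => (nn_pos h θ).ne'
  have hN1 : ∀ θ, N (Real.cos θ / nn N θ) (Real.sin θ / nn N θ) = 1 := by
    intro θ
    have h1 := h.2.2.1 (nn N θ)⁻¹ (Real.cos θ) (Real.sin θ)
    rw [abs_of_pos (inv_pos.2 (nn_pos h θ))] at h1
    rw [div_eq_inv_mul, div_eq_inv_mul, h1]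
    exact inv_mul_cancel₀ (nn_pos h θ).ne'
  obtain ⟨Θ, hΘ⟩ : ∃ Θ : Set ℝ, Θ = {θ | Reach N (Real.cos θ / nn N θ) (Real.sin θ / nn N θ)} :=
    ⟨_, rfl⟩
  have hcl : IsClosed Θ := by
    rw [hΘ]
    exact (reach_closed h).preimage (hc.prodMk hs)
  have hop : IsOpen Θ := by
    rw [isOpen_iff_mem_nhds]
    intro θ0 hθ0
    rw [hΘ] at hθ0
    obtain ⟨q0, s0, hI⟩ := hθ0
    obtain ⟨a0, ha0⟩ : ∃ a0, a0 = Real.cos θ0 / nn N θ0 := ⟨_, rfl⟩
    obtain ⟨b0, hb0⟩ : ∃ b0, b0 = Real.sin θ0 / nn N θ0 := ⟨_, rfl⟩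
    have hI' : Iso N a0 b0 q0 s0 := by
      rw [ha0, hb0]
      exact hI
    have hdet := hI'.det h
    have hinv := hI'.inv h
    obtain ⟨Δ, hΔ⟩ : ∃ Δ, Δ = a0 * s0 - b0 * q0 := ⟨_, rfl⟩
    rw [← hΔ] at hdet hinv
    have c1 : Continuous fun θ : ℝ => s0 / Δ * (Real.cos θ / nn N θ) +
      -q0 / Δ * (Real.sin θ / nn N θ) := by fun_prop
    have c2 : Continuous fun θ : ℝ => -b0 / Δ * (Real.cos θ / nn N θ) +
      a0 / Δ * (Real.sin θ / nn N θ) := by fun_prop
    have t1 := c1.tendsto θ0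
    have t2 := c2.tendsto θ0
    simp only [← ha0, ← hb0] at t1 t2
    have v1 : s0 / Δ * a0 + -q0 / Δ * b0 = 1 := by
      field_simp
      rw [hΔ]
      ring
    have v2 : -b0 / Δ * a0 + a0 / Δ * b0 = 0 := by
      field_simp
      ring
    rw [v1] at t1
    rw [v2] at t2
    have e1 : ∀ᶠ θ in 𝓝 θ0, |(s0 / Δ * (Real.cos θ / nn N θ) +
        -q0 / Δ * (Real.sin θ / nn N θ)) - 1| < δ := by
      have := t1.eventually (ball_mem_nhds (1 : ℝ) hδ)
      filter_upwards [this] with θ hθ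
      rwa [Real.dist_eq] at hθ
    have e2 : ∀ᶠ θ in 𝓝 θ0, |-b0 / Δ * (Real.cos θ / nn N θ) +
        a0 / Δ * (Real.sin θ / nn N θ)| < δ := by
      have := t2.eventually (ball_mem_nhds (0 : ℝ) hδ)
      filter_upwards [this] with θ hθ
      rwa [Real.dist_eq, sub_zero] at hθ
    filter_upwards [e1, e2] with θ g1 g2
    rw [hΘ]
    have hn := hinv (Real.cos θ / nn N θ) (Real.sin θ / nn N θ)
    rw [hN1] at hn
    obtain ⟨q, s, hJ⟩ := hloc _ _ hn g1 g2
    refine ⟨a0 * q + q0 * s, b0 * q + s0 * s, fun u v => ?_⟩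
    rw [← hJ u v]
    refine Eq.trans ?_ (hI' _ _)
    congr 1
    · linear_combination (-(u * (Real.cos θ / nn N θ))) * v1
    · linear_combination (-(u * (Real.sin θ / nn N θ))) * v1
  have huniv : Θ = Set.univ := by
    refine IsClopen.eq_univ ⟨hcl, hop⟩ ⟨0, ?_⟩
    rw [hΘ]
    refine ⟨0, 1, fun u v => ?_⟩
    have : nn N 0 = 1 := by
      unfold nn
      rw [Real.cos_zero, Real.sin_zero, h10]
    rw [this]
    simp
  intro a b hab
  obtain ⟨z, hz⟩ : ∃ z : ℂ, z = ⟨a, b⟩ := ⟨_, rfl⟩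
  have hz0 : z ≠ 0 := by
    intro h0
    rw [hz] at h0
    have h1 := congrArg Complex.re h0
    have h2 := congrArg Complex.im h0
    simp at h1 h2
    rw [h1, h2, N_zero h] at hab
    norm_num at hab
  have hzn : 0 < ‖z‖ := norm_pos_iff.2 hz0
  have hcos : Real.cos z.arg = a / ‖z‖ := by rw [Complex.cos_arg hz0, hz]
  have hsin : Real.sin z.arg = b / ‖z‖ := by rw [Complex.sin_arg, hz]
  have hnz : nn N z.arg = ‖z‖⁻¹ := by
    unfold nn
    rw [hcos, hsin, div_eq_inv_mul, div_eq_inv_mul, h.2.2.1, hab,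
      abs_of_pos (inv_pos.2 hzn), mul_one]
  have hmem : z.arg ∈ Θ := by rw [huniv]; exact Set.mem_univ _
  rw [hΘ] at hmem
  have hmem' : Reach N (Real.cos z.arg / nn N z.arg) (Real.sin z.arg / nn N z.arg) := hmem
  rw [hcos, hsin, hnz] at hmem'
  have e1 : a / ‖z‖ / ‖z‖⁻¹ = a := by field_simp
  have e2 : b / ‖z‖ / ‖z‖⁻¹ = b := by field_simp
  rwa [e1, e2] at hmem'

end Pool.Agent.Lead.BR.T.PLT
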