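import Pool.Agent.Lead.BR.Stubs2

set_option autoImplicit false

namespace Pool.Agent.Lead.BR.T.QEU

open TopologicalSpace Metric Filter Topology

theorem main : S_QEU := by
  intro E _ _ D hD N x y hQ hx hy hxy hT
  obtain ⟨A, B, C, hQ⟩ := hQ
  obtain ⟨p, q, r, s, hV⟩ := hT
  have hx0 : x ≠ 0 := by intro h; rw [h, norm_zero] at hx; exact zero_ne_one hx
  obtain ⟨A', hA'⟩ : ∃ A' : ℝ, A' = A * p ^ 2 + 2 * B * p * r + C * r ^ 2 := ⟨_, rfl⟩
  obtain ⟨B', hB'⟩ : ∃ B' : ℝ, B' = A * p * q + B * (p * s + q * r) + C * r * s := ⟨_, rfl⟩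
  obtain ⟨C', hC'⟩ : ∃ C' : ℝ, C' = A * q ^ 2 + 2 * B * q * s + C * s ^ 2 := ⟨_, rfl⟩
  have hform : ∀ a b : ℝ, ‖a • x + b • y‖ ^ 2 = A' * a ^ 2 + 2 * B' * a * b + C' * b ^ 2 := by
    intro a b
    have h1 : ‖a • x + b • y‖ = N (p * a + q * b) (r * a + s * b) := hV a b
    rw [h1, hQ, hA', hB', hC']
    ring
  have hA1 : A' = 1 := by
    have := hform 1 0
    simp only [one_smul, zero_smul, add_zero, hx] at this
    linarith
  have hC1 : C' = 1 := by
    have := hform 0 1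
    simp only [one_smul, zero_smul, zero_add, hy] at this
    linarith
  have hlow : ∀ t : ℝ, 1 ≤ ‖(1 : ℝ) • x + t • y‖ := by
    intro t
    obtain ⟨h1, h2⟩ := hD x hx0
    have h3 : D x ((1 : ℝ) • x + t • y) = 1 := by
      rw [map_add, map_smul, map_smul, h2, hx, hxy]; simp
    have h4 := (D x).le_opNorm ((1 : ℝ) • x + t • y)
    rw [h3, norm_one] at h4
    exact h4.trans (mul_le_of_le_one_left (norm_nonneg _) h1)
  have hB1 : B' = 0 := by
    have h1 := hlow (-B')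
    have h2 : (1 : ℝ) ≤ ‖(1 : ℝ) • x + (-B') • y‖ ^ 2 := by nlinarith
    rw [hform, hA1, hC1] at h2
    have h3 : B' ^ 2 ≤ 0 := by nlinarith
    exact pow_eq_zero_iff (two_ne_zero) |>.1 (le_antisymm h3 (sq_nonneg _))
  intro a b
  rw [hform, hA1, hB1, hC1]
  ring

end Pool.Agent.Lead.BR.T.QEU
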